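import Pool.Agent.Helper64.E8C.Tab
import Pool.Agent.Helper64.E8C.CmA

/-!
# Orbit coordinates on the Chevalley algebra, bracket formula over any commutative ring

`X z j i` (`j < 8`, `i` a natural number modulo 30) is the coordinate of `z` at the root `W ^ i α_j`, with the sign of the lift `nn`.
`X_lie`: bracket of two elements without Cartan part at the simple root `α_p` and its `W`-orbit: a sum over the 56 entries of row `p` of the table `tab`.
-/

set_option autoImplicit false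

namespace Pool.Agent.Helper73.E8.Xc

open Pool.Agent.Helper73.E8 Pool.Agent.Helper64.E8C

variable {R : Type*} [CommRing R]

/-- The coordinates. -/
def X (z : Chev R) (j : Fin 8) (i : ℕ) : R := (etk i j : R) * z.x (rt i j)

theorem x_eq (z : Chev R) (j : Fin 8) (i : ℕ) : z.x (rt i j) = (etk i j : R) * X z j i := by
  unfold X
  rw [← mul_assoc, ← Int.cast_mul, etk_sq, Int.cast_one, one_mul]

theorem X_zero_idx (z : Chev R) (j : Fin 8) : X z j 0 = z.x (sr j) := by
  unfold X
  have h1 : etk 0 j = 1 := by simp [etk]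
  rw [h1, Int.cast_one, one_mul]
  rfl

theorem X_thirty (z : Chev R) (j : Fin 8) (i : ℕ) : X z j (i + 30) = X z j i := by
  unfold X
  rw [etk_thirty, rt_thirty]

theorem X_mod (z : Chev R) (j : Fin 8) (i : ℕ) : X z j (i % 30) = X z j i := by
  have h : ∀ n i : ℕ, X z j (i + 30 * n) = X z j i := by
    intro n
    induction n with
    | zero => intro i; rfl
    | succ n ih => intro i; rw [Nat.mul_succ, ← add_assoc, X_thirty, ih]
  conv_rhs => rw [← Nat.mod_add_div i 30]
  rw [h]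

theorem X_add (z w : Chev R) (j : Fin 8) (i : ℕ) : X (z + w) j i = X z j i + X w j i := mul_add _ _ _

theorem X_smul (c : R) (z : Chev R) (j : Fin 8) (i : ℕ) : X (c • z) j i = c * X z j i := by
  unfold X
  change (etk i j : R) * (c * z.x (rt i j)) = c * ((etk i j : R) * z.x (rt i j))
  ring

/-- Two elements with the same Cartan part and the same orbit coordinates are equal. -/
theorem X_ext {z w : Chev R} (h : z.h = w.h) (hx : ∀ j, ∀ i < 30, X z j i = X w j i) : z = w := by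
  apply Chev.ext h
  funext a
  obtain ⟨i, hi, j, rfl⟩ := rt_surj a
  rw [x_eq, x_eq, hx j i hi]

theorem X_nn (z : Chev R) (j : Fin 8) (i : ℕ) : X (nn z) j (i + 1) = X z j i := by
  unfold X
  rw [etk_succ, rt_succ]
  change _ * (((et (rW.symm (rW (rt i j))).1 : ℤ) : R) * z.x (rW.symm (rW (rt i j)))) = _
  rw [Equiv.symm_apply_apply]
  have h : ((et (rt i j).1 : ℤˣ) : ℤ) * ((et (rt i j).1 : ℤˣ) : ℤ) = 1 := by
    rw [← Units.val_mul, ← sq, Int.units_sq]; rfl
  push_cast
  have h2 : (((et (rt i j).1 : ℤˣ) : ℤ) : R) * (((et (rt i j).1 : ℤˣ) : ℤ) : R) = 1 := by exact_mod_cast congrArg (Int.cast : ℤ → R) h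
  linear_combination (etk i j : R) * z.x (rt i j) * h2

theorem X_nn_iter (k : ℕ) (z : Chev R) (j : Fin 8) (i : ℕ) : X (nn^[k] z) j (i + k) = X z j i := by
  induction k generalizing z with
  | zero => rfl
  | succ k ih => rw [Function.iterate_succ_apply', ← add_assoc, X_nn, ih]

theorem nn_iter_lie (k : ℕ) (z w : Chev R) : nn^[k] ⁅z, w⁆ = ⁅nn^[k] z, nn^[k] w⁆ := by
  induction k with
  | zero => rfl
  | succ k ih => rw [Function.iterate_succ_apply', Function.iterate_succ_apply', Function.iterate_succ_apply', ih, nn_lie]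

theorem nn_iter_h (k : ℕ) {z : Chev R} (h : z.h = 0) : (nn^[k] z).h = 0 := by
  induction k with
  | zero => exact h
  | succ k ih =>
    rw [Function.iterate_succ_apply']
    funext j
    change ∑ i, (nn^[k] z).h i * (Wmat i j : R) = 0
    rw [ih]
    simp

/-- The sign of an entry of the table. -/
def sgn (e : ℕ × ℕ × ℕ × ℕ × ℕ) : ℤ := if e.2.2.2.2 = 1 then 1 else -1

theorem eps_entry (l : Fin 8) {e : ℕ × ℕ × ℕ × ℕ × ℕ} (he : e ∈ tab.getD l []) :
    (eps (ea e).1 (eb e).1 : ℤ) * etk e.2.1 (Fin.ofNat 8 e.1) * etk e.2.2.2.1 (Fin.ofNat 8 e.2.2.1) = sgn e := by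
  obtain ⟨h1, h2, h3, h4⟩ := lt67 l he
  have h5 := sign67 l he
  have e1 : eps (ea e).1 (eb e).1 = (be (fun m => rc e.2.1 e.1 m) (fun m => rc e.2.2.2.1 e.2.2.1 m)).negOnePow := by
    rw [eps]
    congr 2
    · funext m
      rw [ea, rt_table h2, Fin.val_ofNat, Nat.mod_eq_of_lt h1]
    · funext m
      rw [eb, rt_table h4, Fin.val_ofNat, Nat.mod_eq_of_lt h3]
  have hneg : ∀ n : ℤ, ((n.negOnePow : ℤˣ) : ℤ) = if n % 2 = 0 then 1 else -1 := by
    intro n
    rcases Int.even_or_odd n with h | h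
    · rw [Int.negOnePow_even n h, if_pos (Int.even_iff.mp h)]
      rfl
    · rw [Int.negOnePow_odd n h, if_neg (by rw [Int.odd_iff.mp h]; decide)]
      rfl
  rw [e1, hneg, etk_table h2, etk_table h4, Fin.val_ofNat, Fin.val_ofNat, Nat.mod_eq_of_lt h1, Nat.mod_eq_of_lt h3]
  rcases h5 with ⟨h5, h6⟩ | ⟨h5, h6⟩
  · rw [h5, sgn, h6, if_pos rfl]
  · rw [h5, sgn, h6, if_neg (by decide)]

theorem tab_sumR (l : Fin 8) (f : Root → Root → R) :
    ∑ a : Root, ∑ b : Root, (if a.1 + b.1 = al l then ((eps a.1 b.1 : ℤ) : R) * f a b else 0) =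
      ((tab.getD l []).map fun e => ((eps (ea e).1 (eb e).1 : ℤ) : R) * f (ea e) (eb e)).sum := by
  classical
  set T : Root → R := fun a => ∑ b : Root, (if a.1 + b.1 = al l then ((eps a.1 b.1 : ℤ) : R) * f a b else 0) with hT
  have h1 : ∀ e ∈ tab.getD l [], T (ea e) = ((eps (ea e).1 (eb e).1 : ℤ) : R) * f (ea e) (eb e) := by
    intro e he
    rw [hT]
    have h2 := add_eq67 l he
    change (∑ b : Root, (if (ea e).1 + b.1 = al l then ((eps (ea e).1 b.1 : ℤ) : R) * f (ea e) b else 0)) = _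
    rw [Finset.sum_eq_single (eb e)]
    · rw [if_pos h2]
    · intro b _ hb
      rw [if_neg]
      intro h3
      exact hb (root_ext (add_left_cancel (h3.trans h2.symm)))
    · intro h3
      exact absurd (Finset.mem_univ _) h3
  have h2 : ((tab.getD l []).map fun e => ((eps (ea e).1 (eb e).1 : ℤ) : R) * f (ea e) (eb e)) =
      ((tab.getD l []).map ea).map T := by
    rw [List.map_map]
    exact List.map_congr_left fun e he => (h1 e he).symm
  rw [h2, ← List.sum_toFinset T (nodup67 l)]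
  symm
  refine Finset.sum_subset (Finset.subset_univ _) fun a _ ha => ?_
  refine Finset.sum_eq_zero fun b _ => ?_
  rw [if_neg]
  intro hab
  apply ha
  rw [List.mem_toFinset]
  exact mem67 l hab

/-- Bracket at a simple root. -/
theorem X_lie_zero {z w : Chev R} (hz : z.h = 0) (hw : w.h = 0) (p : Fin 8) : X ⁅z, w⁆ p 0 =
    ((tab.getD p []).map fun e => (sgn e : R) * X z (Fin.ofNat 8 e.1) e.2.1 * X w (Fin.ofNat 8 e.2.2.1) e.2.2.2.1).sum := by
  classical
  have h0 : (sr p).1 = al p := rfl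
  rw [X_zero_idx, Chev.brk_x, hz, hw, Chev.pr_zero, zero_mul, zero_mul, sub_zero, zero_add, h0,
    tab_sumR p (fun a b => z.x a * w.x b)]
  congr 1
  refine List.map_congr_left fun e he => ?_
  have h1 := eps_entry p he
  have h2 : ((eps (ea e).1 (eb e).1 : ℤ) : R) = (sgn e : R) * (etk e.2.1 (Fin.ofNat 8 e.1) : R) *
      (etk e.2.2.2.1 (Fin.ofNat 8 e.2.2.1) : R) := by
    rw [← h1]
    have h3 : ((etk e.2.1 (Fin.ofNat 8 e.1) : ℤ) : R) * (etk e.2.1 (Fin.ofNat 8 e.1) : R) = 1 := by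
      rw [← Int.cast_mul, etk_sq, Int.cast_one]
    have h4 : ((etk e.2.2.2.1 (Fin.ofNat 8 e.2.2.1) : ℤ) : R) * (etk e.2.2.2.1 (Fin.ofNat 8 e.2.2.1) : R) = 1 := by
      rw [← Int.cast_mul, etk_sq, Int.cast_one]
    push_cast
    linear_combination (-(((eps (ea e).1 (eb e).1 : ℤ) : R)) * ((etk e.2.2.2.1 (Fin.ofNat 8 e.2.2.1) : ℤ) : R) *
      (etk e.2.2.2.1 (Fin.ofNat 8 e.2.2.1) : R)) * h3 - ((eps (ea e).1 (eb e).1 : ℤ) : R) * h4
  rw [h2, ea, eb]
  unfold X
  ring

/-- Bracket formula. -/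
theorem X_lie {z w : Chev R} (hz : z.h = 0) (hw : w.h = 0) (p : Fin 8) (r : ℕ) : X ⁅z, w⁆ p r =
    ((tab.getD p []).map fun e => (sgn e : R) * X z (Fin.ofNat 8 e.1) (e.2.1 + r) *
      X w (Fin.ofNat 8 e.2.2.1) (e.2.2.2.1 + r)).sum := by
  -- reduce to `r < 30`
  wlog hr : r < 30 generalizing r with H
  · have h1 := H (r % 30) (Nat.mod_lt _ (by norm_num))
    rw [X_mod] at h1
    rw [h1]
    congr 1
    refine List.map_congr_left fun e _ => ?_
    rw [← X_mod z _ (e.2.1 + r), ← X_mod z _ (e.2.1 + r % 30), ← X_mod w _ (e.2.2.2.1 + r), ← X_mod w _ (e.2.2.2.1 + r % 30),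
      Nat.add_mod_mod, Nat.add_mod_mod]
  have h0 := X_lie_zero (nn_iter_h (30 - r) hz) (nn_iter_h (30 - r) hw) p
  rw [← nn_iter_lie] at h0
  have h1 : ∀ (u : Chev R) (j : Fin 8) (i : ℕ), X (nn^[30 - r] u) j i = X u j (i + r) := by
    intro u j i
    have h2 := X_nn_iter (30 - r) u j (i + r)
    rw [show i + r + (30 - r) = i + 30 by omega, X_thirty] at h2
    exact h2
  rw [h1, zero_add] at h0
  rw [h0]
  congr 1
  refine List.map_congr_left fun e _ => ?_
  rw [h1, h1]

theorem X_cm {S : Type*} [CommRing S] (f : R →+* S) (z : Chev R) (j : Fin 8) (i : ℕ) : X (cm f z) j i = f (X z j i) := by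
  unfold X
  rw [map_mul, map_intCast]
  rfl

theorem bf_X {z w : Chev R} (hz : z.h = 0) : Chev.bf z w = -∑ i ∈ Finset.range 30, ∑ j : Fin 8, X z j i * X w j (i + 15) := by
  unfold Chev.bf
  rw [hz, sum_rt]
  simp only [Pi.zero_apply, zero_mul, Finset.sum_const_zero, zero_sub]
  congr 1
  refine Finset.sum_congr rfl fun i _ => Finset.sum_congr rfl fun j _ => ?_
  rw [← rt_fifteen, x_eq, x_eq, etk_fifteen]
  have h : ((etk i j : ℤ) : R) * (etk i j : R) = 1 := by
    rw [← Int.cast_mul, etk_sq, Int.cast_one]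
  linear_combination X z j i * X w j (i + 15) * h

/-- The element with given orbit coordinates (periodic modulo 30). -/
noncomputable def ofX (x : Fin 8 → ℕ → R) : Chev R :=
  ⟨0, fun a => ∑ i ∈ Finset.range 30, ∑ j : Fin 8, if rt i j = a then (etk i j : R) * x j i else 0⟩

theorem ofX_h (x : Fin 8 → ℕ → R) : (ofX x).h = 0 := rfl

theorem X_ofX (x : Fin 8 → ℕ → R) (j : Fin 8) {i : ℕ} (hi : i < 30) : X (ofX x) j i = x j i := by
  have h1 : (ofX x).x (rt i j) = (etk i j : R) * x j i := by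
    change ∑ i' ∈ Finset.range 30, ∑ j' : Fin 8, (if rt i' j' = rt i j then (etk i' j' : R) * x j' i' else 0) = _
    rw [Finset.sum_eq_single i, Finset.sum_eq_single j, if_pos rfl]
    · intro j' _ hj
      rw [if_neg]
      intro h
      exact hj (rt_inj hi hi h).2
    · intro h
      exact absurd (Finset.mem_univ _) h
    · intro i' hi' hne
      refine Finset.sum_eq_zero fun j' _ => if_neg fun h => hne (rt_inj (Finset.mem_range.1 hi') hi h).1
    · intro h
      exact absurd (Finset.mem_range.2 hi) h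
  unfold X
  rw [h1, ← mul_assoc, ← Int.cast_mul, etk_sq, Int.cast_one, one_mul]

theorem X_ofX_mod (x : Fin 8 → ℕ → R) (j : Fin 8) (i : ℕ) : X (ofX x) j i = x j (i % 30) := by
  rw [← X_mod, X_ofX x j (Nat.mod_lt _ (by norm_num))]

/-- Fixed vectors of `nn ∘ s`. -/
theorem Fx_X {s : R →+* R} {y : Chev R} (h : Fx s y) (j : Fin 8) (i : ℕ) : X y j (i + 1) = s (X y j i) := by
  unfold X
  rw [rt_succ, h.2, etk_succ, map_mul, map_intCast]
  have h2 : (((et (rt i j).1 : ℤˣ) : ℤ) : R) * (((et (rt i j).1 : ℤˣ) : ℤ) : R) = 1 := by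
    rw [← Int.cast_mul, ← Units.val_mul, ← sq, Int.units_sq]
    simp
  push_cast
  linear_combination (etk i j : R) * s (y.x (rt i j)) * h2

theorem Fx_of_X {s : R →+* R} {y : Chev R} (h0 : y.h = 0) (h : ∀ j, ∀ i, X y j (i + 1) = s (X y j i)) : Fx s y := by
  refine ⟨fun j => ?_, fun a => ?_⟩
  · rw [h0]
    simp
  · obtain ⟨i, _, j, rfl⟩ := rt_surj a
    have h1 := h j i
    unfold X at h1
    rw [map_mul, map_intCast, etk_succ] at h1
    rw [← rt_succ]
    have h2 : (((et (rt i j).1 : ℤˣ) : ℤ) : R) * (((et (rt i j).1 : ℤˣ) : ℤ) : R) = 1 := by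
      rw [← Int.cast_mul, ← Units.val_mul, ← sq, Int.units_sq]
      simp
    have h3 : ((etk i j : ℤ) : R) * (etk i j : R) = 1 := by
      rw [← Int.cast_mul, etk_sq, Int.cast_one]
    push_cast at h1
    linear_combination (etk i j : R) * (((et (rt i j).1 : ℤˣ) : ℤ) : R) * h1 -
      y.x (rt (i + 1) j) * ((etk i j : R) * (etk i j : R) * h2 + h3) +
      (((et (rt i j).1 : ℤˣ) : ℤ) : R) * s (y.x (rt i j)) * h3

end Pool.Agent.Helper73.E8.Xc
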