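import Pool.Agent.Helper73.E8.Xc.Kil

/-!
# The Killing form of `E5`: explicit matrix
-/

set_option autoImplicit false

namespace Pool.Agent.Helper73.E8.Xc

open Pool.Agent.Helper73.E8 Pool.Agent.Helper64.E8C

variable {R : Type*} [CommRing R]

/-- The list `kl`, encoded. -/
def kcT : List ℕ :=
  [1, 48, 1, 337, 0, 1, 1, 0, 1, 81, 1, 304, 19, 450, 19, 243, 19, 482, 19, 98, 19, 627, 19, 322, 37, 581, 37, 596, 37, 309, 37, 357, 164,
  37, 37, 548, 37, 485, 37, 437, 37, 212, 37, 453, 55, 87, 55, 566, 182, 55, 55, 87, 423, 55, 390, 55, 6, 55, 295, 55, 73, 232, 280, 73,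
  297, 73, 169, 73, 408, 73, 73, 360, 11, 91, 395, 91, 554, 91, 59, 91, 91, 235, 91, 619, 59, 91, 170, 91, 605, 109, 588, 109, 429, 109,
  28, 109, 284, 109, 301, 109, 460, 109, 221, 109, 127, 510, 159, 127, 543, 127, 382, 127, 1, 192, 1, 241, 1, 96, 1, 352, 1, 497, 1, 448,
  19, 291, 18, 19, 19, 306, 19, 178, 19, 18, 19, 163, 37, 53, 533, 37, 292, 37, 37, 420, 405, 37, 37, 53, 37, 116, 37, 372, 406, 55, 39,
  55, 55, 454, 55, 503, 55, 631, 55, 582, 39, 55, 534, 55, 73, 360, 73, 232, 520, 73, 73, 249, 184, 73, 312, 73, 73, 633, 264, 73, 91, 218,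
  602, 91, 91, 363, 91, 491, 460, 109, 477, 109, 12, 109, 396, 109, 349, 109, 588, 109, 207, 127, 527, 127, 191, 127, 319, 127, 271, 127,
  591, 127, 127, 510, 46, 127, 430, 127, 382, 127, 1, 320, 1, 465, 1, 560, 1, 480, 1, 417, 1, 545, 1, 608, 1, 432, 1, 593, 1, 320, 19, 115,
  19, 115, 19, 306, 530, 19, 19, 419, 19, 35, 19, 146, 19, 178, 133, 37, 21, 37, 37, 372, 37, 581, 36, 37, 37, 36, 37, 453, 37, 116, 277,
  37, 261, 37, 55, 566, 534, 55, 262, 55, 134, 55, 406, 55, 182, 55, 392, 73, 297, 73, 169, 73, 392, 73, 91, 235, 139, 91, 267, 91, 91,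
  619, 221, 109, 109, 381, 109, 492, 140, 109, 268, 109, 364, 109, 109, 125, 605, 109, 111, 127, 46, 127, 430, 127, 495, 127, 31, 127, 31,
  127, 1, 161, 256, 1, 1, 384, 1, 161, 1, 81, 1, 560, 1, 432, 1, 337, 146, 19, 19, 291, 19, 578, 19, 371, 19, 499, 19, 194, 19, 163, 19,
  530, 37, 437, 405, 37, 517, 37, 517, 37, 533, 37, 37, 309, 55, 614, 54, 55, 55, 70, 423, 55, 262, 55, 134, 55, 295, 55, 55, 326, 55, 54,
  55, 230, 73, 89, 73, 473, 536, 73, 73, 616, 73, 249, 440, 73, 56, 73, 73, 633, 73, 616, 152, 73, 331, 91, 91, 474, 346, 91, 75, 91, 11,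
  91, 395, 91, 204, 109, 572, 109, 188, 109, 204, 109, 591, 127, 415, 127, 287, 127, 207, 127, 1, 96, 1, 528, 1, 417, 1, 545, 1, 16, 1,
  352, 2, 19, 19, 499, 19, 434, 19, 50, 19, 371, 130, 19, 19, 482, 19, 98, 133, 37, 548, 37, 37, 164, 261, 37, 22, 55, 55, 230, 55, 503,
  55, 310, 438, 55, 55, 631, 55, 614, 278, 55, 55, 599, 55, 215, 72, 73, 73, 505, 73, 345, 73, 217, 73, 377, 73, 72, 91, 250, 91, 250, 571,
  91, 587, 91, 91, 474, 346, 91, 459, 91, 187, 91, 28, 109, 284, 109, 396, 109, 188, 109, 572, 109, 12, 109, 191, 127, 319, 127, 287, 127,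
  463, 127, 606, 127, 606, 127, 335, 127, 415, 127, 1, 33, 1, 304, 1, 480, 1, 608, 1, 48, 1, 289, 384, 1, 1, 256, 19, 610, 19, 610, 19,
  211, 19, 339, 37, 485, 389, 37, 5, 37, 37, 357, 390, 55, 6, 55, 55, 198, 55, 215, 55, 599, 55, 198, 568, 73, 73, 584, 73, 89, 73, 473,
  200, 73, 568, 73, 73, 505, 73, 377, 187, 91, 90, 91, 331, 91, 91, 363, 539, 91, 411, 91, 91, 491, 75, 91, 91, 90, 571, 91, 140, 109, 268,
  109, 301, 109, 349, 109, 109, 509, 156, 109, 156, 109, 109, 637, 477, 109, 429, 109, 254, 127, 367, 127, 335, 127, 463, 127, 239, 127,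
  127, 638, 1, 593, 1, 448, 1, 33, 1, 528, 1, 16, 1, 289, 1, 192, 1, 465, 19, 322, 19, 211, 130, 19, 2, 19, 19, 339, 19, 450, 37, 212, 37,
  244, 37, 229, 5, 37, 389, 37, 37, 613, 37, 244, 37, 596, 55, 70, 55, 310, 438, 55, 55, 326, 264, 73, 440, 73, 56, 73, 520, 73, 408, 73,
  280, 73, 554, 91, 91, 218, 91, 634, 539, 91, 411, 91, 91, 506, 602, 91, 170, 91, 139, 91, 267, 91, 173, 109, 108, 109, 109, 381, 109,
  125, 109, 108, 557, 109, 558, 127, 111, 127, 495, 127, 558, 127, 350, 127, 638, 127, 127, 254, 222, 127, 1, 497, 1, 272, 1, 272, 1, 241,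
  19, 243, 19, 419, 19, 35, 19, 627, 19, 194, 386, 19, 19, 50, 19, 434, 386, 19, 19, 578, 277, 37, 21, 37, 37, 613, 420, 37, 37, 292, 37,
  229, 55, 582, 22, 55, 278, 55, 55, 454, 536, 73, 73, 584, 73, 345, 73, 217, 200, 73, 152, 73, 184, 73, 312, 73, 91, 506, 91, 107, 587,
  91, 459, 91, 91, 107, 91, 634, 93, 109, 109, 637, 109, 509, 93, 109, 557, 109, 109, 492, 364, 109, 173, 109, 367, 127, 126, 127, 527,
  127, 350, 127, 159, 127, 543, 127, 222, 127, 271, 127, 127, 126, 239, 127]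

/-- Decoding. -/
def dc (n : ℕ) : ℤ × ℕ × ℕ × ℕ := (if n % 2 = 0 then 1 else -1, n / 2 % 8, n / 16 % 8, n / 128)

/-- The list `kl`, written out. -/
def klT : List (ℤ × ℕ × ℕ × ℕ) := kcT.map dc

theorem kl_eq : kl = klT := by decide +kernel

/-- The coefficients of the Killing form. -/
def qT : List (List (List ℤ)) :=
  [[[-54, 0, 2, 2, 0], [2, 0, 2, 0, 2], [-2, -2, -2, -2, -2], [2, 0, 2, 2, 2], [0, 2, 2, 2, 0], [-2, 0, -2, -2, -2], [2, 0, 2, 2, 2], [0,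
  -2, 0, -2, 0]], [[2, 2, 0, 2, 0], [-54, 2, 0, 0, 2], [-2, -2, -2, -2, 0], [2, 2, 2, 2, 0], [0, 2, 2, 2, 2], [0, -2, -2, 0, 0], [2, 0, 0,
  2, 2], [-2, -2, -2, -2, -2]], [[-2, -2, -2, -2, -2], [-2, 0, -2, -2, -2], [-54, 2, 2, 2, 2], [-2, 0, -2, -2, 0], [0, 0, 0, -2, -2], [0,
  2, 0, 0, 2], [0, -2, -2, -2, -2], [2, 2, 2, 0, 0]], [[2, 2, 2, 2, 0], [2, 0, 2, 2, 2], [-2, 0, -2, -2, 0], [-54, 2, 2, 2, 2], [2, 2, 2,
  2, 2], [-2, -2, 0, 0, -2], [0, 2, 0, 0, 2], [0, 0, 0, -2, -2]], [[0, 0, 2, 2, 2], [0, 2, 2, 2, 2], [0, -2, -2, 0, 0], [2, 2, 2, 2, 2],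
  [-54, 2, 0, 0, 2], [-2, -2, -2, -2, 0], [0, 2, 2, 0, 2], [0, -2, -2, -2, -2]], [[-2, -2, -2, -2, 0], [0, 0, 0, -2, -2], [0, 2, 0, 0, 2],
  [-2, -2, 0, 0, -2], [-2, 0, -2, -2, -2], [-54, 2, 2, 2, 2], [-2, -2, -2, -2, -2], [0, 2, 0, 2, 2]], [[2, 2, 2, 2, 0], [2, 2, 2, 0, 0],
  [0, -2, -2, -2, -2], [0, 2, 0, 0, 2], [0, 2, 0, 2, 2], [-2, -2, -2, -2, -2], [-54, 0, 2, 2, 0], [-2, 0, -2, -2, -2]], [[0, 0, -2, 0, -2],
  [-2, -2, -2, -2, -2], [2, 0, 0, 2, 2], [0, -2, -2, 0, 0], [0, -2, -2, -2, -2], [0, 2, 2, 0, 2], [-2, -2, -2, -2, 0], [-54, 2, 2, 2, 2]]]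

/-- The coefficients of the Killing form. -/
def q (i j d : ℕ) : ℤ := ((qT.getD i []).getD j []).getD d 0

/-- The entries with given first index, encoded. -/
def kcI : List (List ℕ) :=
  [[1, 30, 1, 55, 0, 1, 1, 0, 1, 51, 1, 34, 1, 42, 1, 73, 1, 60, 1, 64, 1, 77, 1, 46, 1, 44, 1, 57, 1, 38, 1, 66, 1, 27, 1, 29, 1, 68, 1,
  36, 1, 59, 1, 44, 1, 23, 4, 1, 1, 6, 1, 23, 1, 51, 1, 38, 1, 36, 1, 55, 1, 60, 1, 18, 1, 27, 1, 29, 1, 10, 1, 64, 1, 21, 1, 34, 1, 66, 1,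
  68, 1, 30, 1, 25, 6, 1, 1, 4, 1, 59, 1, 46, 1, 21, 1, 18, 1, 10, 1, 25, 1, 42, 1, 57, 1, 77, 1, 14, 1, 14, 1, 73],
    [11, 46, 11, 73, 11, 66, 11, 60, 11, 79, 11, 44, 11, 25, 10, 11, 11, 34, 11, 32, 11, 10, 11, 23, 11, 71, 11, 71, 11, 34, 18, 11, 11,
  27, 11, 21, 11, 12, 11, 32, 12, 11, 11, 25, 11, 48, 11, 75, 11, 77, 11, 42, 11, 23, 11, 18, 0, 11, 11, 77, 11, 36, 11, 30, 11, 75, 2, 11,
  11, 66, 11, 60, 11, 68, 11, 68, 11, 53, 11, 55, 11, 44, 11, 53, 2, 11, 0, 11, 11, 55, 11, 46, 11, 73, 11, 27, 11, 21, 11, 79, 11, 42, 6,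
  11, 11, 30, 11, 36, 6, 11, 11, 48],
    [21, 49, 21, 58, 21, 35, 21, 65, 22, 21, 21, 28, 21, 67, 21, 37, 21, 52, 21, 47, 21, 31, 19, 21, 24, 21, 21, 26, 17, 21, 21, 31, 21,
  70, 21, 74, 3, 21, 11, 21, 21, 74, 21, 49, 20, 21, 21, 20, 21, 47, 21, 70, 15, 21, 5, 21, 21, 37, 17, 21, 9, 21, 9, 21, 19, 21, 21, 35,
  3, 21, 28, 21, 21, 22, 5, 21, 21, 67, 7, 21, 1, 21, 21, 65, 21, 52, 21, 72, 21, 63, 1, 21, 7, 21, 21, 69, 21, 72, 21, 58, 15, 21, 11, 21,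
  21, 69, 26, 21, 21, 24, 21, 63],
    [31, 51, 31, 38, 32, 31, 31, 51, 27, 31, 6, 31, 0, 31, 25, 31, 16, 31, 21, 31, 31, 46, 31, 77, 31, 79, 31, 48, 21, 31, 18, 31, 31, 38,
  18, 31, 4, 31, 2, 31, 16, 31, 32, 31, 31, 68, 30, 31, 31, 40, 27, 31, 4, 31, 2, 31, 25, 31, 31, 44, 31, 30, 31, 62, 10, 31, 31, 62, 31,
  77, 31, 34, 36, 31, 31, 79, 31, 68, 14, 31, 31, 59, 31, 53, 6, 31, 0, 31, 31, 42, 31, 53, 31, 59, 31, 42, 31, 40, 31, 34, 36, 31, 31, 44,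
  31, 48, 10, 31, 14, 31, 31, 46],
    [41, 62, 14, 41, 25, 41, 23, 41, 16, 41, 41, 64, 41, 64, 41, 62, 8, 41, 41, 73, 32, 41, 34, 41, 41, 79, 4, 41, 6, 41, 25, 41, 23, 41,
  6, 41, 41, 51, 41, 57, 18, 41, 41, 68, 41, 73, 36, 41, 30, 41, 41, 79, 41, 68, 12, 41, 40, 41, 41, 77, 41, 55, 41, 53, 41, 75, 41, 40,
  38, 41, 41, 48, 41, 51, 41, 57, 42, 41, 38, 41, 41, 77, 41, 75, 4, 41, 36, 41, 30, 41, 8, 41, 16, 41, 14, 41, 18, 41, 41, 48, 41, 55, 41,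
  53, 42, 41, 12, 41, 32, 41, 34, 41],
    [1, 51, 7, 51, 28, 51, 31, 51, 51, 63, 51, 69, 31, 51, 22, 51, 51, 52, 58, 51, 51, 65, 51, 67, 51, 63, 3, 51, 5, 51, 51, 69, 45, 51,
  51, 56, 54, 51, 41, 51, 1, 51, 7, 51, 51, 72, 51, 72, 39, 51, 49, 51, 51, 56, 54, 51, 47, 51, 33, 51, 33, 51, 50, 51, 45, 51, 51, 65, 19,
  51, 17, 51, 51, 67, 41, 51, 51, 50, 39, 51, 28, 51, 51, 52, 51, 78, 19, 51, 17, 51, 51, 76, 58, 51, 22, 51, 3, 51, 5, 51, 51, 76, 51, 61,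
  49, 51, 47, 51, 51, 61, 51, 78],
    [59, 61, 48, 61, 27, 61, 10, 61, 14, 61, 25, 61, 46, 61, 53, 61, 46, 61, 57, 61, 0, 61, 6, 61, 55, 61, 48, 61, 53, 61, 61, 75, 61, 66,
  2, 61, 4, 61, 64, 61, 61, 71, 59, 61, 42, 61, 38, 61, 32, 61, 42, 61, 10, 61, 14, 61, 6, 61, 32, 61, 38, 61, 0, 61, 2, 61, 4, 61, 25, 61,
  55, 61, 61, 77, 12, 61, 12, 61, 61, 79, 57, 61, 27, 61, 23, 61, 60, 61, 61, 75, 61, 71, 61, 60, 29, 61, 51, 61, 61, 79, 61, 77, 51, 61,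
  29, 61, 61, 66, 64, 61, 23, 61],
    [71, 76, 13, 71, 19, 71, 74, 71, 43, 71, 9, 71, 33, 71, 35, 71, 5, 71, 49, 71, 71, 76, 20, 71, 26, 71, 74, 71, 61, 71, 20, 71, 26, 71,
  67, 71, 11, 71, 11, 71, 49, 71, 17, 71, 15, 71, 43, 71, 33, 71, 35, 71, 15, 71, 47, 71, 58, 71, 58, 71, 45, 71, 17, 71, 72, 71, 65, 71,
  45, 71, 47, 71, 63, 71, 71, 78, 28, 71, 61, 71, 67, 71, 28, 71, 54, 71, 78, 71, 71, 72, 52, 71, 65, 71, 70, 71, 9, 71, 54, 71, 13, 71,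
  19, 71, 52, 71, 5, 71, 71, 70, 63, 71]]

/-- Decoding. -/
def dI (n : ℕ) : ℤ × ℕ := (if n % 2 = 0 then 1 else -1, n / 2)

theorem klI_eq : ∀ i : Fin 8, ((klT.filter fun c => c.2.1 == (i : ℕ)).map fun c => (c.1, 5 * c.2.2.1 + c.2.2.2)) =
    (kcI.getD i []).map dI := by
  decide +kernel

/-- Sum of the signs of the entries with given indices. -/
def ks (i k : ℕ) : ℤ := (kcI.getD i []).foldl (fun s c => if c / 2 == k then (if c % 2 = 0 then s + 1 else s - 1) else s) 0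

theorem ks_eq : ∀ i j : Fin 8, ∀ d : Fin 5, ks i (5 * j + d) = q i j d := by decide +kernel

theorem klT_lt : (klT.all fun c => decide (c.2.1 < 8) && decide (c.2.2.1 < 8) && decide (c.2.2.2 < 5)) = true := by
  decide +kernel

theorem ks_sum (i j d : Fin 8) (hd : (d : ℕ) < 5) : ks i (5 * j + d) =
    (klT.map fun c => if c.2.1 == (i : ℕ) && c.2.2.1 == (j : ℕ) && c.2.2.2 == (d : ℕ) then c.1 else 0).sum := by
  have h : ∀ (k : ℕ) (l : List ℕ) (s : ℤ), l.foldl (fun s c => if c / 2 == k then (if c % 2 = 0 then s + 1 else s - 1) else s) s =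
      s + ((l.map dI).map fun c => if c.2 == k then c.1 else 0).sum := by
    intro k l
    induction l with
    | nil => intro s; simp
    | cons a l ih =>
      intro s
      rw [List.foldl_cons, ih, List.map_cons, List.map_cons, List.sum_cons]
      have h1 : (dI a).1 = if a % 2 = 0 then 1 else -1 := rfl
      have h2 : (dI a).2 = a / 2 := rfl
      rw [h1, h2]
      split_ifs <;> ring
  rw [ks, h, zero_add, ← klI_eq, List.map_map, sum_filter']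
  congr 1
  refine List.map_congr_left fun c hc => ?_
  have h2 := List.all_eq_true.1 klT_lt c hc
  simp only [Bool.and_eq_true, decide_eq_true_eq] at h2
  obtain ⟨⟨h3, h4⟩, h5⟩ := h2
  simp only [Function.comp_apply]
  by_cases h6 : c.2.1 = (i : ℕ)
  · by_cases h7 : c.2.2.1 = (j : ℕ) ∧ c.2.2.2 = (d : ℕ)
    · simp [h6, h7.1, h7.2]
    · have h8 : ¬ (5 * c.2.2.1 + c.2.2.2 = 5 * (j : ℕ) + d) := by omega
      have h9 : ¬ (c.2.2.1 = (j : ℕ) ∧ c.2.2.2 = (d : ℕ)) := h7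
      simp [h6, h8]
      intro h10 h11
      exact absurd ⟨h10, h11⟩ h9
  · simp [h6]

/-- The Killing form in coordinates. -/
theorem killing_q (x y : E5 R) : killingForm R (E5 R) x y =
    ∑ i : Fin 8, ∑ j : Fin 8, ∑ d : Fin 5, (q i j d : R) * Pr (crd R x) (crd R y) i j d := by
  rw [killing_kl, kl_eq]
  have hlt := List.all_eq_true.1 klT_lt
  have h1 : ∀ l : List (ℤ × ℕ × ℕ × ℕ), (∀ c ∈ l, c.2.1 < 8 ∧ c.2.2.1 < 8 ∧ c.2.2.2 < 5) →
      (l.map fun c => (c.1 : R) * Pr (crd R x) (crd R y) (Fin.ofNat 8 c.2.1) (Fin.ofNat 8 c.2.2.1) (Fin.ofNat 5 c.2.2.2)).sum =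
      ∑ i : Fin 8, ∑ j : Fin 8, ∑ d : Fin 5, (((l.map fun c => if c.2.1 == (i : ℕ) && c.2.2.1 == (j : ℕ) && c.2.2.2 == (d : ℕ)
        then c.1 else 0).sum : ℤ) : R) * Pr (crd R x) (crd R y) i j d := by
    intro l
    induction l with
    | nil => intro _; simp
    | cons a l ih =>
      intro h
      obtain ⟨ha1, ha2, ha3⟩ := h a List.mem_cons_self
      rw [List.map_cons, List.sum_cons, ih fun c hc => h c (List.mem_cons_of_mem _ hc)]
      simp only [List.map_cons, List.sum_cons, Int.cast_add, add_mul, Finset.sum_add_distrib]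
      congr 1
      rw [Finset.sum_eq_single (Fin.ofNat 8 a.2.1), Finset.sum_eq_single (Fin.ofNat 8 a.2.2.1),
        Finset.sum_eq_single (Fin.ofNat 5 a.2.2.2)]
      · rw [if_pos]
        rw [Fin.val_ofNat, Fin.val_ofNat, Fin.val_ofNat, Nat.mod_eq_of_lt ha1, Nat.mod_eq_of_lt ha2, Nat.mod_eq_of_lt ha3]
        simp
      · intro d _ hd
        rw [if_neg, Int.cast_zero, zero_mul]
        intro hc
        simp only [Bool.and_eq_true, beq_iff_eq] at hc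
        exact hd (Fin.ext (by rw [Fin.val_ofNat, Nat.mod_eq_of_lt ha3, hc.2]))
      · intro hh
        exact absurd (Finset.mem_univ _) hh
      · intro d _ hd
        refine Finset.sum_eq_zero fun d' _ => ?_
        rw [if_neg, Int.cast_zero, zero_mul]
        intro hc
        simp only [Bool.and_eq_true, beq_iff_eq] at hc
        exact hd (Fin.ext (by rw [Fin.val_ofNat, Nat.mod_eq_of_lt ha2, hc.1.2]))
      · intro hh
        exact absurd (Finset.mem_univ _) hh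
      · intro d _ hd
        refine Finset.sum_eq_zero fun d' _ => Finset.sum_eq_zero fun d'' _ => ?_
        rw [if_neg, Int.cast_zero, zero_mul]
        intro hc
        simp only [Bool.and_eq_true, beq_iff_eq] at hc
        exact hd (Fin.ext (by rw [Fin.val_ofNat, Nat.mod_eq_of_lt ha1, hc.1.1]))
      · intro hh
        exact absurd (Finset.mem_univ _) hh
  rw [h1 klT fun c hc => by
    have h2 := hlt c hc
    simp only [Bool.and_eq_true, decide_eq_true_eq] at h2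
    exact ⟨h2.1.1, h2.1.2, h2.2⟩]
  refine Finset.sum_congr rfl fun i _ => Finset.sum_congr rfl fun j _ => Finset.sum_congr rfl fun d _ => ?_
  rw [← ks_eq, ks_sum i j ⟨d, by omega⟩ d.2]

/-- The operator of the Killing form with respect to the form `∑ x y`. -/
def kp (y : Ix → R) : Ix → R := fun p => ∑ j : Fin 8, ∑ d : Fin 5, (q p.1 j d : R) * y (j, p.2 + d)

theorem killing_kp (x y : E5 R) : killingForm R (E5 R) x y = ∑ p : Ix, crd R x p * kp (crd R y) p := by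
  rw [killing_q, Fintype.sum_prod_type]
  refine Finset.sum_congr rfl fun i _ => ?_
  have h1 : ∀ k : Fin 5, crd R x (i, k) * kp (crd R y) (i, k) =
      ∑ j : Fin 8, ∑ d : Fin 5, (q i j d : R) * (crd R x (i, k) * crd R y (j, k + d)) := by
    intro k
    unfold kp
    rw [Finset.mul_sum]
    refine Finset.sum_congr rfl fun j _ => ?_
    rw [Finset.mul_sum]
    refine Finset.sum_congr rfl fun d _ => ?_
    ring
  simp only [h1]
  symm
  rw [Finset.sum_comm]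
  refine Finset.sum_congr rfl fun j _ => ?_
  rw [Finset.sum_comm]
  refine Finset.sum_congr rfl fun d _ => ?_
  rw [← Finset.mul_sum]
  rfl

end Pool.Agent.Helper73.E8.Xc
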