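import Pool.Agent.Helper73.E8.Xc.Kil3
import Pool.Agent.Helper73.E8.Xc.Kq

/-!
# The Killing form of `E3`: explicit matrix
-/

set_option autoImplicit false

namespace Pool.Agent.Helper73.E8.Xc

open Pool.Agent.Helper73.E8 Pool.Agent.Helper64.E8C

variable {R : Type*} [CommRing R]

/-- The list `kl3`, encoded. -/
def kcT3 : List ℕ :=
  [1, 160, 0, 1, 305, 304, 1, 337, 1, 337, 1, 0, 304, 305, 1, 288, 19, 290, 67, 82, 19, 114, 19, 146, 274, 19, 19, 114, 19, 34, 195, 82,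
  37, 180, 196, 357, 148, 37, 196, 213, 37, 85, 132, 37, 37, 229, 37, 357, 260, 37, 37, 213, 20, 37, 196, 85, 37, 52, 196, 229, 54, 55, 38,
  55, 199, 230, 294, 55, 71, 230, 55, 54, 134, 135, 55, 54, 55, 310, 230, 103, 182, 55, 359, 230, 135, 134, 54, 55, 73, 121, 281, 296, 73,
  344, 296, 57, 73, 232, 296, 313, 73, 104, 25, 296, 73, 88, 73, 377, 299, 91, 43, 91, 26, 299, 74, 91, 139, 91, 91, 346, 218, 91, 139, 91,
  26, 43, 202, 91, 301, 316, 76, 109, 364, 109, 61, 316, 236, 109, 301, 109, 173, 109, 316, 189, 109, 364, 109, 236, 173, 316, 332, 109,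
  79, 127, 30, 127, 30, 127, 207, 127, 1, 81, 1, 288, 64, 368, 1, 177, 353, 368, 1, 49, 225, 368, 1, 160, 320, 368, 1, 209, 19, 370, 19,
  50, 19, 18, 163, 162, 18, 19, 162, 163, 19, 50, 19, 242, 36, 37, 164, 37, 324, 197, 260, 37, 197, 245, 132, 37, 197, 117, 37, 292, 197,
  68, 37, 36, 276, 277, 36, 37, 277, 276, 37, 36, 55, 374, 22, 55, 182, 55, 263, 55, 231, 246, 7, 55, 231, 374, 55, 310, 22, 55, 55, 246,
  73, 377, 73, 121, 200, 73, 297, 168, 73, 328, 136, 297, 73, 121, 8, 297, 73, 377, 40, 297, 200, 73, 73, 328, 11, 91, 267, 91, 91, 234,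
  91, 234, 236, 109, 348, 109, 269, 317, 109, 252, 141, 317, 109, 124, 348, 109, 109, 364, 158, 127, 142, 303, 79, 127, 142, 318, 110, 127,
  142, 190, 366, 127, 142, 47, 207, 127, 286, 127, 79, 127, 190, 127, 318, 127, 207, 127, 1, 32, 193, 369, 128, 1, 112, 369, 1, 256, 1,
  225, 1, 32, 1, 32, 1, 353, 128, 1, 1, 256, 369, 240, 1, 32, 193, 369, 18, 19, 19, 18, 19, 18, 162, 163, 19, 178, 19, 274, 146, 19, 19,
  306, 18, 19, 163, 162, 4, 37, 37, 229, 277, 276, 36, 37, 37, 180, 196, 357, 4, 37, 196, 372, 4, 37, 196, 372, 37, 52, 196, 229, 276, 277,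
  37, 36, 37, 357, 4, 37, 38, 55, 199, 230, 55, 246, 150, 55, 278, 55, 55, 374, 294, 55, 71, 230, 265, 296, 73, 249, 296, 57, 73, 232, 296,
  313, 73, 104, 265, 296, 73, 249, 91, 346, 91, 106, 91, 362, 218, 91, 173, 316, 332, 109, 92, 109, 301, 109, 269, 109, 141, 109, 173, 109,
  220, 109, 301, 316, 76, 109, 143, 14, 127, 382, 190, 127, 318, 127, 270, 143, 254, 127, 143, 174, 335, 127, 143, 174, 335, 127, 0, 1, 1,
  209, 1, 81, 1, 0, 0, 1, 304, 305, 1, 256, 128, 1, 1, 0, 305, 304, 19, 306, 19, 370, 19, 195, 19, 178, 83, 354, 19, 306, 83, 98, 19, 67,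
  19, 242, 19, 178, 37, 213, 292, 37, 197, 68, 37, 309, 197, 101, 37, 309, 197, 101, 37, 164, 324, 197, 37, 85, 150, 55, 214, 231, 167, 55,
  327, 231, 55, 327, 135, 134, 55, 54, 150, 55, 278, 55, 134, 135, 54, 55, 55, 327, 167, 55, 327, 231, 278, 55, 342, 231, 73, 328, 200, 73,
  281, 73, 297, 185, 73, 361, 168, 297, 73, 328, 185, 73, 185, 73, 297, 40, 200, 73, 297, 185, 73, 361, 25, 73, 267, 91, 27, 314, 91, 106,
  27, 186, 91, 362, 11, 91, 299, 91, 43, 91, 45, 317, 205, 109, 28, 317, 92, 109, 156, 317, 220, 109, 45, 317, 205, 109, 286, 127, 254,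
  127, 127, 382, 158, 127, 1, 177, 353, 368, 1, 256, 1, 32, 1, 32, 128, 1, 1, 49, 225, 368, 19, 178, 19, 306, 83, 98, 274, 19, 83, 338, 19,
  146, 210, 83, 19, 178, 83, 354, 19, 306, 19, 146, 274, 19, 4, 37, 37, 357, 37, 229, 4, 37, 55, 71, 278, 55, 342, 231, 263, 55, 231, 246,
  150, 55, 278, 55, 7, 55, 231, 374, 150, 55, 214, 231, 55, 199, 55, 246, 55, 374, 73, 249, 73, 72, 217, 216, 313, 73, 57, 73, 72, 73, 216,
  217, 73, 249, 90, 91, 91, 90, 330, 331, 90, 91, 282, 27, 91, 346, 27, 314, 91, 106, 27, 186, 91, 362, 27, 154, 218, 91, 331, 330, 91, 90,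
  301, 109, 173, 109, 141, 317, 109, 124, 156, 317, 220, 109, 28, 317, 92, 109, 269, 317, 109, 252, 142, 318, 110, 127, 142, 190, 366, 127,
  382, 127, 318, 127, 335, 127, 335, 127, 190, 127, 127, 254, 1, 16, 81, 369, 1, 288, 1, 225, 1, 353, 1, 160, 1, 144, 209, 369, 1, 81, 1,
  209, 19, 50, 82, 227, 19, 50, 82, 227, 2, 19, 82, 370, 258, 19, 82, 242, 260, 37, 292, 37, 37, 164, 132, 37, 55, 310, 103, 230, 182, 55,
  230, 359, 22, 55, 87, 230, 55, 374, 55, 246, 22, 55, 87, 230, 72, 73, 73, 121, 73, 328, 200, 73, 73, 377, 73, 72, 73, 72, 216, 217, 72,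
  73, 217, 216, 331, 330, 90, 91, 26, 59, 91, 234, 267, 91, 91, 234, 267, 26, 91, 251, 11, 26, 91, 379, 91, 234, 11, 91, 26, 59, 91, 234,
  330, 331, 91, 90, 269, 109, 141, 109, 316, 189, 364, 109, 348, 109, 364, 109, 285, 316, 348, 109, 285, 316, 348, 109, 109, 236, 348, 109,
  61, 316, 109, 236, 143, 286, 351, 127, 207, 127, 190, 127, 318, 127, 79, 127, 143, 158, 223, 127, 256, 1, 369, 240, 1, 209, 1, 16, 81,
  369, 1, 256, 128, 1, 1, 144, 209, 369, 1, 81, 1, 128, 112, 369, 19, 34, 195, 82, 2, 19, 82, 370, 19, 306, 19, 178, 258, 19, 82, 242, 19,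
  290, 67, 82, 20, 37, 196, 85, 37, 101, 37, 213, 164, 37, 37, 292, 37, 85, 37, 101, 148, 37, 196, 213, 55, 327, 150, 55, 278, 55, 55, 327,
  328, 73, 185, 73, 185, 73, 73, 200, 25, 296, 73, 88, 281, 296, 73, 344, 26, 299, 74, 91, 11, 91, 299, 91, 267, 26, 91, 251, 11, 26, 91,
  379, 43, 91, 267, 91, 26, 43, 202, 91, 91, 106, 91, 362, 108, 109, 380, 381, 45, 109, 92, 109, 220, 109, 45, 109, 109, 108, 381, 380,
  126, 127, 14, 143, 127, 382, 143, 270, 254, 127, 127, 126, 239, 238, 127, 126, 143, 158, 223, 127, 143, 286, 351, 127, 238, 239, 126,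
  127, 1, 160, 320, 368, 1, 273, 337, 368, 1, 273, 337, 368, 1, 288, 64, 368, 19, 114, 19, 274, 146, 19, 19, 114, 19, 67, 131, 19, 83, 114,
  146, 19, 210, 83, 19, 274, 83, 338, 131, 19, 83, 114, 19, 195, 37, 357, 37, 229, 37, 85, 132, 37, 197, 117, 260, 37, 197, 245, 37, 213,
  310, 55, 55, 71, 55, 199, 55, 182, 281, 73, 73, 121, 313, 73, 57, 73, 73, 377, 25, 73, 136, 297, 73, 121, 8, 297, 73, 377, 43, 91, 139,
  27, 91, 122, 27, 282, 91, 346, 154, 27, 218, 91, 139, 27, 91, 122, 299, 91, 108, 109, 236, 109, 109, 364, 109, 108, 108, 109, 381, 380,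
  301, 109, 173, 109, 109, 108, 380, 381, 207, 127, 142, 30, 94, 127, 142, 303, 79, 127, 238, 239, 127, 126, 30, 127, 30, 127, 239, 238,
  126, 127, 142, 47, 207, 127, 142, 30, 94, 127, 79, 127]

/-- The list `kl3`, written out. -/
def klT3 : List (ℤ × ℕ × ℕ × ℕ) := kcT3.map dc

theorem kl_eq3 : kl3 = klT3 := by decide +kernel

/-- The coefficients of the Killing form. -/
def qT3 : List (List (List ℤ)) :=
  [[[-50, 6, 6], [2, 2, -2], [6, 4, 4], [-2, -2, 0], [2, -2, 2], [-6, -6, -4], [0, -4, -4], [2, 2, 0]], [[2, -2, 2], [-50, 6, 6], [2, 0,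
  2], [4, 6, 6], [-4, -4, 0], [0, 2, 2], [2, -2, 2], [6, 4, 4]], [[6, 4, 4], [2, 2, 0], [-50, 4, 4], [2, 2, -2], [2, 0, 2], [-6, -6, 0],
  [-4, -6, -6], [-2, -2, 2]], [[-2, 0, -2], [4, 6, 6], [2, -2, 2], [-50, 4, 4], [-4, -4, -6], [-2, 2, 2], [-2, 0, -2], [0, 6, 6]], [[2, 2,
  -2], [-4, 0, -4], [2, 2, 0], [-4, -6, -4], [-50, 6, 6], [2, 0, 2], [2, 2, -2], [-6, -4, -6]], [[-6, -4, -6], [0, 2, 2], [-6, 0, -6], [-2,
  2, 2], [2, 2, 0], [-50, 4, 4], [4, 6, 4], [2, -2, -2]], [[0, -4, -4], [2, 2, -2], [-4, -6, -6], [-2, -2, 0], [2, -2, 2], [4, 4, 6], [-50,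
  6, 6], [2, 2, 0]], [[2, 0, 2], [6, 4, 4], [-2, 2, -2], [0, 6, 6], [-6, -6, -4], [2, -2, -2], [2, 0, 2], [-50, 4, 4]]]

/-- The coefficients of the Killing form. -/
def q3 (i j d : ℕ) : ℤ := ((qT3.getD i []).getD j []).getD d 0

/-- The entries with given first index, encoded. -/
def kcI3 : List (List ℕ) :=
  [[1, 14, 0, 1, 23, 22, 1, 35, 1, 35, 1, 0, 22, 23, 1, 16, 1, 31, 1, 16, 24, 46, 1, 21, 41, 46, 1, 19, 39, 46, 1, 14, 28, 46, 1, 33, 1,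
  12, 27, 47, 2, 1, 42, 47, 1, 4, 1, 39, 1, 12, 1, 12, 1, 41, 2, 1, 1, 4, 47, 44, 1, 12, 27, 47, 0, 1, 1, 33, 1, 31, 1, 0, 0, 1, 22, 23, 1,
  4, 2, 1, 1, 0, 23, 22, 1, 21, 41, 46, 1, 4, 1, 12, 1, 12, 2, 1, 1, 19, 39, 46, 1, 6, 31, 47, 1, 16, 1, 39, 1, 41, 1, 14, 1, 8, 33, 47, 1,
  31, 1, 33, 4, 1, 47, 44, 1, 33, 1, 6, 31, 47, 1, 4, 2, 1, 1, 8, 33, 47, 1, 31, 1, 2, 42, 47, 1, 14, 28, 46, 1, 11, 35, 46, 1, 11, 35, 46,
  1, 16, 24, 46],
    [7, 16, 25, 30, 7, 42, 7, 8, 10, 7, 7, 42, 7, 12, 27, 30, 7, 46, 7, 18, 7, 6, 15, 14, 6, 7, 14, 15, 7, 18, 7, 44, 6, 7, 7, 6, 7, 6, 14,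
  15, 7, 20, 7, 10, 8, 7, 7, 22, 6, 7, 15, 14, 7, 22, 7, 46, 7, 27, 7, 20, 31, 40, 7, 22, 31, 36, 7, 25, 7, 44, 7, 20, 7, 20, 7, 22, 31,
  36, 10, 7, 31, 34, 7, 8, 32, 31, 7, 20, 31, 40, 7, 22, 7, 8, 10, 7, 7, 18, 30, 39, 7, 18, 30, 39, 0, 7, 30, 46, 4, 7, 30, 44, 7, 12, 27,
  30, 0, 7, 30, 46, 7, 22, 7, 20, 4, 7, 30, 44, 7, 16, 25, 30, 7, 42, 7, 10, 8, 7, 7, 42, 7, 25, 3, 7, 31, 42, 8, 7, 32, 31, 7, 10, 31, 34,
  3, 7, 31, 42, 7, 27],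
    [13, 20, 26, 41, 8, 13, 26, 33, 13, 31, 2, 13, 13, 39, 13, 41, 4, 13, 13, 33, 6, 13, 26, 31, 13, 18, 26, 39, 12, 13, 14, 13, 28, 27, 4,
  13, 27, 45, 2, 13, 27, 43, 13, 16, 27, 24, 13, 12, 10, 11, 12, 13, 11, 10, 13, 12, 0, 13, 13, 39, 11, 10, 12, 13, 13, 20, 26, 41, 0, 13,
  26, 46, 0, 13, 26, 46, 13, 18, 26, 39, 10, 11, 13, 12, 13, 41, 0, 13, 13, 33, 16, 13, 27, 24, 13, 23, 27, 37, 13, 23, 27, 37, 13, 14, 28,
  27, 13, 31, 0, 13, 13, 41, 13, 39, 0, 13, 4, 13, 16, 13, 13, 14, 2, 13, 6, 13, 26, 31, 13, 37, 13, 33, 14, 13, 13, 16, 13, 31, 13, 37, 8,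
  13, 26, 33, 13, 41, 13, 39, 13, 31, 2, 13, 27, 43, 4, 13, 27, 45, 13, 33],
    [18, 19, 12, 19, 27, 38, 16, 19, 25, 38, 19, 18, 2, 3, 19, 18, 19, 22, 38, 37, 20, 19, 41, 38, 3, 2, 18, 19, 19, 46, 6, 19, 20, 19, 5,
  19, 39, 44, 1, 19, 39, 46, 19, 22, 6, 19, 19, 44, 12, 19, 27, 38, 19, 44, 8, 19, 10, 19, 19, 46, 16, 19, 25, 38, 8, 19, 32, 39, 15, 19,
  29, 39, 19, 29, 3, 2, 19, 18, 8, 19, 10, 19, 2, 3, 18, 19, 19, 29, 15, 19, 29, 39, 10, 19, 34, 39, 19, 25, 10, 19, 34, 39, 5, 19, 39, 44,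
  8, 19, 10, 19, 1, 19, 39, 46, 8, 19, 32, 39, 19, 27, 19, 44, 19, 46, 19, 22, 37, 38, 20, 19, 38, 41, 6, 19, 31, 38, 19, 46, 19, 44, 6,
  19, 31, 38, 19, 29, 8, 19, 10, 19, 19, 29, 22, 19, 19, 25, 19, 27, 19, 20],
    [25, 43, 11, 16, 25, 34, 16, 19, 25, 38, 16, 23, 25, 36, 7, 16, 25, 30, 25, 47, 25, 47, 25, 43, 26, 25, 17, 14, 25, 28, 2, 17, 25, 43,
  0, 17, 25, 47, 12, 17, 26, 25, 25, 28, 5, 16, 25, 45, 16, 19, 25, 38, 16, 23, 25, 36, 5, 16, 25, 45, 25, 28, 26, 25, 11, 25, 17, 21, 25,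
  41, 14, 17, 25, 28, 21, 25, 21, 25, 17, 12, 26, 25, 17, 21, 25, 41, 7, 25, 25, 45, 25, 24, 33, 32, 23, 25, 19, 25, 24, 25, 32, 33, 25,
  45, 24, 25, 25, 43, 25, 28, 26, 25, 25, 47, 25, 24, 25, 24, 32, 33, 24, 25, 33, 32, 28, 25, 21, 25, 21, 25, 25, 26, 7, 16, 25, 30, 11,
  16, 25, 34, 11, 25, 25, 43, 23, 25, 19, 25, 25, 47, 7, 25, 2, 17, 25, 43, 0, 17, 25, 47],
    [17, 31, 13, 31, 6, 17, 24, 31, 3, 31, 31, 34, 32, 31, 3, 31, 6, 13, 26, 31, 1, 31, 5, 31, 31, 38, 31, 38, 31, 34, 31, 36, 31, 40, 32,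
  31, 5, 31, 7, 22, 31, 36, 7, 20, 31, 40, 1, 31, 17, 31, 13, 31, 30, 31, 31, 30, 28, 29, 30, 31, 10, 7, 31, 34, 7, 22, 31, 36, 7, 20, 31,
  40, 7, 8, 32, 31, 29, 28, 31, 30, 29, 28, 30, 31, 6, 19, 31, 38, 5, 31, 31, 38, 5, 6, 31, 45, 1, 6, 31, 47, 31, 38, 1, 31, 6, 19, 31, 38,
  28, 29, 31, 30, 6, 17, 24, 31, 1, 31, 17, 31, 5, 6, 31, 45, 1, 6, 31, 47, 13, 31, 5, 31, 6, 13, 26, 31, 31, 36, 31, 40, 13, 31, 3, 7, 31,
  42, 7, 10, 31, 34, 8, 7, 32, 31, 3, 7, 31, 42, 17, 31],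
    [17, 22, 24, 37, 40, 37, 19, 22, 38, 37, 17, 37, 15, 37, 22, 21, 37, 40, 37, 38, 15, 22, 28, 37, 38, 37, 34, 37, 5, 23, 37, 44, 3, 23,
  37, 42, 34, 37, 37, 40, 15, 22, 28, 37, 30, 37, 17, 37, 5, 37, 3, 37, 15, 37, 32, 37, 17, 22, 24, 37, 13, 23, 27, 37, 6, 23, 30, 37, 8,
  23, 32, 37, 13, 23, 27, 37, 17, 37, 15, 37, 3, 23, 37, 42, 8, 23, 32, 37, 6, 23, 30, 37, 5, 23, 37, 44, 5, 37, 3, 37, 22, 21, 40, 37, 34,
  37, 40, 37, 11, 22, 34, 37, 11, 22, 34, 37, 37, 38, 34, 37, 19, 22, 37, 38, 36, 37, 46, 47, 13, 37, 30, 37, 32, 37, 13, 37, 37, 36, 47,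
  46, 36, 37, 38, 37, 37, 40, 37, 36, 36, 37, 47, 46, 17, 37, 15, 37, 37, 36, 46, 47],
    [25, 43, 6, 43, 6, 43, 27, 43, 8, 43, 2, 17, 25, 43, 2, 22, 36, 43, 2, 20, 40, 43, 2, 13, 27, 43, 10, 43, 25, 43, 20, 43, 22, 43, 27,
  43, 3, 0, 43, 46, 20, 43, 22, 43, 4, 3, 44, 43, 3, 14, 29, 43, 3, 14, 29, 43, 10, 43, 44, 43, 43, 46, 8, 43, 2, 22, 36, 43, 2, 20, 40,
  43, 46, 43, 22, 43, 29, 43, 29, 43, 20, 43, 43, 44, 3, 10, 35, 43, 27, 43, 20, 43, 22, 43, 25, 43, 3, 8, 33, 43, 42, 43, 0, 3, 43, 46, 3,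
  4, 44, 43, 43, 42, 39, 38, 43, 42, 3, 8, 33, 43, 3, 10, 35, 43, 38, 39, 42, 43, 27, 43, 2, 6, 30, 43, 2, 17, 25, 43, 38, 39, 43, 42, 6,
  43, 6, 43, 39, 38, 42, 43, 2, 13, 27, 43, 2, 6, 30, 43, 25, 43]]

theorem klI_eq3 : ∀ i : Fin 8, ((klT3.filter fun c => c.2.1 == (i : ℕ)).map fun c => (c.1, 3 * c.2.2.1 + c.2.2.2)) =
    (kcI3.getD i []).map dI := by
  decide +kernel

/-- Sum of the signs of the entries with given indices. -/
def ks3 (i k : ℕ) : ℤ := (kcI3.getD i []).foldl (fun s c => if c / 2 == k then (if c % 2 = 0 then s + 1 else s - 1) else s) 0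

theorem ks_eq3 : ∀ i j : Fin 8, ∀ d : Fin 3, ks3 i (3 * j + d) = q3 i j d := by decide +kernel

theorem klT_lt3 : (klT3.all fun c => decide (c.2.1 < 8) && decide (c.2.2.1 < 8) && decide (c.2.2.2 < 3)) = true := by
  decide +kernel

theorem ks_sum3 (i j d : Fin 8) (hd : (d : ℕ) < 3) : ks3 i (3 * j + d) =
    (klT3.map fun c => if c.2.1 == (i : ℕ) && c.2.2.1 == (j : ℕ) && c.2.2.2 == (d : ℕ) then c.1 else 0).sum := by
  have h : ∀ (k : ℕ) (l : List ℕ) (s : ℤ), l.foldl (fun s c => if c / 2 == k then (if c % 2 = 0 then s + 1 else s - 1) else s) s =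
      s + ((l.map dI).map fun c => if c.2 == k then c.1 else 0).sum := by
    intro k l
    induction l with
    | nil => intro s; simp
    | cons a l ih =>
      intro s
      rw [List.foldl_cons, ih, List.map_cons, List.map_cons, List.sum_cons]
      have h1 : (dI a).1 = if a % 2 = 0 then 1 else -1 := rfl
      have h2 : (dI a).2 = a / 2 := rfl
      rw [h1, h2]
      split_ifs <;> ring
  rw [ks3, h, zero_add, ← klI_eq3, List.map_map, sum_filter']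
  congr 1
  refine List.map_congr_left fun c hc => ?_
  have h2 := List.all_eq_true.1 klT_lt3 c hc
  simp only [Bool.and_eq_true, decide_eq_true_eq] at h2
  obtain ⟨⟨h3, h4⟩, h5⟩ := h2
  simp only [Function.comp_apply]
  by_cases h6 : c.2.1 = (i : ℕ)
  · by_cases h7 : c.2.2.1 = (j : ℕ) ∧ c.2.2.2 = (d : ℕ)
    · simp [h6, h7.1, h7.2]
    · have h8 : ¬ (3 * c.2.2.1 + c.2.2.2 = 3 * (j : ℕ) + d) := by omega
      have h9 : ¬ (c.2.2.1 = (j : ℕ) ∧ c.2.2.2 = (d : ℕ)) := h7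
      simp [h6, h8]
      intro h10 h11
      exact absurd ⟨h10, h11⟩ h9
  · simp [h6]

/-- The Killing form in coordinates. -/
theorem killing_q3 (x y : E3 R) : killingForm R (E3 R) x y =
    ∑ i : Fin 8, ∑ j : Fin 8, ∑ d : Fin 3, (q3 i j d : R) * Pr3 (crd3 R x) (crd3 R y) i j d := by
  rw [killing_kl3, kl_eq3]
  have hlt := List.all_eq_true.1 klT_lt3
  have h1 : ∀ l : List (ℤ × ℕ × ℕ × ℕ), (∀ c ∈ l, c.2.1 < 8 ∧ c.2.2.1 < 8 ∧ c.2.2.2 < 3) →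
      (l.map fun c => (c.1 : R) * Pr3 (crd3 R x) (crd3 R y) (Fin.ofNat 8 c.2.1) (Fin.ofNat 8 c.2.2.1) (Fin.ofNat 3 c.2.2.2)).sum =
      ∑ i : Fin 8, ∑ j : Fin 8, ∑ d : Fin 3, (((l.map fun c => if c.2.1 == (i : ℕ) && c.2.2.1 == (j : ℕ) && c.2.2.2 == (d : ℕ)
        then c.1 else 0).sum : ℤ) : R) * Pr3 (crd3 R x) (crd3 R y) i j d := by
    intro l
    induction l with
    | nil => intro _; simp
    | cons a l ih =>
      intro h
      obtain ⟨ha1, ha2, ha3⟩ := h a List.mem_cons_self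
      rw [List.map_cons, List.sum_cons, ih fun c hc => h c (List.mem_cons_of_mem _ hc)]
      simp only [List.map_cons, List.sum_cons, Int.cast_add, add_mul, Finset.sum_add_distrib]
      congr 1
      rw [Finset.sum_eq_single (Fin.ofNat 8 a.2.1), Finset.sum_eq_single (Fin.ofNat 8 a.2.2.1),
        Finset.sum_eq_single (Fin.ofNat 3 a.2.2.2)]
      · rw [if_pos]
        rw [Fin.val_ofNat, Fin.val_ofNat, Fin.val_ofNat, Nat.mod_eq_of_lt ha1, Nat.mod_eq_of_lt ha2, Nat.mod_eq_of_lt ha3]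
        simp
      · intro d _ hd
        rw [if_neg, Int.cast_zero, zero_mul]
        intro hc
        simp only [Bool.and_eq_true, beq_iff_eq] at hc
        exact hd (Fin.ext (by rw [Fin.val_ofNat, Nat.mod_eq_of_lt ha3, hc.2]))
      · intro hh
        exact absurd (Finset.mem_univ _) hh
      · intro d _ hd
        refine Finset.sum_eq_zero fun d' _ => ?_
        rw [if_neg, Int.cast_zero, zero_mul]
        intro hc
        simp only [Bool.and_eq_true, beq_iff_eq] at hc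
        exact hd (Fin.ext (by rw [Fin.val_ofNat, Nat.mod_eq_of_lt ha2, hc.1.2]))
      · intro hh
        exact absurd (Finset.mem_univ _) hh
      · intro d _ hd
        refine Finset.sum_eq_zero fun d' _ => Finset.sum_eq_zero fun d'' _ => ?_
        rw [if_neg, Int.cast_zero, zero_mul]
        intro hc
        simp only [Bool.and_eq_true, beq_iff_eq] at hc
        exact hd (Fin.ext (by rw [Fin.val_ofNat, Nat.mod_eq_of_lt ha1, hc.1.1]))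
      · intro hh
        exact absurd (Finset.mem_univ _) hh
  rw [h1 klT3 fun c hc => by
    have h2 := hlt c hc
    simp only [Bool.and_eq_true, decide_eq_true_eq] at h2
    exact ⟨h2.1.1, h2.1.2, h2.2⟩]
  refine Finset.sum_congr rfl fun i _ => Finset.sum_congr rfl fun j _ => Finset.sum_congr rfl fun d _ => ?_
  rw [← ks_eq3, ks_sum3 i j ⟨d, by omega⟩ d.2]

/-- The operator of the Killing form with respect to the form `∑ x y`. -/
def kp3 (y : Ix3 → R) : Ix3 → R := fun p => ∑ j : Fin 8, ∑ d : Fin 3, (q3 p.1 j d : R) * y (j, p.2 + d)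

theorem killing_kp3 (x y : E3 R) : killingForm R (E3 R) x y = ∑ p : Ix3, crd3 R x p * kp3 (crd3 R y) p := by
  rw [killing_q3, Fintype.sum_prod_type]
  refine Finset.sum_congr rfl fun i _ => ?_
  have h1 : ∀ k : Fin 3, crd3 R x (i, k) * kp3 (crd3 R y) (i, k) =
      ∑ j : Fin 8, ∑ d : Fin 3, (q3 i j d : R) * (crd3 R x (i, k) * crd3 R y (j, k + d)) := by
    intro k
    unfold kp3
    rw [Finset.mul_sum]
    refine Finset.sum_congr rfl fun j _ => ?_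
    rw [Finset.mul_sum]
    refine Finset.sum_congr rfl fun d _ => ?_
    ring
  simp only [h1]
  symm
  rw [Finset.sum_comm]
  refine Finset.sum_congr rfl fun j _ => ?_
  rw [Finset.sum_comm]
  refine Finset.sum_congr rfl fun d _ => ?_
  rw [← Finset.mul_sum]
  rfl

end Pool.Agent.Helper73.E8.Xc
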