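import Mathlib

/-!
# Isometries in the coordinates of an orthogonal frame

`U` is a subgroup of a lattice `L` with symmetric form `B`, `v i` (`i : Fin N`) vectors of `U` with `B (v i) (v j) = m D ^ 2 δ_ij` which span `U ⊗ ℚ`. `phi`: the
coordinates with respect to `v i / D` for the form `B / m`.
-/

set_option autoImplicit false

open scoped Matrix

namespace Pool.Agent.Helper73.E8.Xc

variable {L : Type} [AddCommGroup L] [Module.Free ℤ L] {B : LinearMap.BilinForm ℤ L}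

/-- An orthogonal frame. -/
structure Onf (B : LinearMap.BilinForm ℤ L) (U : AddSubgroup L) (N : ℕ) (v : Fin N → L) (m D : ℤ) : Prop where
  symm : ∀ u w, B u w = B w u
  hm : m ≠ 0
  hD : D ≠ 0
  mem : ∀ i, v i ∈ U
  gram : ∀ i j, B (v i) (v j) = if i = j then m * D ^ 2 else 0
  repr : ∀ u ∈ U, ∑ i, B u (v i) • v i = (m * D ^ 2) • u
  int : ∀ u ∈ U, ∀ w ∈ U, m ∣ B u w

/-- The coordinates. -/
noncomputable def phi (B : LinearMap.BilinForm ℤ L) {N : ℕ} (v : Fin N → L) (m D : ℤ) : L →+ (Fin N → ℚ) where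
  toFun u := fun i => (B u (v i) : ℚ) / (m * D)
  map_zero' := by
    funext i
    simp
  map_add' u w := by
    funext i
    simp [add_div]

variable {U : AddSubgroup L} {N : ℕ} {v : Fin N → L} {m D : ℤ}

theorem phi_apply (u : L) (i : Fin N) : phi B v m D u i = (B u (v i) : ℚ) / (m * D) := rfl

namespace Onf

variable (h : Onf B U N v m D)
include h

theorem mQ : (m : ℚ) ≠ 0 := Int.cast_ne_zero.2 h.hm
theorem DQ : (D : ℚ) ≠ 0 := Int.cast_ne_zero.2 h.hD

theorem dot (u : L) (hu : u ∈ U) (w : L) : phi B v m D u ⬝ᵥ phi B v m D w = (B u w : ℚ) / m := by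
  have hm := h.mQ
  have hD := h.DQ
  have h1 := congrArg (fun z => B z w) (h.repr u hu)
  simp only [map_sum, map_smul, LinearMap.sum_apply, LinearMap.smul_apply, smul_eq_mul] at h1
  have h2 : ∑ i, (B u (v i) : ℚ) * (B w (v i) : ℚ) = m * D ^ 2 * B u w := by
    have h3 : ∑ i, B u (v i) * B w (v i) = m * D ^ 2 * B u w := by
      rw [← h1]
      exact Finset.sum_congr rfl fun i _ => by rw [h.symm w]
    exact_mod_cast h3
  unfold dotProduct
  simp only [phi_apply]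
  have h4 : ∀ i, (B u (v i) : ℚ) / (m * D) * ((B w (v i) : ℚ) / (m * D)) = (B u (v i) : ℚ) * (B w (v i) : ℚ) * (((m : ℚ) * (D : ℚ))⁻¹ * ((m : ℚ) * (D : ℚ))⁻¹) := by
    intro i
    field_simp
  simp only [h4]
  rw [← Finset.sum_mul, h2]
  field_simp

theorem phi_v (i : Fin N) : phi B v m D (v i) = (D : ℚ) • Pi.single i 1 := by
  have hm := h.mQ
  have hD := h.DQ
  funext j
  rw [phi_apply, h.gram, Pi.smul_apply, Pi.single_apply, smul_eq_mul]
  by_cases hij : i = j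
  · rw [if_pos hij, if_pos hij.symm]
    push_cast
    field_simp
  · rw [if_neg hij, if_neg (Ne.symm hij)]
    simp

theorem inj {u : L} (hu : u ∈ U) (h0 : phi B v m D u = 0) : u = 0 := by
  have hm := h.mQ
  have hD := h.DQ
  have h1 : ∀ i, B u (v i) = 0 := by
    intro i
    have h2 := congrFun h0 i
    rw [phi_apply, Pi.zero_apply, div_eq_zero_iff] at h2
    rcases h2 with h2 | h2
    · exact_mod_cast h2
    · exact absurd h2 (mul_ne_zero hm hD)
  have h3 := h.repr u hu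
  simp only [h1, zero_smul, Finset.sum_const_zero] at h3
  exact (smul_eq_zero.1 h3.symm).resolve_left (mul_ne_zero h.hm (pow_ne_zero 2 h.hD))

theorem inj' {u w : L} (hu : u ∈ U) (hw : w ∈ U) (h0 : phi B v m D u = phi B v m D w) : u = w := by
  rw [← sub_eq_zero]
  refine h.inj (U.sub_mem hu hw) ?_
  rw [map_sub, h0, sub_self]

theorem int' (u : Fin N → ℚ) (hu : u ∈ U.map (phi B v m D)) (w : Fin N → ℚ) (hw : w ∈ U.map (phi B v m D)) : ∃ k : ℤ, u ⬝ᵥ w = k := by
  obtain ⟨u, hu, rfl⟩ := hu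
  obtain ⟨w, hw, rfl⟩ := hw
  obtain ⟨k, hk⟩ := h.int u hu w hw
  refine ⟨k, ?_⟩
  rw [h.dot u hu w, hk, Int.cast_mul, mul_div_cancel_left₀ _ h.mQ]

end Onf

/-- The extension of `y` to the frame coordinates. -/
noncomputable def Yl (B : LinearMap.BilinForm ℤ L) (v : Fin N → L) (m D : ℤ) (y : L → L) : (Fin N → ℚ) →ₗ[ℚ] (Fin N → ℚ) :=
  Fintype.linearCombination ℚ fun i => (D : ℚ)⁻¹ • phi B v m D (y (v i))

theorem Yl_single (y : L → L) (i : Fin N) : Yl B v m D y (Pi.single i 1) = (D : ℚ)⁻¹ • phi B v m D (y (v i)) := by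
  unfold Yl
  rw [Fintype.linearCombination_apply_single, one_smul]

namespace Onf

variable (h : Onf B U N v m D) (y : L →+ L) (hyU : ∀ u ∈ U, y u ∈ U) (hyB : ∀ u w, B (y u) (y w) = B u w)
include h

theorem Y_phi {u : L} (hu : u ∈ U) : Yl B v m D y (phi B v m D u) = phi B v m D (y u) := by
  have hm := h.mQ
  have hD := h.DQ
  have h1 := congrArg (fun z => phi B v m D (y z)) (h.repr u hu)
  simp only [map_sum, map_zsmul] at h1
  have h2 : Yl B v m D y (phi B v m D u) = ∑ i, phi B v m D u i • ((D : ℚ)⁻¹ • phi B v m D (y (v i))) := rfl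
  rw [h2]
  have h3 : ∀ i, phi B v m D u i • ((D : ℚ)⁻¹ • phi B v m D (y (v i))) = ((m * D ^ 2 : ℚ))⁻¹ • (B u (v i) • phi B v m D (y (v i))) := by
    intro i
    rw [phi_apply, smul_smul, ← Int.cast_smul_eq_zsmul ℚ, smul_smul]
    congr 1
    field_simp
  simp only [h3]
  rw [← Finset.smul_sum, h1, ← Int.cast_smul_eq_zsmul ℚ, smul_smul]
  push_cast
  rw [inv_mul_cancel₀ (mul_ne_zero hm (pow_ne_zero 2 hD)), one_smul]

include hyU in
theorem YM (u : Fin N → ℚ) (hu : u ∈ U.map (phi B v m D)) : Yl B v m D y u ∈ U.map (phi B v m D) := by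
  obtain ⟨u, hu, rfl⟩ := hu
  rw [h.Y_phi y hu]
  exact ⟨y u, hyU u hu, rfl⟩

/-- Bilinear identities may be checked on the frame. -/
theorem bil_ext {S : Matrix (Fin N) (Fin N) ℚ} {T : Matrix (Fin N) (Fin N) ℚ} {Y : (Fin N → ℚ) →ₗ[ℚ] (Fin N → ℚ)}
    (h1 : ∀ i j, Y (Pi.single i 1) ⬝ᵥ (S *ᵥ Y (Pi.single j 1)) = (Pi.single i 1) ⬝ᵥ (T *ᵥ (Pi.single j 1))) (u w : Fin N → ℚ) :
    Y u ⬝ᵥ (S *ᵥ Y w) = u ⬝ᵥ (T *ᵥ w) := by
  have hu : ∀ u : Fin N → ℚ, u = ∑ i, u i • (Pi.single i 1 : Fin N → ℚ) := by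
    intro u
    funext j
    rw [Finset.sum_apply]
    simp [Pi.single_apply]
  rw [hu u, hu w]
  simp only [map_sum, map_smul, Matrix.mulVec_sum, Matrix.mulVec_smul, sum_dotProduct, dotProduct_sum, smul_dotProduct, dotProduct_smul, h1]

include hyU hyB in
theorem Yo (u w : Fin N → ℚ) : Yl B v m D y u ⬝ᵥ Yl B v m D y w = u ⬝ᵥ w := by
  have hm := h.mQ
  have hD := h.DQ
  have h1 := h.bil_ext (S := 1) (T := 1) (Y := Yl B v m D y) (fun i j => by
    rw [Matrix.one_mulVec, Matrix.one_mulVec, Yl_single, Yl_single, smul_dotProduct, dotProduct_smul,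
      h.dot _ (hyU _ (h.mem i)), hyB, h.gram, single_dotProduct, Pi.single_apply]
    by_cases hij : i = j
    · rw [if_pos hij, if_pos hij]
      push_cast
      simp only [smul_eq_mul]
      field_simp
    · rw [if_neg hij, if_neg hij]
      simp) u w
  rwa [Matrix.one_mulVec, Matrix.one_mulVec] at h1

/-- A second invariant form. -/
theorem kap_phi {K : Type} [Field K] [CharZero K] (κ : L →+ L →+ K) {c : ℚ} {S : Matrix (Fin N) (Fin N) ℚ}
    (hS : ∀ i j, κ (v i) (v j) = ((c * D ^ 2 * S i j : ℚ) : K)) {u w : L} (hu : u ∈ U) (hw : w ∈ U) :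
    κ u w = ((c * (phi B v m D u ⬝ᵥ (S *ᵥ phi B v m D w)) : ℚ) : K) := by
  have hm := h.mQ
  have hD := h.DQ
  have e1 := congrArg (fun z => κ z w) (h.repr u hu)
  have e2 : ∀ i, (m * D ^ 2) • κ (v i) w = ∑ j, B w (v j) • κ (v i) (v j) := by
    intro i
    have e3 := congrArg (fun z => κ (v i) z) (h.repr w hw)
    simp only [map_sum, map_zsmul] at e3
    exact e3.symm
  simp only [map_sum, map_zsmul, AddMonoidHom.finset_sum_apply, AddMonoidHom.zsmul_apply] at e1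
  have e4 : ((m * D ^ 2) * (m * D ^ 2)) • κ u w = ∑ i, ∑ j, (B u (v i) * B w (v j)) • κ (v i) (v j) := by
    rw [mul_smul, ← e1, Finset.smul_sum]
    refine Finset.sum_congr rfl fun i _ => ?_
    rw [smul_comm, e2, Finset.smul_sum]
    refine Finset.sum_congr rfl fun j _ => ?_
    rw [mul_smul]
  have e5 : ((m : ℚ) * D ^ 2) * (m * D ^ 2) * (c * (phi B v m D u ⬝ᵥ (S *ᵥ phi B v m D w))) =
      ∑ i, ∑ j, (B u (v i) : ℚ) * (B w (v j) : ℚ) * (c * D ^ 2 * S i j) := by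
    unfold Matrix.mulVec dotProduct
    simp only [phi_apply, Finset.mul_sum]
    refine Finset.sum_congr rfl fun i _ => Finset.sum_congr rfl fun j _ => ?_
    field_simp
  have e6 : ((((m : ℚ) * D ^ 2) * (m * D ^ 2) : ℚ) : K) ≠ 0 := by
    rw [Ne, Rat.cast_eq_zero]
    exact mul_ne_zero (mul_ne_zero hm (pow_ne_zero 2 hD)) (mul_ne_zero hm (pow_ne_zero 2 hD))
  apply mul_left_cancel₀ e6
  rw [← Rat.cast_mul, e5]
  simp only [hS] at e4
  rw [← Int.cast_smul_eq_zsmul K, smul_eq_mul] at e4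
  push_cast at e4 ⊢
  rw [e4]
  refine Finset.sum_congr rfl fun i _ => Finset.sum_congr rfl fun j _ => ?_
  rw [← Int.cast_smul_eq_zsmul K, smul_eq_mul]
  push_cast
  ring

include hyU in
theorem YS {K : Type} [Field K] [CharZero K] (κ : L →+ L →+ K) {c : ℚ} (hc : c ≠ 0) {S : Matrix (Fin N) (Fin N) ℚ}
    (hS : ∀ i j, κ (v i) (v j) = ((c * D ^ 2 * S i j : ℚ) : K)) (hκ : ∀ u ∈ U, ∀ w ∈ U, κ (y u) (y w) = κ u w) (u w : Fin N → ℚ) :
    Yl B v m D y u ⬝ᵥ (S *ᵥ Yl B v m D y w) = u ⬝ᵥ (S *ᵥ w) := by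
  have hm := h.mQ
  have hD := h.DQ
  refine h.bil_ext (fun i j => ?_) u w
  have h1 := h.kap_phi κ hS (hyU _ (h.mem i)) (hyU _ (h.mem j))
  rw [hκ _ (h.mem i) _ (h.mem j), hS, Rat.cast_inj, mul_assoc] at h1
  have h2 := mul_left_cancel₀ hc h1
  rw [Yl_single, Yl_single, smul_dotProduct, Matrix.mulVec_smul, dotProduct_smul, ← h2, single_dotProduct, Matrix.mulVec_single]
  simp only [smul_eq_mul, one_mul]
  have h3 : (MulOpposite.op (1 : ℚ) • S.col j) i = S i j := by simp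
  rw [h3]
  field_simp

include hyU in
/-- If `Y` permutes the frame up to sign, so does `y`. -/
theorem y_v {s : ℤ} {i j : Fin N} (hY : Yl B v m D y (Pi.single i 1) = (s : ℚ) • Pi.single j 1) : y (v i) = s • v j := by
  have hD := h.DQ
  refine h.inj' (hyU _ (h.mem i)) (U.zsmul_mem (h.mem j) s) ?_
  rw [map_zsmul, h.phi_v, ← h.Y_phi y (h.mem i), h.phi_v, map_smul, hY, ← Int.cast_smul_eq_zsmul ℚ, smul_comm]

/-- Two homomorphisms which agree on the frame agree on `U`. -/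
theorem ext (y' : L →+ L) (hy : ∀ i, y (v i) = y' (v i)) {u : L} (hu : u ∈ U) : y u = y' u := by
  have h1 := h.repr u hu
  have h2 : (m * D ^ 2) • y u = (m * D ^ 2) • y' u := by
    rw [← map_zsmul, ← map_zsmul, ← h1]
    simp only [map_sum, map_zsmul, hy]
  exact smul_right_injective L (mul_ne_zero h.hm (pow_ne_zero 2 h.hD)) h2

end Onf

end Pool.Agent.Helper73.E8.Xc
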