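import Pool.Agent.Helper58.E8Z.Base
import Pool.Agent.Helper73.E8.Xc.Onf

/-!
# Project E8Z, (E2): the bridge from `L ^ (t ^ k)` to a lattice in `ℚ ^ N` (generic part, `k = 3, 5`)

`fw i`, `i < N = 8 k`: coordinates of `D` times the vectors of an orthonormal frame of `L ^ (t ^ k) ⊗ ℚ` for the form `B / (30 / k)`.
`phi u`: the coordinates of `u` in the frame.
-/

set_option autoImplicit false

open scoped TensorProduct Matrix

namespace Pool.Agent.Helper73.E8.Xc

open Pool.Agent.Helper73.E8.Ez Pool.Agent.Helper64.E8C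

variable {L : Type} [LieRing L] [Module.Free ℤ L] [Module.Finite ℤ L] {B : LinearMap.BilinForm ℤ L}

/-! ### Coordinates -/

theorem sum_flat {M : Type*} [AddCommMonoid M] {k N : ℕ} (hk : 0 < k) (hN : N = 8 * k) (f : ℕ → ℕ → M) :
    ∑ j ∈ Finset.range 8, ∑ c ∈ Finset.range k, f j c = ∑ m : Fin N, f (m / k) (m % k) := by
  subst hN
  rw [Fin.sum_univ_eq_sum_range (fun m => f (m / k) (m % k)) (8 * k), ← Finset.sum_product']
  symm
  refine Finset.sum_bij' (fun m _ => (m / k, m % k)) (fun p _ => k * p.1 + p.2) ?_ ?_ ?_ ?_ ?_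
  · intro m hm
    rw [Finset.mem_range] at hm
    rw [Finset.mem_product, Finset.mem_range, Finset.mem_range]
    exact ⟨Nat.div_lt_of_lt_mul (by rwa [mul_comm] at hm), Nat.mod_lt _ hk⟩
  · intro p hp
    rw [Finset.mem_product, Finset.mem_range, Finset.mem_range] at hp
    rw [Finset.mem_range]
    nlinarith [hp.1, hp.2]
  · intro m _
    exact Nat.div_add_mod m k
  · intro p hp
    rw [Finset.mem_product, Finset.mem_range, Finset.mem_range] at hp
    refine Prod.ext ?_ ?_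
    · change (k * p.1 + p.2) / k = p.1
      rw [Nat.mul_add_div hk, Nat.div_eq_of_lt hp.2, add_zero]
    · change (k * p.1 + p.2) % k = p.2
      rw [Nat.mul_add_mod, Nat.mod_eq_of_lt hp.2]
  · intro m _
    rfl

theorem vec_congr (E : ℕ → ℕ → L) {k : ℕ} {a b : ℕ → ℕ → ℤ} (h : ∀ j < 8, ∀ c < k, a j c = b j c) : vec E k a = vec E k b := by
  unfold vec
  refine Finset.sum_congr rfl fun j hj => Finset.sum_congr rfl fun c hc => ?_
  rw [h j (Finset.mem_range.1 hj) c (Finset.mem_range.1 hc)]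

theorem vec_add (E : ℕ → ℕ → L) (k : ℕ) (a b : ℕ → ℕ → ℤ) : vec E k (fun j c => a j c + b j c) = vec E k a + vec E k b := by
  unfold vec
  simp only [add_smul, Finset.sum_add_distrib]

theorem vec_smul (E : ℕ → ℕ → L) (k : ℕ) (n : ℤ) (a : ℕ → ℕ → ℤ) : vec E k (fun j c => n * a j c) = n • vec E k a := by
  unfold vec
  simp only [mul_smul, Finset.smul_sum]

theorem vec_sum {ι : Type*} (E : ℕ → ℕ → L) (k : ℕ) (s : Finset ι) (n : ι → ℤ) (a : ι → ℕ → ℕ → ℤ) :
    vec E k (fun j c => ∑ i ∈ s, n i * a i j c) = ∑ i ∈ s, n i • vec E k (a i) := by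
  unfold vec
  simp only [Finset.sum_smul, mul_smul, Finset.smul_sum]
  have h : ∀ j, ∑ c ∈ Finset.range k, ∑ i ∈ s, n i • a i j c • E j c = ∑ i ∈ s, ∑ c ∈ Finset.range k, n i • a i j c • E j c :=
    fun j => Finset.sum_comm
  simp only [h]
  exact Finset.sum_comm

/-- The flat rational coordinates. -/
def av (k N : ℕ) (a : ℕ → ℕ → ℤ) : Fin N → ℚ := fun m => (a (m / k) (m % k) : ℚ)

/-- The Gram matrix. -/
def Gk (k N : ℕ) : Matrix (Fin N) (Fin N) ℚ := fun m m' =>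
  31 * (if m = m' then 1 else 0) - ((30 / k : ℕ) : ℚ) * (if (m : ℕ) / k = (m' : ℕ) / k then 1 else 0)

theorem fF_av {k N : ℕ} (hk : 0 < k) (hN : N = 8 * k) (a b : ℕ → ℕ → ℤ) :
    ((fF k a b : ℤ) : ℚ) = av k N a ⬝ᵥ (Gk k N *ᵥ av k N b) := by
  have h1 : ∀ m : Fin N, (Gk k N *ᵥ av k N b) m = 31 * av k N b m - ((30 / k : ℕ) : ℚ) *
      ∑ c ∈ Finset.range k, (b (m / k) c : ℚ) := by
    intro m
    unfold Gk Matrix.mulVec dotProduct
    simp only [sub_mul, Finset.sum_sub_distrib]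
    congr 1
    · rw [Finset.sum_eq_single m]
      · rw [if_pos rfl, mul_one]
      · intro m' _ hm
        rw [if_neg (Ne.symm hm)]
        ring
      · intro h
        exact absurd (Finset.mem_univ _) h
    · simp only [mul_assoc]
      rw [← Finset.mul_sum]
      congr 1
      have h2 := sum_flat (M := ℚ) hk hN (fun j c => if (m : ℕ) / k = j then (b j c : ℚ) else 0)
      have h3 : ∀ m' : Fin N, (if (m : ℕ) / k = (m' : ℕ) / k then (1 : ℚ) else 0) * av k N b m' =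
          if (m : ℕ) / k = (m' : ℕ) / k then (b ((m' : ℕ) / k) ((m' : ℕ) % k) : ℚ) else 0 := by
        intro m'
        unfold av
        split_ifs <;> simp
      simp only [h3]
      rw [← h2, Finset.sum_eq_single ((m : ℕ) / k)]
      · simp
      · intro j _ hj
        refine Finset.sum_eq_zero fun c _ => ?_
        rw [if_neg (Ne.symm hj)]
      · intro h
        exfalso
        apply h
        rw [Finset.mem_range]
        have h6 : (m : ℕ) < 8 * k := lt_of_lt_of_eq m.2 hN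
        exact Nat.div_lt_of_lt_mul (by rwa [mul_comm] at h6)
  unfold dotProduct
  simp only [h1]
  have h4 := sum_flat (M := ℚ) hk hN (fun j c => (a j c : ℚ) * (31 * (b j c : ℚ) - ((30 / k : ℕ) : ℚ) *
    ∑ c ∈ Finset.range k, (b j c : ℚ)))
  have h5 : ∀ m : Fin N, av k N a m * (31 * av k N b m - ((30 / k : ℕ) : ℚ) * ∑ c ∈ Finset.range k, (b ((m : ℕ) / k) c : ℚ)) =
      (a ((m : ℕ) / k) ((m : ℕ) % k) : ℚ) * (31 * (b ((m : ℕ) / k) ((m : ℕ) % k) : ℚ) - ((30 / k : ℕ) : ℚ) *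
        ∑ c ∈ Finset.range k, (b ((m : ℕ) / k) c : ℚ)) := fun m => rfl
  simp only [h5]
  rw [← h4]
  unfold fF
  generalize 30 / k = w
  push_cast
  refine Finset.sum_congr rfl fun j _ => ?_
  simp only [mul_sub, Finset.sum_sub_distrib, Finset.mul_sum, Finset.sum_mul]
  congr 1
  · refine Finset.sum_congr rfl fun c _ => ?_
    ring
  · rw [Finset.sum_comm]
    refine Finset.sum_congr rfl fun c _ => Finset.sum_congr rfl fun c' _ => ?_
    ring

/-! ### The frame -/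

/-- `fw i`, `i < N`: `D` times the vectors of an orthonormal frame. -/
structure Frm (k N : ℕ) (fw : ℕ → ℕ → ℕ → ℤ) (D : ℤ) : Prop where
  hk : 0 < k
  hN : N = 8 * k
  hD : D ≠ 0
  gram : ∀ i < N, ∀ j < N, fF k (fw i) (fw j) = if i = j then D ^ 2 else 0

theorem av_apply {k N : ℕ} (hk : 0 < k) (a : ℕ → ℕ → ℤ) {j c : ℕ} (hc : c < k) (h : k * j + c < N) :
    av k N a ⟨k * j + c, h⟩ = a j c := by
  unfold av
  simp only
  rw [Nat.mul_add_div hk, Nat.div_eq_of_lt hc, add_zero, Nat.mul_add_mod, Nat.mod_eq_of_lt hc]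

theorem Frm.repr {k N : ℕ} {fw : ℕ → ℕ → ℕ → ℤ} {D : ℤ} (h : Frm k N fw D) (a : ℕ → ℕ → ℤ) {j c : ℕ} (hj : j < 8) (hc : c < k) :
    ∑ i : Fin N, fF k a (fw i) * fw i j c = D ^ 2 * a j c := by
  have hD : (D : ℚ) ≠ 0 := Int.cast_ne_zero.2 h.hD
  let A : Matrix (Fin N) (Fin N) ℚ := fun i m => av k N (fw i) m
  let H : Matrix (Fin N) (Fin N) ℚ := fun m i => (Gk k N *ᵥ av k N (fw i)) m
  have h1 : A * H = ((D : ℚ) ^ 2) • (1 : Matrix (Fin N) (Fin N) ℚ) := by
    ext i i'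
    rw [Matrix.mul_apply, Matrix.smul_apply, Matrix.one_apply]
    have h2 := fF_av h.hk h.hN (fw i) (fw i')
    rw [h.gram i i.2 i' i'.2] at h2
    change av k N (fw i) ⬝ᵥ (Gk k N *ᵥ av k N (fw i')) = _
    rw [← h2]
    simp only [Fin.ext_iff]
    split_ifs <;> simp
  have h2 : ((((D : ℚ) ^ 2)⁻¹) • H) * A = 1 := by
    rw [mul_eq_one_comm]
    rw [Matrix.mul_smul, h1, smul_smul, inv_mul_cancel₀ (pow_ne_zero 2 hD), one_smul]
  have h3 : H * A = ((D : ℚ) ^ 2) • (1 : Matrix (Fin N) (Fin N) ℚ) := by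
    rw [← h2, Matrix.smul_mul, smul_smul, mul_inv_cancel₀ (pow_ne_zero 2 hD), one_smul]
  have hlt : k * j + c < N := by
    rw [h.hN]
    nlinarith
  have h4 : ∑ i : Fin N, ((fF k a (fw i) : ℤ) : ℚ) * (fw i j c : ℚ) = ∑ m : Fin N, av k N a m * (H * A) m ⟨k * j + c, hlt⟩ := by
    simp only [Matrix.mul_apply, Finset.mul_sum]
    rw [Finset.sum_comm]
    refine Finset.sum_congr rfl fun i _ => ?_
    have h5 : A i ⟨k * j + c, hlt⟩ = (fw i j c : ℚ) := av_apply h.hk (fw i) hc hlt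
    rw [fF_av h.hk h.hN, dotProduct, Finset.sum_mul]
    refine Finset.sum_congr rfl fun m _ => ?_
    rw [h5, mul_assoc]
  rw [h3] at h4
  have h6 : ∑ m : Fin N, av k N a m * (((D : ℚ) ^ 2) • (1 : Matrix (Fin N) (Fin N) ℚ)) m ⟨k * j + c, hlt⟩ = (D : ℚ) ^ 2 * a j c := by
    rw [Finset.sum_eq_single ⟨k * j + c, hlt⟩]
    · rw [Matrix.smul_apply, Matrix.one_apply_eq, av_apply h.hk a hc hlt, smul_eq_mul]
      ring
    · intro m _ hm
      rw [Matrix.smul_apply, Matrix.one_apply_ne hm]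
      simp
    · intro hh
      exact absurd (Finset.mem_univ _) hh
  rw [h6] at h4
  exact_mod_cast h4

/-- The fixed vectors of `g`. -/
def Ufix (g : AutL L) : AddSubgroup L where
  carrier := {x | g.1 x = x}
  add_mem' := by
    intro x y hx hy
    change g.1 (x + y) = x + y
    rw [map_add, hx, hy]
  zero_mem' := map_zero g.1
  neg_mem' := by
    intro x hx
    change g.1 (-x) = -x
    rw [map_neg, hx]

theorem mem_Ufix {g : AutL L} {x : L} : x ∈ Ufix g ↔ g.1 x = x := Iff.rfl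

theorem tf {n : ℤ} (hn : n ≠ 0) {x y : L} (h : n • x = n • y) : x = y := smul_right_injective L hn h

theorem onf (hL : IsLat L B) {t : AutL L} {k N : ℕ} (hk : k = 3 ∨ k = 5) (F : LF B t k) {fw : ℕ → ℕ → ℕ → ℤ} {D : ℤ}
    (h : Frm k N fw D) : Onf B (Ufix (t ^ k)) N (fun i => vec F.E k (fw i)) ((30 / k : ℕ) : ℤ) D where
  symm := hL.symm
  hm := by rcases hk with rfl | rfl <;> norm_num
  hD := h.hD
  mem i := F.fix (fw i)
  gram i j := by
    rw [F.form, h.gram i i.2 j j.2]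
    simp only [Fin.ext_iff]
    split_ifs <;> simp
  repr u hu := by
    obtain ⟨n, a, ha⟩ := F.span u hu
    have h31 : (31 : ℤ) ^ n ≠ 0 := by positivity
    refine tf h31 ?_
    have h1 : ∀ i : Fin N, (31 : ℤ) ^ n • (B u (vec F.E k (fw i)) • vec F.E k (fw i)) =
        (((30 / k : ℕ) : ℤ) * fF k a (fw i)) • vec F.E k (fw i) := by
      intro i
      rw [smul_smul, ← F.form, ← ha, map_smul, LinearMap.smul_apply, smul_eq_mul]
    rw [Finset.smul_sum, Finset.sum_congr rfl fun i _ => h1 i, ← vec_sum, smul_comm, ha, ← vec_smul]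
    refine vec_congr _ fun j hj c hc => ?_
    have h2 := h.repr a hj hc
    simp only [mul_assoc, ← Finset.mul_sum]
    rw [h2]
  int u hu w hw := by
    obtain ⟨n, a, ha⟩ := F.span u hu
    obtain ⟨n', b, hb⟩ := F.span w hw
    have h1 : (31 : ℤ) ^ (n + n') * B u w = ((30 / k : ℕ) : ℤ) * fF k a b := by
      rw [← F.form, ← ha, ← hb, map_smul, map_smul, LinearMap.smul_apply, smul_eq_mul, smul_eq_mul, pow_add]
      ring
    have h2 : ((30 / k : ℕ) : ℤ) ∣ (31 : ℤ) ^ (n + n') * B u w := ⟨_, h1⟩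
    refine (IsCoprime.dvd_of_dvd_mul_left ?_ h2)
    refine IsCoprime.pow_right ?_
    rcases hk with rfl | rfl
    · exact ⟨-3, 1, by norm_num⟩
    · exact ⟨-5, 1, by norm_num⟩

/-- Explicit vectors are in the lattice. -/
theorem mem_M (hL : IsLat L B) {t : AutL L} {k N : ℕ} (hk : k = 3 ∨ k = 5) (F : LF B t k) {fw : ℕ → ℕ → ℕ → ℤ} {D : ℤ}
    (h : Frm k N fw D) {l : List (List ℤ)} (hl : chkMem (ex30 k l) = true) {w : Fin N → ℚ}
    (hw : ∀ i : Fin N, ((fF k (lf l) (fw i) : ℤ) : ℚ) = 31 * D * w i) :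
    w ∈ (Ufix (t ^ k)).map (phi B (fun i : Fin N => vec F.E k (fw i)) ((30 / k : ℕ) : ℤ) D) := by
  obtain ⟨u, hu⟩ := F.mem l hl
  refine ⟨u, ?_, ?_⟩
  · change (t ^ k).1 u = u
    refine tf (n := 31) (by norm_num) ?_
    rw [← map_zsmul, hu, F.fix]
  · funext i
    rw [phi_apply]
    have h1 : 31 * B u (vec F.E k (fw i)) = ((30 / k : ℕ) : ℤ) * fF k (lf l) (fw i) := by
      rw [← F.form, ← hu, map_smul, LinearMap.smul_apply, smul_eq_mul]
    have h2 : (31 : ℚ) * (B u (vec F.E k (fw i)) : ℚ) = ((30 / k : ℕ) : ℤ) * (31 * D * w i) := by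
      rw [← hw i]
      exact_mod_cast h1
    have hm : (((30 / k : ℕ) : ℤ) : ℚ) ≠ 0 := by rcases hk with rfl | rfl <;> norm_num
    have hD : (D : ℚ) ≠ 0 := Int.cast_ne_zero.2 h.hD
    rw [div_eq_iff (mul_ne_zero hm hD)]
    linear_combination h2 / 31

end Pool.Agent.Helper73.E8.Xc
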