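import Pool.Agent.Helper73.E8.Xc.Hat3
import Pool.Agent.Helper73.E8.Xc.Br

/-!
# Project E8Z, (E2): the Killing forms in the integral coordinates
-/

set_option autoImplicit false

open scoped TensorProduct Matrix

namespace Pool.Agent.Helper73.E8.Xc

open Pool.Agent.Helper73.E8 Pool.Agent.Helper64.E8C Pool.Agent.Helper73.E8.Ez
open Pool.Agent.Helper2.E8A (K ζ σ)

variable {L : Type} [LieRing L] [Module.Free ℤ L] [Module.Finite ℤ L] {B : LinearMap.BilinForm ℤ L} (C : Core L B)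

theorem kf5_add_left (z z' w : Chev K) : kf5 (z + z') w = kf5 z w + kf5 z' w := by
  unfold kf5
  simp only [X_add, add_mul, Finset.sum_add_distrib, mul_add]

theorem kf5_add_right (z w w' : Chev K) : kf5 z (w + w') = kf5 z w + kf5 z w' := by
  unfold kf5
  simp only [X_add, Finset.sum_add_distrib, mul_add]

theorem kf3_add_left (z z' w : Chev K) : kf3 (z + z') w = kf3 z w + kf3 z' w := by
  unfold kf3
  simp only [X_add, add_mul, Finset.sum_add_distrib, mul_add]

theorem kf3_add_right (z w w' : Chev K) : kf3 z (w + w') = kf3 z w + kf3 z w' := by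
  unfold kf3
  simp only [X_add, Finset.sum_add_distrib, mul_add]

/-- The Killing form of `V ^ (t ^ 5)` as a biadditive map. -/
noncomputable def kap5 : L →+ L →+ K :=
  AddMonoidHom.mk' (fun u => AddMonoidHom.mk' (fun w => kf5 (C.co u) (C.co w)) (by
    intro w w'
    rw [C.co_add, kf5_add_right])) (by
    intro u u'
    ext w
    change kf5 (C.co (u + u')) (C.co w) = kf5 (C.co u) (C.co w) + kf5 (C.co u') (C.co w)
    rw [C.co_add, kf5_add_left])

theorem kap5_apply (u w : L) : kap5 C u w = kf5 (C.co u) (C.co w) := rfl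

/-- The Killing form of `V ^ (t ^ 3)` as a biadditive map. -/
noncomputable def kap3 : L →+ L →+ K :=
  AddMonoidHom.mk' (fun u => AddMonoidHom.mk' (fun w => kf3 (C.co u) (C.co w)) (by
    intro w w'
    rw [C.co_add, kf3_add_right])) (by
    intro u u'
    ext w
    change kf3 (C.co (u + u')) (C.co w) = kf3 (C.co u) (C.co w) + kf3 (C.co u') (C.co w)
    rw [C.co_add, kf3_add_left])

theorem kap3_apply (u w : L) : kap3 C u w = kf3 (C.co u) (C.co w) := rfl

/-- The operator of the Killing form on coordinates; `q`: its coefficients. -/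
def kpF (k : ℕ) (q : ℕ → ℕ → ℕ → ℤ) (b : ℕ → ℕ → ℤ) (i c : ℕ) : ℤ :=
  ∑ j ∈ Finset.range 8, ∑ d ∈ Finset.range k, q i j d * b j ((c + (k - d)) % k)

theorem form5 (hη : C.η = et) {u w : L} (hu : (C.t ^ 5).1 u = u) (hw : (C.t ^ 5).1 w = w) :
    ((B u w : ℤ) : K) = 6 * ∑ p : Ix, X (C.co u) p.1 p.2 * X (C.co w) p.1 p.2 := by
  have h1 := bf_crd (R := K) ⟨C.co u, co_mem5 C hη hu⟩ ⟨C.co w, co_mem5 C hη hw⟩
  rw [C.bf]
  change -Chev.bf (C.co u) (C.co w) = _
  change Chev.bf (C.co u) (C.co w) = _ at h1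
  rw [h1, neg_neg]
  rfl

theorem form3 (hη : C.η = et) {u w : L} (hu : (C.t ^ 3).1 u = u) (hw : (C.t ^ 3).1 w = w) :
    ((B u w : ℤ) : K) = 10 * ∑ p : Ix3, X (C.co u) p.1 p.2 * X (C.co w) p.1 p.2 := by
  have h1 := bf_crd3 (R := K) ⟨C.co u, co_mem3 C hη hu⟩ ⟨C.co w, co_mem3 C hη hw⟩
  rw [C.bf]
  change -Chev.bf (C.co u) (C.co w) = _
  change Chev.bf (C.co u) (C.co w) = _ at h1
  rw [h1, neg_neg]
  rfl

theorem sum_shift {M : Type*} [AddCommMonoid M] {k : ℕ} (d : ℕ) (hd : d < k) (f : ℕ → ℕ → M) :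
    ∑ c ∈ Finset.range k, f c ((c + d) % k) = ∑ c ∈ Finset.range k, f ((c + (k - d)) % k) c := by
  have hk : 0 < k := by omega
  refine Finset.sum_bij' (fun c _ => (c + d) % k) (fun c _ => (c + (k - d)) % k) ?_ ?_ ?_ ?_ ?_
  · intro c _
    exact Finset.mem_range.2 (Nat.mod_lt _ hk)
  · intro c _
    exact Finset.mem_range.2 (Nat.mod_lt _ hk)
  · intro c hc
    rw [Finset.mem_range] at hc
    change ((c + d) % k + (k - d)) % k = c
    rw [Nat.mod_add_mod, show c + d + (k - d) = c + k by omega, Nat.add_mod_right, Nat.mod_eq_of_lt hc]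
  · intro c hc
    rw [Finset.mem_range] at hc
    change ((c + (k - d)) % k + d) % k = c
    rw [Nat.mod_add_mod, show c + (k - d) + d = c + k by omega, Nat.add_mod_right, Nat.mod_eq_of_lt hc]
  · intro c hc
    rw [Finset.mem_range] at hc
    change f c ((c + d) % k) = f (((c + d) % k + (k - d)) % k) ((c + d) % k)
    rw [Nat.mod_add_mod, show c + d + (k - d) = c + k by omega, Nat.add_mod_right, Nat.mod_eq_of_lt hc]

/-- Coordinates of the image under the operator of the Killing form. -/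
theorem kpF_per {k : ℕ} (hk : 0 < k) (hper : ∀ c, per k (c % k) = per k c) (q : ℕ → ℕ → ℕ → ℤ) (b : ℕ → ℕ → ℤ) (i r : ℕ) :
    ∑ j ∈ Finset.range 8, ∑ d ∈ Finset.range k, (q i j d : K) * ∑ c ∈ Finset.range k, (b j c : K) * per k (c + (r + d)) =
      ∑ c ∈ Finset.range k, (kpF k q b i c : K) * per k (c + r) := by
  have h1 : ∀ j, ∀ d ∈ Finset.range k, (q i j d : K) * ∑ c ∈ Finset.range k, (b j c : K) * per k (c + (r + d)) =
      ∑ c ∈ Finset.range k, (q i j d : K) * (b j ((c + (k - d)) % k) : K) * per k (c + r) := by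
    intro j d hd
    rw [Finset.mul_sum]
    have h2 := sum_shift (k := k) d (Finset.mem_range.1 hd) (fun c c' => (q i j d : K) * (b j c : K) * per k (c' + r))
    rw [← h2]
    refine Finset.sum_congr rfl fun c _ => ?_
    rw [mul_assoc]
    congr 2
    rw [← hper (c + (r + d)), ← hper ((c + d) % k + r), Nat.mod_add_mod]
    congr 2
    ring
  have h3 : ∀ c, (kpF k q b i c : K) * per k (c + r) =
      ∑ j ∈ Finset.range 8, ∑ d ∈ Finset.range k, (q i j d : K) * (b j ((c + (k - d)) % k) : K) * per k (c + r) := by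
    intro c
    unfold kpF
    push_cast
    simp only [Finset.sum_mul]
  calc _ = ∑ j ∈ Finset.range 8, ∑ d ∈ Finset.range k, ∑ c ∈ Finset.range k,
        (q i j d : K) * (b j ((c + (k - d)) % k) : K) * per k (c + r) :=
        Finset.sum_congr rfl fun j _ => Finset.sum_congr rfl (h1 j)
    _ = ∑ j ∈ Finset.range 8, ∑ c ∈ Finset.range k, ∑ d ∈ Finset.range k,
        (q i j d : K) * (b j ((c + (k - d)) % k) : K) * per k (c + r) :=
        Finset.sum_congr rfl fun j _ => Finset.sum_comm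
    _ = ∑ c ∈ Finset.range k, ∑ j ∈ Finset.range 8, ∑ d ∈ Finset.range k,
        (q i j d : K) * (b j ((c + (k - d)) % k) : K) * per k (c + r) := Finset.sum_comm
    _ = _ := Finset.sum_congr rfl fun c _ => (h3 c).symm

/-- The covector of the operator of the Killing form. -/
theorem fF_kp {k : ℕ} (q : ℕ → ℕ → ℕ → ℤ) (a b : ℕ → ℕ → ℤ) :
    fF k a (kpF k q b) = ∑ i ∈ Finset.range 8, ∑ c ∈ Finset.range k, a i c * ∑ j ∈ Finset.range 8, ∑ d ∈ Finset.range k,
      ∑ c' ∈ Finset.range k, q i j d * (if c % k = (c' + d) % k then 31 - ((30 / k : ℕ) : ℤ) else -((30 / k : ℕ) : ℤ)) * b j c' := by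
  unfold fF
  generalize ((30 / k : ℕ) : ℤ) = w
  refine Finset.sum_congr rfl fun i _ => ?_
  have h1 : ∀ j d, d < k → ∀ c, c < k → 31 * (q i j d * b j ((c + (k - d)) % k)) - w * ∑ c'' ∈ Finset.range k, q i j d * b j ((c'' + (k - d)) % k) =
      ∑ c' ∈ Finset.range k, q i j d * (if c % k = (c' + d) % k then 31 - w else -w) * b j c' := by
    intro j d hd c hc
    have h2 := sum_shift (k := k) d hd (fun c' c'' => (if c = c'' then 31 * q i j d else 0) * b j c')
    have h3 := sum_shift (k := k) d hd (fun c' _ => q i j d * b j c')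
    rw [Finset.sum_eq_single (f := fun c'' => (fun c' c'' => (if c = c'' then 31 * q i j d else 0) * b j c') ((c'' + (k - d)) % k) c'') c] at h2
    · simp only [if_true] at h2
      rw [← h3, ← mul_assoc, ← h2, Finset.mul_sum, ← Finset.sum_sub_distrib]
      refine Finset.sum_congr rfl fun c' _ => ?_
      rw [Nat.mod_eq_of_lt hc]
      split_ifs <;> ring
    · intro c'' _ hne
      simp only
      rw [if_neg (Ne.symm hne), zero_mul]
    · intro h
      exact absurd (Finset.mem_range.2 hc) h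
  have h4 : ∀ c ∈ Finset.range k, 31 * kpF k q b i c - w * ∑ c'' ∈ Finset.range k, kpF k q b i c'' = ∑ j ∈ Finset.range 8, ∑ d ∈ Finset.range k,
      ∑ c' ∈ Finset.range k, q i j d * (if c % k = (c' + d) % k then 31 - w else -w) * b j c' := by
    intro c hc
    unfold kpF
    have h5 : ∑ c'' ∈ Finset.range k, ∑ j ∈ Finset.range 8, ∑ d ∈ Finset.range k, q i j d * b j ((c'' + (k - d)) % k) =
        ∑ j ∈ Finset.range 8, ∑ d ∈ Finset.range k, ∑ c'' ∈ Finset.range k, q i j d * b j ((c'' + (k - d)) % k) := by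
      rw [Finset.sum_comm]
      exact Finset.sum_congr rfl fun j _ => Finset.sum_comm
    rw [h5, Finset.mul_sum, Finset.mul_sum, ← Finset.sum_sub_distrib]
    refine Finset.sum_congr rfl fun j _ => ?_
    rw [Finset.mul_sum, Finset.mul_sum, ← Finset.sum_sub_distrib]
    refine Finset.sum_congr rfl fun d hd => ?_
    exact h1 j d (Finset.mem_range.1 hd) c (Finset.mem_range.1 hc)
  rw [← Finset.sum_congr rfl fun c hc => congrArg (a i c * ·) (h4 c hc)]
  simp only [mul_sub, Finset.sum_sub_distrib]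
  congr 1
  · rw [Finset.mul_sum]
    refine Finset.sum_congr rfl fun c _ => ?_
    ring
  · rw [mul_comm w, mul_assoc, Finset.sum_mul]

/-- Rearrangement. -/
theorem kv_aux {k : ℕ} [NeZero k] (q : ℕ → ℕ → ℕ → ℤ) (xa xb xk : Fin 8 → ℕ → K)
    (hxk : ∀ (i : Fin 8) (c : Fin k), xk i c = ∑ j : Fin 8, ∑ d : Fin k, (q i j d : K) * xb j (c + d : Fin k)) :
    ∑ i : Fin 8, ∑ j : Fin 8, ∑ d : Fin k, (q i j d : K) * ∑ c : Fin k, xa i c * xb j (c + d : Fin k) =
      ∑ p : Fin 8 × Fin k, xa p.1 p.2 * xk p.1 p.2 := by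
  rw [Fintype.sum_prod_type]
  refine Finset.sum_congr rfl fun i _ => ?_
  have h5 : ∀ c : Fin k, xa i c * xk i c = ∑ j : Fin 8, ∑ d : Fin k, (q i j d : K) * (xa i c * xb j (c + d : Fin k)) := by
    intro c
    rw [hxk, Finset.mul_sum]
    refine Finset.sum_congr rfl fun j _ => ?_
    rw [Finset.mul_sum]
    refine Finset.sum_congr rfl fun d _ => ?_
    ring
  calc _ = ∑ j : Fin 8, ∑ d : Fin k, ∑ c : Fin k, (q i j d : K) * (xa i c * xb j (c + d : Fin k)) :=
        Finset.sum_congr rfl fun j _ => Finset.sum_congr rfl fun d _ => Finset.mul_sum _ _ _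
    _ = ∑ j : Fin 8, ∑ c : Fin k, ∑ d : Fin k, (q i j d : K) * (xa i c * xb j (c + d : Fin k)) :=
        Finset.sum_congr rfl fun j _ => Finset.sum_comm
    _ = ∑ c : Fin k, ∑ j : Fin 8, ∑ d : Fin k, (q i j d : K) * (xa i c * xb j (c + d : Fin k)) := Finset.sum_comm
    _ = _ := Finset.sum_congr rfl fun c _ => (h5 c).symm

/-- The operator on orbit coordinates. -/
theorem kpF_X {k : ℕ} [NeZero k] (hper : ∀ c, per k (c % k) = per k c) (q : ℕ → ℕ → ℕ → ℤ) (xb xk : Fin 8 → ℕ → K) (b : ℕ → ℕ → ℤ)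
    (hb : ∀ j i, xb j i = ∑ c ∈ Finset.range k, (b j c : K) * per k (c + i))
    (hk : ∀ j i, xk j i = ∑ c ∈ Finset.range k, (kpF k q b j c : K) * per k (c + i)) (i : Fin 8) (c : Fin k) :
    xk i c = ∑ j : Fin 8, ∑ d : Fin k, (q i j d : K) * xb j (c + d : Fin k) := by
  have hk0 : 0 < k := Nat.pos_of_ne_zero (NeZero.ne k)
  rw [hk, ← kpF_per (k := k) hk0 hper q b i c, Finset.sum_range]
  refine Finset.sum_congr rfl fun j _ => ?_
  rw [Finset.sum_range]
  refine Finset.sum_congr rfl fun d _ => ?_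
  rw [hb]
  congr 1
  refine Finset.sum_congr rfl fun e _ => ?_
  congr 1
  rw [← hper (e + ((c + d : Fin k) : ℕ)), ← hper (e + ((c : ℕ) + d)), Fin.val_add, Nat.add_mod_mod]

/-- The Killing form of `V ^ (t ^ 5)` in integral coordinates. -/
theorem kf5_vec (hη : C.η = et) (hper : ∀ c, per 5 (c % 5) = per 5 c) (F : LF B C.t 5)
    (hco : ∀ (a : ℕ → ℕ → ℤ) (j : Fin 8) (i : ℕ), X (C.co (vec F.E 5 a)) j i = ∑ c ∈ Finset.range 5, (a j c : K) * per 5 (c + i))
    (a b : ℕ → ℕ → ℤ) : kf5 (C.co (vec F.E 5 a)) (C.co (vec F.E 5 b)) = ((fF 5 a (kpF 5 q b) : ℤ) : K) := by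
  have h0 := kv_aux (k := 5) q (X (C.co (vec F.E 5 a))) (X (C.co (vec F.E 5 b))) (X (C.co (vec F.E 5 (kpF 5 q b))))
    (kpF_X hper q _ _ b (hco b) (hco (kpF 5 q b)))
  have h1 := form5 C hη (F.fix a) (F.fix (kpF 5 q b))
  rw [F.form] at h1
  have h0' : kf5 (C.co (vec F.E 5 a)) (C.co (vec F.E 5 b)) = ∑ p : Ix, X (C.co (vec F.E 5 a)) p.1 p.2 * X (C.co (vec F.E 5 (kpF 5 q b))) p.1 p.2 := h0
  rw [← h0'] at h1
  generalize kf5 (C.co (vec F.E 5 a)) (C.co (vec F.E 5 b)) = A at h1 ⊢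
  generalize fF 5 a (kpF 5 q b) = A' at h1 ⊢
  have h3 : (6 : K) ≠ 0 := by norm_num
  apply mul_left_cancel₀ h3
  rw [← h1]
  push_cast
  norm_num

/-- The Killing form of `V ^ (t ^ 3)` in integral coordinates. -/
theorem kf3_vec (hη : C.η = et) (hper : ∀ c, per 3 (c % 3) = per 3 c) (F : LF B C.t 3)
    (hco : ∀ (a : ℕ → ℕ → ℤ) (j : Fin 8) (i : ℕ), X (C.co (vec F.E 3 a)) j i = ∑ c ∈ Finset.range 3, (a j c : K) * per 3 (c + i))
    (a b : ℕ → ℕ → ℤ) : kf3 (C.co (vec F.E 3 a)) (C.co (vec F.E 3 b)) = ((fF 3 a (kpF 3 q3 b) : ℤ) : K) := by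
  have h0 := kv_aux (k := 3) q3 (X (C.co (vec F.E 3 a))) (X (C.co (vec F.E 3 b))) (X (C.co (vec F.E 3 (kpF 3 q3 b))))
    (kpF_X hper q3 _ _ b (hco b) (hco (kpF 3 q3 b)))
  have h1 := form3 C hη (F.fix a) (F.fix (kpF 3 q3 b))
  rw [F.form] at h1
  have h0' : kf3 (C.co (vec F.E 3 a)) (C.co (vec F.E 3 b)) = ∑ p : Ix3, X (C.co (vec F.E 3 a)) p.1 p.2 * X (C.co (vec F.E 3 (kpF 3 q3 b))) p.1 p.2 := h0
  rw [← h0'] at h1
  generalize kf3 (C.co (vec F.E 3 a)) (C.co (vec F.E 3 b)) = A at h1 ⊢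
  generalize fF 3 a (kpF 3 q3 b) = A' at h1 ⊢
  have h3 : (10 : K) ≠ 0 := by norm_num
  apply mul_left_cancel₀ h3
  rw [← h1]
  push_cast
  norm_num

end Pool.Agent.Helper73.E8.Xc
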