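import Pool.Agent.Helper73.E8.Xc.Zk

/-!
# Project E8Z, (E2): the explicit description of the fixed vectors of `t ^ k`, `k = 3, 5`
-/

set_option autoImplicit false

open scoped TensorProduct

namespace Pool.Agent.Helper73.E8.Xc

open Pool.Agent.Helper73.E8 Pool.Agent.Helper64.E8C Pool.Agent.Helper73.E8.Ez
open Pool.Agent.Helper2.E8A (K ζ σ hζ)

variable {L : Type} [LieRing L] [Module.Free ℤ L] [Module.Finite ℤ L] {B : LinearMap.BilinForm ℤ L} (C : Core L B)

theorem exists_zk (hI : IsL (lam C.f)) {k : ℕ} (hk : k = 3 ∨ k = 5) (a : ℕ → ℕ → ℤ) : ∃ x : L, C.co x = zk k a :=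
  mem_lam.1 ((mem_iff hI _).2 (InL_zk hk a))

/-- The unit coordinate functions. -/
def un (j c : ℕ) (j' c' : ℕ) : ℤ := if j' = j ∧ c' = c then 1 else 0

/-- The vectors. -/
noncomputable def En (hI : IsL (lam C.f)) {k : ℕ} (hk : k = 3 ∨ k = 5) (j c : ℕ) : L := (exists_zk C hI hk (un j c)).choose

theorem co_En (hI : IsL (lam C.f)) {k : ℕ} (hk : k = 3 ∨ k = 5) (j c : ℕ) : C.co (En C hI hk j c) = zk k (un j c) :=
  (exists_zk C hI hk (un j c)).choose_spec

/-- The Cartan part of the coordinates. -/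
noncomputable def coh : L →+ (Fin 8 → K) := AddMonoidHom.mk' (fun x => (C.co x).h) (fun x y => by rw [C.co_add]; rfl)

/-- An orbit coordinate. -/
noncomputable def cox (j : Fin 8) (i : ℕ) : L →+ K := AddMonoidHom.mk' (fun x => X (C.co x) j i) (fun x y => by rw [C.co_add, X_add])

theorem co_vec (hI : IsL (lam C.f)) {k : ℕ} (hk : k = 3 ∨ k = 5) (a : ℕ → ℕ → ℤ) : C.co (vec (En C hI hk) k a) = zk k a := by
  refine zk_ext hk ?_ fun j i => ?_
  · change coh C (vec (En C hI hk) k a) = 0
    unfold vec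
    rw [map_sum]
    refine Finset.sum_eq_zero fun j _ => ?_
    rw [map_sum]
    refine Finset.sum_eq_zero fun c _ => ?_
    have h1 : coh C (En C hI hk j c) = 0 := by
      change (C.co (En C hI hk j c)).h = 0
      rw [co_En, zk_h]
    rw [map_zsmul, h1, smul_zero]
  · change cox C j i (vec (En C hI hk) k a) = _
    have h1 : ∀ j' c, cox C j i (En C hI hk j' c) = ∑ c' ∈ Finset.range k, ((un j' c j c' : ℤ) : K) * per k (c' + i) := by
      intro j' c
      change X (C.co (En C hI hk j' c)) j i = _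
      rw [co_En, X_zk hk]
    unfold vec
    simp only [map_sum, map_zsmul, h1]
    rw [Finset.sum_eq_single (j : ℕ)]
    · refine Finset.sum_congr rfl fun c hc => ?_
      rw [Finset.sum_eq_single c]
      · unfold un
        rw [if_pos ⟨rfl, rfl⟩, Int.cast_one, one_mul, zsmul_eq_mul]
      · intro c' _ hc'
        unfold un
        rw [if_neg (fun h => hc' h.2), Int.cast_zero, zero_mul]
      · intro h
        exact absurd hc h
    · intro j' _ hj'
      refine Finset.sum_eq_zero fun c _ => ?_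
      rw [Finset.sum_eq_zero, smul_zero]
      intro c' _
      unfold un
      rw [if_neg (fun h => hj' h.1.symm), Int.cast_zero, zero_mul]
    · intro h
      exact absurd (Finset.mem_range.2 j.2) h

theorem vec_t (hI : IsL (lam C.f)) {k : ℕ} (hk : k = 3 ∨ k = 5) (a : ℕ → ℕ → ℤ) :
    C.t.1 (vec (En C hI hk) k a) = vec (En C hI hk) k (tF k a) := by
  apply C.co_injective
  rw [C.co_t, co_vec, co_vec, map_zk hk]

theorem vec_fix (hI : IsL (lam C.f)) {k : ℕ} (hk : k = 3 ∨ k = 5) (a : ℕ → ℕ → ℤ) :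
    (C.t ^ k).1 (vec (En C hI hk) k a) = vec (En C hI hk) k a := by
  have h : ∀ n, (C.t ^ n).1 (vec (En C hI hk) k a) = vec (En C hI hk) k ((tF k)^[n] a) := by
    intro n
    induction n with
    | zero => rfl
    | succ n ih =>
      have h1 : (C.t ^ (n + 1)).1 (vec (En C hI hk) k a) = C.t.1 ((C.t ^ n).1 (vec (En C hI hk) k a)) := by
        rw [pow_succ']
        rfl
      rw [h1, ih, vec_t, Function.iterate_succ_apply']
  rw [h]
  refine vec_congr _ fun j _ c hc => ?_
  rcases hk with rfl | rfl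
  · change a j ((((c + (3 - 1)) % 3 + (3 - 1)) % 3 + (3 - 1)) % 3) = a j c
    congr 1
    omega
  · change a j ((((((c + (5 - 1)) % 5 + (5 - 1)) % 5 + (5 - 1)) % 5 + (5 - 1)) % 5 + (5 - 1)) % 5) = a j c
    congr 1
    omega

theorem vec_br (hI : IsL (lam C.f)) {k : ℕ} (hk : k = 3 ∨ k = 5) (a b : ℕ → ℕ → ℤ) :
    ⁅vec (En C hI hk) k a, vec (En C hI hk) k b⁆ = vec (En C hI hk) k (bF k a b) := by
  apply C.co_injective
  rw [C.co_lie, co_vec, co_vec, co_vec, brk_zk hk]

/-- The sum over an orbit. -/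
theorem form_zk {k : ℕ} (hk : k = 3 ∨ k = 5) (a b : ℕ → ℕ → ℤ) :
    ∑ j : Fin 8, ∑ i : Fin k, X (zk k a) j i * X (zk k b) j i = ((fF k a b : ℤ) : K) := by
  have h1 : ∀ j : Fin 8, ∑ i : Fin k, X (zk k a) j i * X (zk k b) j i =
      ((31 * ∑ c ∈ Finset.range k, a j c * b j c - (30 / k : ℕ) * (∑ c ∈ Finset.range k, a j c) * (∑ c ∈ Finset.range k, b j c) : ℤ) : K) := by
    intro j
    rw [Fin.sum_univ_eq_sum_range (fun i => X (zk k a) j i * X (zk k b) j i) k]
    have h2 : ∀ i, X (zk k a) j i * X (zk k b) j i = ∑ c ∈ Finset.range k, ∑ c' ∈ Finset.range k,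
        ((a j c * b j c' : ℤ) : K) * (per k (c + i) * per k (c' + i)) := by
      intro i
      rw [X_zk hk, X_zk hk, Finset.sum_mul_sum]
      refine Finset.sum_congr rfl fun c _ => Finset.sum_congr rfl fun c' _ => ?_
      push_cast
      ring
    simp only [h2]
    have h3 : ∑ i ∈ Finset.range k, ∑ c ∈ Finset.range k, ∑ c' ∈ Finset.range k, ((a j c * b j c' : ℤ) : K) * (per k (c + i) * per k (c' + i)) =
        ∑ c ∈ Finset.range k, ∑ c' ∈ Finset.range k, ((a j c * b j c' * (31 * (if c = c' then 1 else 0) - (30 / k : ℕ)) : ℤ) : K) := by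
      rw [Finset.sum_comm]
      refine Finset.sum_congr rfl fun c hc => ?_
      rw [Finset.sum_comm]
      refine Finset.sum_congr rfl fun c' hc' => ?_
      rw [← Finset.mul_sum, per_trace hk (Finset.mem_range.1 hc) (Finset.mem_range.1 hc')]
      push_cast
      ring
    rw [h3]
    simp only [← Int.cast_sum]
    congr 1
    simp only [mul_sub, Finset.sum_sub_distrib]
    congr 1
    · rw [Finset.mul_sum]
      refine Finset.sum_congr rfl fun c hc => ?_
      rw [Finset.sum_eq_single c]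
      · rw [if_pos rfl]
        ring
      · intro c' _ hc'
        rw [if_neg (Ne.symm hc')]
        ring
      · intro h
        exact absurd hc h
    · rw [mul_assoc, Finset.sum_mul_sum, Finset.mul_sum]
      refine Finset.sum_congr rfl fun c _ => ?_
      rw [Finset.mul_sum]
      refine Finset.sum_congr rfl fun c' _ => ?_
      ring
  unfold fF
  rw [Finset.sum_range, Int.cast_sum]
  exact Finset.sum_congr rfl fun j _ => h1 j

theorem vec_form (hη : C.η = et) (hI : IsL (lam C.f)) {k : ℕ} (hk : k = 3 ∨ k = 5) (a b : ℕ → ℕ → ℤ) :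
    B (vec (En C hI hk) k a) (vec (En C hI hk) k b) = (30 / k : ℕ) * fF k a b := by
  have h0 : ((B (vec (En C hI hk) k a) (vec (En C hI hk) k b) : ℤ) : K) = (((30 / k : ℕ) * fF k a b : ℤ) : K) := by
    rcases hk with rfl | rfl
    · have h1 := form3 C hη (vec_fix C hI (Or.inl rfl) a) (vec_fix C hI (Or.inl rfl) b)
      rw [h1, co_vec, co_vec, Fintype.sum_prod_type, form_zk (Or.inl rfl)]
      push_cast
      norm_num
    · have h1 := form5 C hη (vec_fix C hI (Or.inr rfl) a) (vec_fix C hI (Or.inr rfl) b)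
      rw [h1, co_vec, co_vec, Fintype.sum_prod_type, form_zk (Or.inr rfl)]
      push_cast
      norm_num
  exact_mod_cast h0

theorem per_fix (hη : C.η = et) {k : ℕ} (hk : k = 3 ∨ k = 5) {x : L} (hx : (C.t ^ k).1 x = x) :
    (C.co x).h = 0 ∧ ∀ j, X (C.co x) j k = X (C.co x) j 0 := by
  rcases hk with rfl | rfl
  · have h1 := (nn3_iff (z := C.co x)).1 (co_mem3 C hη hx)
    exact ⟨h1.1, fun j => by rw [← h1.2 j 0]⟩
  · have h1 := (nn5_iff (z := C.co x)).1 (co_mem5 C hη hx)
    exact ⟨h1.1, fun j => by rw [← h1.2 j 0]⟩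

theorem vec_span (hη : C.η = et) (hI : IsL (lam C.f)) {k : ℕ} (hk : k = 3 ∨ k = 5) {x : L} (hx : (C.t ^ k).1 x = x) :
    ∃ (N : ℕ) (a : ℕ → ℕ → ℤ), (31 : ℤ) ^ N • x = vec (En C hI hk) k a := by
  obtain ⟨N, hN⟩ := hI.bdd
  obtain ⟨y', hy'⟩ := hN (C.co x) ⟨x, rfl⟩
  obtain ⟨h0, hper⟩ := per_fix C hη hk hx
  have hco : C.co ((31 : ℤ) ^ N • x) = (31 : K) ^ N • C.co x := by
    rw [C.co_smul]
    push_cast
    rfl
  have hF : Fx σ (C.co ((31 : ℤ) ^ N • x)) := co_Fx C hη _
  have hsig : ∀ j i, X (C.co ((31 : ℤ) ^ N • x)) j i = (σ ^ i) (X (C.co ((31 : ℤ) ^ N • x)) j 0) := by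
    intro j i
    induction i with
    | zero => rfl
    | succ i ih =>
      have h1 := Fx_X (s := (σ : K →+* K)) hF j i
      rw [h1, ih, pow_succ']
      rfl
  have hex : ∀ j : Fin 8, ∃ a : ℕ → ℤ, X (C.co ((31 : ℤ) ^ N • x)) j 0 = ∑ c ∈ Finset.range k, (a c : K) * per k c := by
    intro j
    refine per_span hk ?_ ?_
    · rw [hco, ← hy', X_zero_idx]
      exact NumberField.RingOfIntegers.isIntegral_coe (y'.x (sr j))
    · rw [← hsig, hco, X_smul, X_smul, hper]
  choose a ha using hex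
  refine ⟨N, fun j c => if h : j < 8 then a ⟨j, h⟩ c else 0, ?_⟩
  apply C.co_injective
  rw [co_vec]
  refine zk_ext hk ?_ fun j i => ?_
  · rw [hco]
    change (31 : K) ^ N • (C.co x).h = 0
    rw [h0, smul_zero]
  · rw [hsig, ha]
    have h1 : ∀ c, (if h : (j : ℕ) < 8 then a ⟨j, h⟩ c else 0) = a j c := by
      intro c
      rw [dif_pos j.2]
    simp only [h1]
    have h2 : ∀ (i c : ℕ), (σ ^ i) (per k c) = per k (c + i) := by
      intro i
      induction i with
      | zero => intro c; rfl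
      | succ i ih =>
        intro c
        rw [pow_succ']
        change σ ((σ ^ i) (per k c)) = _
        rw [ih, per_sigma, add_assoc]
    rw [map_sum]
    refine Finset.sum_congr rfl fun c _ => ?_
    rw [map_mul, map_intCast, h2]

theorem getD_ex30 {k : ℕ} (l : List (List ℤ)) (j : ℕ) {i : ℕ} (hi : i < 30) : ((ex30 k l).getD j []).getD i 0 = lf l j (i % k) := by
  unfold ex30 lf
  rcases lt_or_ge j l.length with hj | hj
  · have h1 : (l.map fun r => (List.range 30).map fun i => r.getD (i % k) 0).getD j [] =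
        (List.range 30).map fun i => (l.getD j []).getD (i % k) 0 := by
      rw [List.getD_eq_getElem _ _ (by rw [List.length_map]; exact hj), List.getElem_map]
      congr 1
      funext i
      rw [List.getD_eq_getElem l [] hj]
    rw [h1, List.getD_eq_getElem _ _ (by rw [List.length_map, List.length_range]; exact hi), List.getElem_map, List.getElem_range]
  · have h1 : (l.map fun r => (List.range 30).map fun i => r.getD (i % k) 0).getD j [] = [] :=
      List.getD_eq_default _ _ (by rw [List.length_map]; exact hj)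
    have h2 : l.getD j [] = [] := List.getD_eq_default _ _ hj
    rw [h1, h2]
    simp

theorem vec_mem (hI : IsL (lam C.f)) {k : ℕ} (hk : k = 3 ∨ k = 5) (l : List (List ℤ)) (hl : chkMem (ex30 k l) = true) :
    ∃ u : L, (31 : ℤ) • u = vec (En C hI hk) k (lf l) := by
  have hF : Fx σ (((1 / 31 : ℚ) : K) • zk k (lf l)) := Fx_K_smul _ (Fx_zk hk _)
  have h0 : (((1 / 31 : ℚ) : K) • zk k (lf l)).h = 0 := by
    change ((1 / 31 : ℚ) : K) • (zk k (lf l)).h = 0
    rw [zk_h, smul_zero]
  have h31 : (31 : K) * ((1 / 31 : ℚ) : K) = 1 := by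
    push_cast
    norm_num
  obtain ⟨u, hu⟩ := mem_lam.1 (mem_explicit hI hF h0 (ex30 k l) (by
    intro j
    have h1 : (((1 / 31 : ℚ) : K) • zk k (lf l)).x (sr j) = ((1 / 31 : ℚ) : K) * (zk k (lf l)).x (sr j) := rfl
    rw [h1, ← mul_assoc, h31, one_mul, ← X_zero_idx, X_zk hk]
    have h2 := per_sum_33 hk (lf l j)
    simp only [add_zero]
    rw [h2]
    refine Finset.sum_congr rfl fun i hi => ?_
    rw [getD_ex30 l j (Finset.mem_range.1 hi)]) hl)
  refine ⟨u, C.co_injective ?_⟩
  rw [C.co_smul, co_vec]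
  change ((31 : ℤ) : K) • C.f (1 ⊗ₜ u) = _
  rw [hu, smul_smul]
  push_cast
  have h32 : (31 : K) * (1 / 31) = 1 := by norm_num
  rw [h32, one_smul]

/-- The explicit description of `L ^ (t ^ k)`. -/
noncomputable def lfe (hη : C.η = et) (hI : IsL (lam C.f)) {k : ℕ} (hk : k = 3 ∨ k = 5) : LF B C.t k where
  E := En C hI hk
  t_vec := vec_t C hI hk
  fix := vec_fix C hI hk
  br := vec_br C hI hk
  form := vec_form C hη hI hk
  span _ hx := vec_span C hη hI hk hx
  mem := vec_mem C hI hk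

theorem lfe_co (hη : C.η = et) (hI : IsL (lam C.f)) {k : ℕ} (hk : k = 3 ∨ k = 5) (a : ℕ → ℕ → ℤ) (j : Fin 8) (i : ℕ) :
    X (C.co (vec (lfe C hη hI hk).E k a)) j i = ∑ c ∈ Finset.range k, (a j c : K) * per k (c + i) := by
  change X (C.co (vec (En C hI hk) k a)) j i = _
  rw [co_vec, X_zk hk]

end Pool.Agent.Helper73.E8.Xc
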