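import Pool.Agent.Helper73.E8.Xc.Act2
import Pool.Agent.Helper73.E8.Xc.LFe
import Pool.Agent.Helper60.E8Z.ChirS

/-!
# Project E8Z: (E2) and the Lie ring version of the main theorem
-/

set_option autoImplicit false

open scoped TensorProduct

namespace Pool.Agent.Helper73.E8.Xc

open Pool.Agent.Helper73.E8 Pool.Agent.Helper64.E8C Pool.Agent.Helper73.E8.Ez
open Pool.Agent.Helper2.E8A (K ζ σ hζ)

variable {L : Type} [LieRing L] [Module.Free ℤ L] [Module.Finite ℤ L] {B : LinearMap.BilinForm ℤ L}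

theorem ep8_eq : ∀ j < 8, ep8 j = Pool.Agent.Helper60.E8Z.ep8 j := by decide

theorem pi8_eq (j : ℕ) : pi8 j = Pool.Agent.Helper60.E8Z.pi8 j := rfl

/-- (E2). -/
theorem e2 (C : Core L B) (hI : IsL (lam C.f)) (hη : C.η = et) : E2 C :=
  e2_of C hη (per_mod (Or.inr rfl)) (lfe C hη hI (Or.inr rfl)) (lfe_co C hη hI (Or.inr rfl)) fun y a S hay _ hSt hS hyS =>
    Pool.Agent.Helper60.E8Z.chirS C hη (lfe C hη hI (Or.inl rfl)) (lfe_co C hη hI (Or.inl rfl)) y a hay S hSt hS fun j hj => by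
      rw [← ep8_eq j hj, ← pi8_eq]
      exact hyS j hj

/-- The automorphism group of a compact form of `E8` over `ℤ` has an invariant subspace. -/
theorem not_irr (hL : IsLat L B) : ¬ Irr L := by
  intro hirr
  obtain ⟨C, hI, hη⟩ := exists_core hL hirr
  exact false_of_e2 C hirr (e2 C hI hη)

end Pool.Agent.Helper73.E8.Xc
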