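import Pool.Agent.Helper73.E8.Xc.Fin5
import Pool.Agent.Helper58.E8Z.BasePA
import Pool.Agent.Helper58.E8Z.End
import Pool.Agent.Helper60.E8Z.Tr5

/-!
# Project E8Z, (E2): signs and parity; action on the fixed vectors of `t`
-/

set_option autoImplicit false

open scoped TensorProduct Matrix

namespace Pool.Agent.Helper73.E8.Xc

open Pool.Agent.Helper73.E8 Pool.Agent.Helper64.E8C Pool.Agent.Helper73.E8.Ez Pool.Agent.Helper60.E8Z
open Pool.Agent.Helper2.E8A (K ζ σ)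

/-! ### Numbers -/

/-- The permutation of the eight orbits. -/
def pi8 (j : ℕ) : ℕ := [6, 4, 5, 7, 1, 2, 0, 3].getD j 0

/-- The signs. -/
def ep8 (j : ℕ) : ℤ := [-1, -1, -1, 1, -1, -1, -1, 1].getD j 1

/-- The coordinates of the vector whose orbit coordinates are 1 at the orbit `j`. -/
def Sv (j j' : ℕ) (_ : ℕ) : ℤ := if j' = j then -1 else 0

theorem sig0 : ∀ j < 8, ∀ i < 40, ∑ c ∈ Finset.range 5, fr5 (del i) (pi8 j) c = -ep8 j * ∑ c ∈ Finset.range 5, fr5 i j c := by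
  decide +kernel

theorem fF_Sv {j : ℕ} (hj : j < 8) (b : ℕ → ℕ → ℤ) : fF 5 (Sv j) b = -∑ c ∈ Finset.range 5, b j c := by
  rw [fF_cov, Finset.sum_eq_single j]
  · unfold Sv
    simp only [if_true, show ((30 / 5 : ℕ) : ℤ) = 6 by norm_num, Finset.sum_range_succ, Finset.sum_range_zero]
    ring
  · intro l _ hl
    refine Finset.sum_eq_zero fun c _ => ?_
    unfold Sv
    rw [if_neg hl, zero_mul]
  · intro h
    exact absurd (Finset.mem_range.2 hj) h

theorem pi8_lt : ∀ j < 8, pi8 j < 8 := by decide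

theorem sig (j : ℕ) (hj : j < 8) (i : ℕ) (hi : i < 40) : fF 5 (Sv (pi8 j)) (fr5 (del i)) = -ep8 j * fF 5 (Sv j) (fr5 i) := by
  rw [fF_Sv (pi8_lt j hj), fF_Sv hj, sig0 j hj i hi]
  ring

theorem ep8_sq : ∀ j < 8, ep8 j * ep8 j = 1 := by decide

theorem del_ten : ∀ i : Fin 40, delF^[10] i = i := by decide

theorem delF_val (n : ℕ) (i : Fin 40) : ((delF^[n] i : Fin 40) : ℕ) = del^[n] i := by
  induction n generalizing i with
  | zero => rfl
  | succ n ih =>
    rw [Function.iterate_succ_apply, ih, Function.iterate_succ_apply]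
    rfl

theorem del_ten_mul (a n : ℕ) (i : Fin 40) : delF^[10 * a + n] i = delF^[n] i := by
  induction a with
  | zero => rw [Nat.mul_zero, Nat.zero_add]
  | succ a ih =>
    rw [show 10 * (a + 1) + n = 10 + (10 * a + n) by ring, Function.iterate_add_apply, del_ten, ih]

theorem del_bij : Function.Bijective delF := by
  refine (Finite.injective_iff_bijective).1 fun i j h => ?_
  have h1 := congrArg (fun z => delF^[9] z) h
  simp only [← Function.iterate_succ_apply] at h1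
  rwa [del_ten, del_ten] at h1

variable {L : Type} [LieRing L] [Module.Free ℤ L] [Module.Finite ℤ L] {B : LinearMap.BilinForm ℤ L}

theorem t_fr {t : AutL L} (F : LF B t 5) (i : Fin 40) : t.1 (vec F.E 5 (fr5 i)) = vec F.E 5 (fr5 (delF^[4] i)) := by
  rw [F.t_vec]
  refine vec_congr _ fun j hj c hc => ?_
  rw [delF_val]
  exact (shift5 i i.2 j hj c hc).symm

theorem t_pow_fr {t : AutL L} (F : LF B t 5) (m : ℕ) (i : Fin 40) : (t ^ m).1 (vec F.E 5 (fr5 i)) = vec F.E 5 (fr5 (delF^[4 * m] i)) := by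
  induction m generalizing i with
  | zero => rfl
  | succ m ih =>
    have h1 : (t ^ (m + 1)).1 (vec F.E 5 (fr5 i)) = (t ^ m).1 (t.1 (vec F.E 5 (fr5 i))) := by
      rw [pow_succ]
      rfl
    rw [h1, t_fr, ih, ← Function.iterate_add_apply]
    congr 3

variable (C : Core L B)

/-! ### The fixed vectors of `t` -/

theorem tF_Sv (j : ℕ) : tF 5 (Sv j) = Sv j := rfl

/-- The vectors of `L ^ t`. -/
def SS {t : AutL L} (F : LF B t 5) (j : ℕ) : L := vec F.E 5 (Sv j)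

theorem t_SS {t : AutL L} (F : LF B t 5) (j : ℕ) : t.1 (SS F j) = SS F j := by
  unfold SS
  rw [F.t_vec, tF_Sv]

theorem t_pow_fix {t : AutL L} {x : L} (h : t.1 x = x) (n : ℕ) : (t ^ n).1 x = x := by
  rw [pow_apply]
  exact Function.iterate_fixed h n

theorem X_SS (hper : ∀ c, per 5 (c % 5) = per 5 c) (F : LF B C.t 5)
    (hco : ∀ (a : ℕ → ℕ → ℤ) (j : Fin 8) (i : ℕ), X (C.co (vec F.E 5 a)) j i = ∑ c ∈ Finset.range 5, (a j c : K) * per 5 (c + i))
    (j j' : Fin 8) (i : ℕ) : X (C.co (SS F j)) j' i = if j' = j then 1 else 0 := by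
  unfold SS
  rw [hco]
  by_cases h : j' = j
  · rw [if_pos h, h]
    have h1 : ∀ c, ((Sv j j c : ℤ) : K) = -1 := by
      intro c
      unfold Sv
      rw [if_pos rfl]
      norm_num
    simp only [h1, neg_mul, one_mul, Finset.sum_neg_distrib]
    have h2 := sum_shift (k := 5) (i % 5) (Nat.mod_lt _ (by norm_num)) (fun _ c' => per 5 c')
    have h3 : ∀ c, per 5 ((c + i % 5) % 5) = per 5 (c + i) := by
      intro c
      rw [Nat.add_mod_mod, hper]
    simp only [h3] at h2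
    rw [h2, per_sum (Or.inr rfl), neg_neg]
  · rw [if_neg h]
    refine Finset.sum_eq_zero fun c _ => ?_
    unfold Sv
    rw [if_neg (fun e => h (Fin.ext e)), Int.cast_zero, zero_mul]

theorem y_SSe (F : LF B C.t 5) {y : AutL L} {m : ℕ} {s : ℤ} (hy : ∀ i : Fin 40, y.1 (vec F.E 5 (fr5 i)) = s • (C.t ^ m).1 (vec F.E 5 (fr5 i)))
    (j : ℕ) : y.1 (SS F j) = s • SS F j := by
  have h := (onf5 C F).ext (aut y) (s • aut (C.t ^ m)) hy (u := SS F j) (F.fix _)
  change y.1 (SS F j) = s • (C.t ^ m).1 (SS F j) at h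
  rw [h, t_pow_fix (t_SS F j)]

/-- In the odd case `y` permutes the `SS j` up to sign. -/
theorem y_SSo (F : LF B C.t 5) {y : AutL L} {m : ℕ} {s : ℤ} (hy : ∀ i : Fin 40, y.1 (vec F.E 5 (fr5 i)) = s • (C.t ^ m).1 (vec F.E 5 (fr5 (delF i))))
    {j : ℕ} (hj : j < 8) : y.1 (SS F j) = (-s * ep8 j) • SS F (pi8 j) := by
  have h := onf5 C F
  have hmem : ∀ j, SS F j ∈ Ufix (C.t ^ 5) := fun j => F.fix _
  have hB : ∀ j i, B (SS F j) (vec F.E 5 (fr5 i)) = 6 * fF 5 (Sv j) (fr5 i) := by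
    intro j i
    unfold SS
    rw [F.form, show ((30 / 5 : ℕ) : ℤ) = 6 by norm_num]
  have h1 := h.repr _ (hmem j)
  have h2 := h.repr _ (hmem (pi8 j))
  simp only [hB] at h1 h2
  have h3 : ∀ i : Fin 40, 6 * fF 5 (Sv j) (fr5 i) = -(ep8 j * (6 * fF 5 (Sv (pi8 j)) (fr5 (delF i)))) := by
    intro i
    have h4 := sig j hj i i.2
    change fF 5 (Sv (pi8 j)) (fr5 (delF i)) = _ at h4
    rw [h4]
    linear_combination (-6 * fF 5 (Sv j) (fr5 i)) * (ep8_sq j hj)
  have h5 := congrArg (fun z => y.1 z) h1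
  simp only [map_sum, map_zsmul, hy, h3] at h5
  have h6 : ∑ i : Fin 40, -(ep8 j * (6 * fF 5 (Sv (pi8 j)) (fr5 (delF i)))) • s • (C.t ^ m).1 (vec F.E 5 (fr5 (delF i))) =
      (-s * ep8 j) • (C.t ^ m).1 (∑ i : Fin 40, (6 * fF 5 (Sv (pi8 j)) (fr5 i)) • vec F.E 5 (fr5 i)) := by
    rw [map_sum, Finset.smul_sum]
    refine Fintype.sum_bijective delF del_bij _ _ fun i => ?_
    rw [map_zsmul, smul_smul, smul_smul]
    congr 1
    ring
  rw [h6, h2, map_zsmul, t_pow_fix (t_SS F _), smul_comm] at h5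
  exact (tf (by norm_num) h5).symm

/-- `y` commutes with `t` on the fixed vectors of `t ^ 5`. -/
theorem comm_t (F : LF B C.t 5) {y : AutL L} {s : ℤ} {n : ℕ} {m : ℕ} (hy : ∀ i : Fin 40, y.1 (vec F.E 5 (fr5 i)) = s • (C.t ^ m).1 (vec F.E 5 (fr5 (delF^[n] i))))
    {u : L} (hu : (C.t ^ 5).1 u = u) : y.1 (C.t.1 u) = C.t.1 (y.1 u) := by
  have h := onf5 C F
  refine h.ext ((aut y).comp (aut C.t)) ((aut C.t).comp (aut y)) (fun i => ?_) hu
  change y.1 (C.t.1 (vec F.E 5 (fr5 i))) = C.t.1 (y.1 (vec F.E 5 (fr5 i)))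
  rw [t_fr F, hy, hy, map_zsmul, ← Function.iterate_add_apply, t_pow_fr, t_pow_fr, t_fr F, ← Function.iterate_add_apply,
    ← Function.iterate_add_apply, ← Function.iterate_add_apply]
  congr 5
  ring

/-- The invariance of the trace of `t ∘ ad (SS j)`. -/
theorem tr_SS (hη : C.η = et) (hper : ∀ c, per 5 (c % 5) = per 5 c) (F : LF B C.t 5)
    (hco : ∀ (a : ℕ → ℕ → ℤ) (j : Fin 8) (i : ℕ), X (C.co (vec F.E 5 a)) j i = ∑ c ∈ Finset.range 5, (a j c : K) * per 5 (c + i))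
    {y : AutL L} (hyn : y * C.t ^ 5 * y⁻¹ ∈ Subgroup.zpowers (C.t ^ 5)) {s : ℤ} {n : ℕ} {m : ℕ}
    (hy : ∀ i : Fin 40, y.1 (vec F.E 5 (fr5 i)) = s • (C.t ^ m).1 (vec F.E 5 (fr5 (delF^[n] i))))
    {i j : Fin 8} {e : ℤ} (he : e = 1 ∨ e = -1) (hS : y.1 (SS F i) = e • SS F j) : cnt5 i = e * cnt5 j := by
  have hn : ∀ j : Fin 8, C.co (-SS F j) = (-1 : K) • C.co (SS F j) := by
    intro j
    have h := C.co_smul (-1) (SS F j)
    rw [neg_one_smul, Int.cast_neg, Int.cast_one] at h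
    exact h
  have h0 : ∀ j : Fin 8, (C.co (-SS F j)).h = 0 := by
    intro j
    rw [hn]
    change (-1 : K) • (C.co (SS F j)).h = 0
    have h1 : (C.co (SS F j)).h = 0 := h_zero (co_mem5 C hη (F.fix (Sv j)))
    rw [h1, smul_zero]
  have hX : ∀ (j l : Fin 8) (i' : ℕ), X (C.co (-SS F j)) l i' = if l = j then -1 else 0 := by
    intro j l i'
    rw [hn, X_smul, X_SS C hper F hco]
    split_ifs <;> simp
  refine no_tr5 C hη (fun x hx => comm_t C F hy hx) hyn (h0 i) (hX i) (h0 j) (hX j) ?_ he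
  rw [map_neg, hS, smul_neg]

/-- The action of the normaliser of `⟨t ^ 5⟩` on the fixed vectors of `t ^ 5`. -/
theorem act (hη : C.η = et) (hper : ∀ c, per 5 (c % 5) = per 5 c) (F : LF B C.t 5)
    (hco : ∀ (a : ℕ → ℕ → ℤ) (j : Fin 8) (i : ℕ), X (C.co (vec F.E 5 a)) j i = ∑ c ∈ Finset.range 5, (a j c : K) * per 5 (c + i))
    {y : AutL L} (hyn : y * C.t ^ 5 * y⁻¹ ∈ Subgroup.zpowers (C.t ^ 5)) : ∃ m : ℕ,
      (∀ i : Fin 40, y.1 (vec F.E 5 (fr5 i)) = (C.t ^ m).1 (vec F.E 5 (fr5 i))) ∨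
      (∀ i : Fin 40, y.1 (vec F.E 5 (fr5 i)) = -(C.t ^ m).1 (vec F.E 5 (fr5 (delF i)))) := by
  obtain ⟨n, s, hs, hn⟩ := act5 C hη hper F hco hyn
  obtain ⟨c0, c1, c2, c4⟩ := cnt5_v
  obtain ⟨a, rfl | rfl⟩ := Nat.even_or_odd' n
  · refine ⟨3 * a, Or.inl ?_⟩
    have h1 : ∀ i : Fin 40, y.1 (vec F.E 5 (fr5 i)) = s • (C.t ^ (3 * a)).1 (vec F.E 5 (fr5 i)) := by
      intro i
      rw [hn, t_pow_fr, show 4 * (3 * a) = 10 * a + 2 * a by ring, del_ten_mul]
    have h2 := tr_SS C hη hper F hco hyn (n := 0) h1 (i := 1) (j := 1) hs (y_SSe C F h1 1)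
    change cnt5 1 = s * cnt5 1 at h2
    rw [c1, mul_one] at h2
    intro i
    rw [h1, ← h2, one_smul]
  · refine ⟨3 * a, Or.inr ?_⟩
    have h1 : ∀ i : Fin 40, y.1 (vec F.E 5 (fr5 i)) = s • (C.t ^ (3 * a)).1 (vec F.E 5 (fr5 (delF i))) := by
      intro i
      rw [hn, t_pow_fr, ← Function.iterate_succ_apply, show (4 * (3 * a)).succ = 10 * a + (2 * a + 1) by
        rw [Nat.succ_eq_add_one]; ring, del_ten_mul]
    have h3 := y_SSo C F h1 (j := 1) (by norm_num)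
    have h4 : (-s * ep8 1) • SS F (pi8 1) = s • SS F 4 := by
      have h5 : ep8 1 = -1 := rfl
      have h6 : pi8 1 = 4 := rfl
      rw [h5, h6]
      congr 1
      ring
    rw [h4] at h3
    have h2 := tr_SS C hη hper F hco hyn (n := 1) h1 (i := 1) (j := 4) hs h3
    change cnt5 1 = s * cnt5 4 at h2
    rw [c1, c4] at h2
    intro i
    have h7 : s = -1 := by linarith
    rw [h1, h7, neg_one_smul]

end Pool.Agent.Helper73.E8.Xc
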