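import Pool.Agent.Helper73.E8.Xc.Act

/-!
# Project E8Z, (E2): the exceptional case: the action on the fixed vectors of `t`
-/

set_option autoImplicit false

open scoped TensorProduct Matrix

namespace Pool.Agent.Helper73.E8.Xc

open Pool.Agent.Helper73.E8 Pool.Agent.Helper64.E8C Pool.Agent.Helper73.E8.Ez Pool.Agent.Helper60.E8Z
open Pool.Agent.Helper2.E8A (K ζ σ)

variable {L : Type} [LieRing L] [Module.Free ℤ L] [Module.Finite ℤ L] {B : LinearMap.BilinForm ℤ L}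

variable (C : Core L B)

theorem conj_t (F : LF B C.t 5) {y : AutL L} (hyn : y * C.t ^ 5 * y⁻¹ ∈ Subgroup.zpowers (C.t ^ 5)) {s : ℤ} {n : ℕ} {m : ℕ}
    (hy : ∀ i : Fin 40, y.1 (vec F.E 5 (fr5 i)) = s • (C.t ^ m).1 (vec F.E 5 (fr5 (delF^[n] i)))) :
    ∃ a : ℤ, y * C.t * y⁻¹ = C.t ^ a ∧ ¬ (3 : ℤ) ∣ a := by
  have : Finite (AutL L) := AutL_finite C.hL
  have h1 : y * C.t * y⁻¹ ∈ Subgroup.zpowers C.t := by
    refine e3 C _ fun x hx => ?_
    have h2 : y⁻¹.1 x ∈ Ufix (C.t ^ 5) := norm_fix (y := y⁻¹) (by rw [inv_inv]; exact conj_inv hyn) (t_pow_fix hx 5)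
    have h3 : y.1 (y⁻¹.1 x) = x := y.1.apply_symm_apply x
    have h4 := comm_t C F hy h2
    rw [h3, hx] at h4
    exact h4
  obtain ⟨a, ha⟩ := Subgroup.mem_zpowers_iff.1 h1
  refine ⟨a, ha.symm, ?_⟩
  rintro ⟨b, rfl⟩
  have h30 : orderOf C.t = 30 := t_order C
  have h2 : (y * C.t * y⁻¹) ^ 10 = 1 := by
    rw [← ha, ← zpow_natCast, ← zpow_mul, show 3 * b * ((10 : ℕ) : ℤ) = ((30 : ℕ) : ℤ) * b by push_cast; ring, zpow_mul, zpow_natCast, ← h30,
      pow_orderOf_eq_one, one_zpow]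
  rw [conj_pow] at h2
  have h3 : C.t ^ 10 = 1 := by
    have h4 : y⁻¹ * (y * C.t ^ 10 * y⁻¹) * y = 1 := by rw [h2]; group
    rwa [show y⁻¹ * (y * C.t ^ 10 * y⁻¹) * y = C.t ^ 10 by group] at h4
  have h4 := orderOf_dvd_of_pow_eq_one h3
  rw [h30] at h4
  omega

/-- (E2), given the explicit description of `L ^ (t ^ 5)` and the exclusion of the exceptional case. -/
theorem e2_of (hη : C.η = et) (hper : ∀ c, per 5 (c % 5) = per 5 c) (F : LF B C.t 5)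
    (hco : ∀ (a : ℕ → ℕ → ℤ) (j : Fin 8) (i : ℕ), X (C.co (vec F.E 5 a)) j i = ∑ c ∈ Finset.range 5, (a j c : K) * per 5 (c + i))
    (hex : ∀ (y : AutL L) (a : ℤ) (S : ℕ → L), y * C.t * y⁻¹ = C.t ^ a → ¬ (3 : ℤ) ∣ a → (∀ j, C.t.1 (S j) = S j) →
      (∀ (j j' : Fin 8) (i : ℕ), X (C.co (S j)) j' i = if j' = j then 1 else 0) → (∀ j < 8, y.1 (S j) = ep8 j • S (pi8 j)) → False) :
    E2 C := by
  intro y hy
  obtain ⟨m, h1 | h1⟩ := act C hη hper F hco hy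
  · refine ⟨m, fun x hx => ?_⟩
    exact (onf5 C F).ext (aut y) (aut (C.t ^ m)) h1 hx
  · exfalso
    obtain ⟨a, ha, h3⟩ := conj_t C F hy (s := -1) (n := 1) (m := m) (by
      intro i
      rw [h1, neg_one_smul]
      rfl)
    refine hex y a (SS F) ha h3 (t_SS F) (X_SS C hper F hco) fun j hj => ?_
    have h4 := y_SSo C F (s := -1) (fun i => (h1 i).trans (neg_one_smul ℤ _).symm) hj
    rw [h4]
    congr 1
    ring

end Pool.Agent.Helper73.E8.Xc
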