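import Pool.Agent.Helper73.E8.Xc.E5

/-!
# The Lie algebra of the fixed points of `nn ^ 3` in orbit coordinates

`E3 R`: the `z : Chev R` with `nn^[3] z = z`; they have no Cartan part (`h_zero`) and their orbit coordinates `X z j i` are periodic in `i` with
period 3. `crd3 : E3 R ≃ₗ[R] (Fin 8 × Fin 3 → R)`.
-/

set_option autoImplicit false

namespace Pool.Agent.Helper73.E8.Xc

open Pool.Agent.Helper73.E8 Pool.Agent.Helper64.E8C

variable {R : Type*} [CommRing R]

theorem W_ten (x : Lat) : W^[12] x - W^[9] x + W^[6] x - W^[3] x + x = 0 := by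
  have h1 := W_phi x
  have h2 := W_phi (W x)
  have h3 := W_phi (W^[2] x)
  have h4 := W_phi (W^[3] x)
  have h5 := W_phi (W^[4] x)
  simp only [Function.iterate_succ_apply, Function.iterate_zero, id_eq] at *
  linear_combination (exp := 1) h5 - h4 + h3 - h2 + h1

theorem h_zero3 {z : Chev R} (h : nn^[3] z = z) : z.h = 0 := by
  have h6 : nn^[6] z = z := by
    rw [show (6 : ℕ) = 3 + 3 from rfl, Function.iterate_add_apply, h, h]
  have h9 : nn^[9] z = z := by
    rw [show (9 : ℕ) = 6 + 3 from rfl, Function.iterate_add_apply, h, h6]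
  have h12 : nn^[12] z = z := by
    rw [show (12 : ℕ) = 6 + 6 from rfl, Function.iterate_add_apply, h6, h6]
  funext j
  have e3 := nn_iter_h_eq 3 z j
  have e6 := nn_iter_h_eq 6 z j
  have e9 := nn_iter_h_eq 9 z j
  have e12 := nn_iter_h_eq 12 z j
  have e0 := nn_iter_h_eq 0 z j
  rw [h] at e3
  rw [h6] at e6
  rw [h9] at e9
  rw [h12] at e12
  simp only [Function.iterate_zero, id_eq] at e0
  have h3 : ∀ i : Fin 8, ((W^[12] (al i)) j : R) - ((W^[9] (al i)) j : R) + ((W^[6] (al i)) j : R) - ((W^[3] (al i)) j : R) +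
      ((al i) j : R) = 0 := by
    intro i
    have h4 := congrFun (W_ten (al i)) j
    have h5 : (W^[12] (al i)) j - (W^[9] (al i)) j + (W^[6] (al i)) j - (W^[3] (al i)) j + (al i) j = 0 := h4
    have h6 := congrArg (Int.cast : ℤ → R) h5
    push_cast at h6
    exact h6
  have h7 : ∑ i, z.h i * (((W^[12] (al i)) j : R) - ((W^[9] (al i)) j : R) + ((W^[6] (al i)) j : R) - ((W^[3] (al i)) j : R) +
      ((al i) j : R)) = 0 := by
    simp only [h3, mul_zero, Finset.sum_const_zero]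
  simp only [mul_sub, mul_add, Finset.sum_sub_distrib, Finset.sum_add_distrib] at h7
  rw [← e12, ← e9, ← e6, ← e3, ← e0] at h7
  change z.h j = 0
  linear_combination h7

theorem X_per3 {z : Chev R} (h : nn^[3] z = z) (j : Fin 8) (i : ℕ) : X z j (i + 3) = X z j i := by
  have h1 := X_nn_iter 3 z j i
  rwa [h] at h1

theorem X_mod3 {z : Chev R} (h : nn^[3] z = z) (j : Fin 8) (i : ℕ) : X z j (i % 3) = X z j i := by
  have h1 : ∀ n i : ℕ, X z j (i + 3 * n) = X z j i := by
    intro n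
    induction n with
    | zero => intro i; rfl
    | succ n ih => intro i; rw [Nat.mul_succ, ← add_assoc, X_per3 h, ih]
  conv_rhs => rw [← Nat.mod_add_div i 3]
  rw [h1]

theorem nn3_iff {z : Chev R} : nn^[3] z = z ↔ z.h = 0 ∧ ∀ j i, X z j (i + 3) = X z j i := by
  refine ⟨fun h => ⟨h_zero3 h, X_per3 h⟩, fun h => ?_⟩
  refine X_ext ?_ fun j i hi => ?_
  · rw [nn_iter_h 3 h.1, h.1]
  · have h1 := X_nn_iter 3 z j (i + 27)
    rw [show i + 27 + 3 = i + 30 from rfl, X_thirty] at h1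
    rw [h1]
    rw [show i + 27 = i + 3 + 3 + 3 + 3 + 3 + 3 + 3 + 3 + 3 from rfl, h.2, h.2, h.2, h.2, h.2, h.2, h.2, h.2, h.2]

variable (R) in
/-- The fixed points of `nn ^ 3`. -/
noncomputable def E3 : LieSubalgebra R (Chev R) where
  carrier := {z | nn^[3] z = z}
  add_mem' := by
    intro z w hz hw
    change nn^[3] (z + w) = z + w
    rw [nn_iter_add, hz, hw]
  zero_mem' := by
    change nn^[3] (0 : Chev R) = 0
    have h := nn_iter_smul 3 (0 : R) (0 : Chev R)
    rwa [zero_smul, zero_smul] at h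
  smul_mem' := by
    intro c z hz
    change nn^[3] (c • z) = c • z
    rw [nn_iter_smul, hz]
  lie_mem' := by
    intro z w hz hw
    change nn^[3] ⁅z, w⁆ = ⁅z, w⁆
    rw [nn_iter_lie, hz, hw]

theorem mem_E3 {z : Chev R} : z ∈ E3 R ↔ nn^[3] z = z := Iff.rfl

/-- The index set of the coordinates. -/
abbrev Ix3 : Type := Fin 8 × Fin 3

theorem ofX_mem3 (c : Ix3 → R) : ofX (fun j i => c (j, Fin.ofNat 3 i)) ∈ E3 R := by
  rw [mem_E3, nn3_iff]
  refine ⟨rfl, fun j i => ?_⟩
  rw [X_ofX_mod, X_ofX_mod]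
  have h : (Fin.ofNat 3 ((i + 3) % 30)) = Fin.ofNat 3 (i % 30) := by
    apply Fin.ext
    change (i + 3) % 30 % 3 = i % 30 % 3
    omega
  rw [h]

variable (R) in
/-- Coordinates on `E3`. -/
noncomputable def crd3 : E3 R ≃ₗ[R] (Ix3 → R) where
  toFun z p := X z.1 p.1 p.2
  map_add' z w := by
    funext p
    exact X_add _ _ _ _
  map_smul' c z := by
    funext p
    exact X_smul _ _ _ _
  invFun c := ⟨ofX (fun j i => c (j, Fin.ofNat 3 i)), ofX_mem3 c⟩
  left_inv z := by
    apply Subtype.ext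
    have hz : nn^[3] z.1 = z.1 := z.2
    refine X_ext ?_ fun j i hi => ?_
    · rw [ofX_h, h_zero3 hz]
    · rw [X_ofX _ _ hi]
      exact X_mod3 hz j i
  right_inv c := by
    funext p
    change X (ofX fun j i => c (j, Fin.ofNat 3 i)) p.1 p.2 = c p
    rw [X_ofX _ _ (by omega)]
    congr 1
    exact Prod.ext rfl (Fin.ofNat_val_eq_self p.2)

theorem crd3_apply (z : E3 R) (p : Ix3) : crd3 R z p = X z.1 p.1 p.2 := rfl

theorem X_crd3 (z : E3 R) (j : Fin 8) (i : ℕ) : X z.1 j i = crd3 R z (j, Fin.ofNat 3 i) := by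
  rw [crd3_apply]
  exact (X_mod3 z.2 j i).symm

/-- The form in coordinates. -/
theorem bf_crd3 (z w : E3 R) : Chev.bf z.1 w.1 = -(10 * ∑ p : Ix3, crd3 R z p * crd3 R w p) := by
  rw [bf_X (h_zero3 z.2)]
  congr 1
  have h1 : ∀ i : ℕ, ∀ j, X z.1 j i * X w.1 j (i + 15) = X z.1 j (i % 3) * X w.1 j (i % 3) := by
    intro i j
    rw [X_mod3 z.2, X_mod3 w.2, show i + 15 = i + 3 + 3 + 3 + 3 + 3 from rfl, X_per3 w.2, X_per3 w.2, X_per3 w.2, X_per3 w.2,
      X_per3 w.2]
  simp only [h1]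
  have h2 : ∀ f : ℕ → R, ∑ i ∈ Finset.range 30, f (i % 3) = 10 * ∑ i : Fin 3, f i := by
    intro f
    simp only [Finset.sum_range_succ, Finset.sum_range_zero, Fin.sum_univ_three]
    norm_num
    ring
  rw [h2 (fun i => ∑ j : Fin 8, X z.1 j i * X w.1 j i), Fintype.sum_prod_type_right]
  rfl

end Pool.Agent.Helper73.E8.Xc
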