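import Pool.Agent.Helper73.E8.Xc.Defs

/-!
# The Lie algebra of the fixed points of `nn ^ 5` in orbit coordinates

`E5 R`: the `z : Chev R` with `nn^[5] z = z`; they have no Cartan part (`h_zero`) and their orbit coordinates `X z j i` are periodic in `i` with
period 5. `crd : E5 R ≃ₗ[R] (Fin 8 × Fin 5 → R)`.
-/

set_option autoImplicit false

namespace Pool.Agent.Helper73.E8.Xc

open Pool.Agent.Helper73.E8 Pool.Agent.Helper64.E8C

variable {R : Type*} [CommRing R]

theorem nn_iter_add (k : ℕ) (z w : Chev R) : nn^[k] (z + w) = nn^[k] z + nn^[k] w := by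
  induction k with
  | zero => rfl
  | succ k ih => rw [Function.iterate_succ_apply', Function.iterate_succ_apply', Function.iterate_succ_apply', ih, nn_add]

theorem nn_iter_smul (k : ℕ) (c : R) (z : Chev R) : nn^[k] (c • z) = c • nn^[k] z := by
  induction k with
  | zero => rfl
  | succ k ih => rw [Function.iterate_succ_apply', Function.iterate_succ_apply', ih, nn_smul]

theorem nn_iter_h_eq (k : ℕ) (z : Chev R) (j : Fin 8) : (nn^[k] z).h j = ∑ i, z.h i * ((W^[k] (al i)) j : R) := by
  induction k generalizing j with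
  | zero =>
    simp only [Function.iterate_zero, id_eq]
    rw [Finset.sum_eq_single j]
    · rw [al, Pi.single_eq_same, Int.cast_one, mul_one]
    · intro i _ hi
      rw [al, Pi.single_eq_of_ne hi.symm, Int.cast_zero, mul_zero]
    · intro h
      exact absurd (Finset.mem_univ _) h
  | succ k ih =>
    rw [Function.iterate_succ_apply']
    change ∑ l, (nn^[k] z).h l * (Wmat l j : R) = _
    simp only [ih, Finset.sum_mul]
    rw [Finset.sum_comm]
    refine Finset.sum_congr rfl fun i _ => ?_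
    rw [Function.iterate_succ_apply', W_apply]
    push_cast
    rw [Finset.mul_sum]
    refine Finset.sum_congr rfl fun l _ => ?_
    ring

theorem W_six (x : Lat) : W^[10] x = W^[5] x - x := by
  have h1 := W_phi x
  have h2 := W_phi (W x)
  have h3 := W_phi (W^[2] x)
  have h5 : W^[5] x = W^[2] (W^[3] x) := rfl
  simp only [Function.iterate_succ_apply, Function.iterate_zero, id_eq] at *
  linear_combination (exp := 1) h1 * 0 + h3 - h2 + h1

theorem h_zero {z : Chev R} (h : nn^[5] z = z) : z.h = 0 := by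
  have h10 : nn^[10] z = z := by
    rw [show (10 : ℕ) = 5 + 5 from rfl, Function.iterate_add_apply, h, h]
  funext j
  have h1 := nn_iter_h_eq 5 z j
  have h2 := nn_iter_h_eq 10 z j
  have h0 := nn_iter_h_eq 0 z j
  rw [h] at h1
  rw [h10] at h2
  simp only [Function.iterate_zero, id_eq] at h0
  have h3 : ∀ i : Fin 8, ((W^[10] (al i)) j : R) = ((W^[5] (al i)) j : R) - ((al i) j : R) := by
    intro i
    rw [W_six]
    push_cast [Pi.sub_apply]
    rfl
  simp only [h3, mul_sub, Finset.sum_sub_distrib] at h2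
  rw [← h1, ← h0, sub_self] at h2
  exact h2

theorem X_per {z : Chev R} (h : nn^[5] z = z) (j : Fin 8) (i : ℕ) : X z j (i + 5) = X z j i := by
  have h1 := X_nn_iter 5 z j i
  rwa [h] at h1

theorem X_mod5 {z : Chev R} (h : nn^[5] z = z) (j : Fin 8) (i : ℕ) : X z j (i % 5) = X z j i := by
  have h1 : ∀ n i : ℕ, X z j (i + 5 * n) = X z j i := by
    intro n
    induction n with
    | zero => intro i; rfl
    | succ n ih => intro i; rw [Nat.mul_succ, ← add_assoc, X_per h, ih]
  conv_rhs => rw [← Nat.mod_add_div i 5]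
  rw [h1]

theorem nn5_iff {z : Chev R} : nn^[5] z = z ↔ z.h = 0 ∧ ∀ j i, X z j (i + 5) = X z j i := by
  refine ⟨fun h => ⟨h_zero h, X_per h⟩, fun h => ?_⟩
  refine X_ext ?_ fun j i hi => ?_
  · rw [nn_iter_h 5 h.1, h.1]
  · have h1 := X_nn_iter 5 z j (i + 25)
    rw [show i + 25 + 5 = i + 30 from rfl, X_thirty] at h1
    rw [h1]
    rw [show i + 25 = i + 5 + 5 + 5 + 5 + 5 from rfl, h.2, h.2, h.2, h.2, h.2]

variable (R) in
/-- The fixed points of `nn ^ 5`. -/
noncomputable def E5 : LieSubalgebra R (Chev R) where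
  carrier := {z | nn^[5] z = z}
  add_mem' := by
    intro z w hz hw
    change nn^[5] (z + w) = z + w
    rw [nn_iter_add, hz, hw]
  zero_mem' := by
    change nn^[5] (0 : Chev R) = 0
    have h := nn_iter_smul 5 (0 : R) (0 : Chev R)
    rwa [zero_smul, zero_smul] at h
  smul_mem' := by
    intro c z hz
    change nn^[5] (c • z) = c • z
    rw [nn_iter_smul, hz]
  lie_mem' := by
    intro z w hz hw
    change nn^[5] ⁅z, w⁆ = ⁅z, w⁆
    rw [nn_iter_lie, hz, hw]

theorem mem_E5 {z : Chev R} : z ∈ E5 R ↔ nn^[5] z = z := Iff.rfl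

/-- The index set of the coordinates. -/
abbrev Ix : Type := Fin 8 × Fin 5

theorem ofX_mem (c : Ix → R) : ofX (fun j i => c (j, Fin.ofNat 5 i)) ∈ E5 R := by
  rw [mem_E5, nn5_iff]
  refine ⟨rfl, fun j i => ?_⟩
  rw [X_ofX_mod, X_ofX_mod]
  have h : (Fin.ofNat 5 ((i + 5) % 30)) = Fin.ofNat 5 (i % 30) := by
    apply Fin.ext
    change (i + 5) % 30 % 5 = i % 30 % 5
    omega
  rw [h]

variable (R) in
/-- Coordinates on `E5`. -/
noncomputable def crd : E5 R ≃ₗ[R] (Ix → R) where
  toFun z p := X z.1 p.1 p.2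
  map_add' z w := by
    funext p
    exact X_add _ _ _ _
  map_smul' c z := by
    funext p
    exact X_smul _ _ _ _
  invFun c := ⟨ofX (fun j i => c (j, Fin.ofNat 5 i)), ofX_mem c⟩
  left_inv z := by
    apply Subtype.ext
    have hz : nn^[5] z.1 = z.1 := z.2
    refine X_ext ?_ fun j i hi => ?_
    · rw [ofX_h, h_zero hz]
    · rw [X_ofX _ _ hi]
      exact X_mod5 hz j i
  right_inv c := by
    funext p
    change X (ofX fun j i => c (j, Fin.ofNat 5 i)) p.1 p.2 = c p
    rw [X_ofX _ _ (by omega)]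
    congr 1
    exact Prod.ext rfl (Fin.ofNat_val_eq_self p.2)

theorem crd_apply (z : E5 R) (p : Ix) : crd R z p = X z.1 p.1 p.2 := rfl

theorem X_crd (z : E5 R) (j : Fin 8) (i : ℕ) : X z.1 j i = crd R z (j, Fin.ofNat 5 i) := by
  rw [crd_apply]
  exact (X_mod5 z.2 j i).symm

/-- The form in coordinates. -/
theorem bf_crd (z w : E5 R) : Chev.bf z.1 w.1 = -(6 * ∑ p : Ix, crd R z p * crd R w p) := by
  rw [bf_X (h_zero z.2)]
  congr 1
  have h1 : ∀ i : ℕ, ∀ j, X z.1 j i * X w.1 j (i + 15) = X z.1 j (i % 5) * X w.1 j (i % 5) := by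
    intro i j
    rw [X_mod5 z.2, X_mod5 w.2, show i + 15 = i + 5 + 5 + 5 from rfl, X_per w.2, X_per w.2, X_per w.2]
  simp only [h1]
  have h2 : ∀ f : ℕ → R, ∑ i ∈ Finset.range 30, f (i % 5) = 6 * ∑ i : Fin 5, f i := by
    intro f
    simp only [Finset.sum_range_succ, Finset.sum_range_zero, Fin.sum_univ_five]
    norm_num
    ring
  rw [h2 (fun i => ∑ j : Fin 8, X z.1 j i * X w.1 j i), Fintype.sum_prod_type_right]
  rfl

end Pool.Agent.Helper73.E8.Xc
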