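import Pool.Agent.Helper60.E8Z.T5
import Pool.Agent.Helper60.E8Z.Kn5
import Pool.Agent.Helper73.E8.Xc.Kv

/-!
# Project E8Z, (E2): the action of the normaliser of `⟨t ^ 5⟩` on the fixed vectors of `t ^ 5`
-/

set_option autoImplicit false

open scoped TensorProduct Matrix

namespace Pool.Agent.Helper73.E8.Xc

open Pool.Agent.Helper73.E8 Pool.Agent.Helper64.E8C Pool.Agent.Helper73.E8.Ez Pool.Agent.Helper60.E8Z
open Pool.Agent.Helper2.E8A (K ζ σ)

/-! ### Linearity of `fF` -/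

theorem fF_cov (k : ℕ) (a b : ℕ → ℕ → ℤ) : fF k a b = ∑ j ∈ Finset.range 8, ∑ c ∈ Finset.range k,
    a j c * (31 * b j c - ((30 / k : ℕ) : ℤ) * ∑ c' ∈ Finset.range k, b j c') := by
  unfold fF
  generalize ((30 / k : ℕ) : ℤ) = w
  refine Finset.sum_congr rfl fun j _ => ?_
  simp only [mul_sub, Finset.sum_sub_distrib]
  congr 1
  · rw [Finset.mul_sum]
    exact Finset.sum_congr rfl fun c _ => by ring
  · rw [mul_comm w, mul_assoc, Finset.sum_mul]

theorem fF_congr_left {k : ℕ} {a a' : ℕ → ℕ → ℤ} (b : ℕ → ℕ → ℤ) (h : ∀ j < 8, ∀ c < k, a j c = a' j c) : fF k a b = fF k a' b := by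
  rw [fF_cov, fF_cov]
  refine Finset.sum_congr rfl fun j hj => Finset.sum_congr rfl fun c hc => ?_
  rw [h j (Finset.mem_range.1 hj) c (Finset.mem_range.1 hc)]

theorem fF_mul_left (k : ℕ) (m : ℤ) (a b : ℕ → ℕ → ℤ) : fF k (fun j c => m * a j c) b = m * fF k a b := by
  rw [fF_cov, fF_cov]
  simp only [Finset.mul_sum, mul_assoc]

theorem fF_sum_left (k : ℕ) {N : ℕ} (n : Fin N → ℤ) (a : Fin N → ℕ → ℕ → ℤ) (b : ℕ → ℕ → ℤ) :
    fF k (fun j c => ∑ i, n i * a i j c) b = ∑ i, n i * fF k (a i) b := by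
  rw [fF_cov]
  have h : ∀ j c, (∑ i, n i * a i j c) * (31 * b j c - ((30 / k : ℕ) : ℤ) * ∑ c' ∈ Finset.range k, b j c') =
      ∑ i, n i * (a i j c * (31 * b j c - ((30 / k : ℕ) : ℤ) * ∑ c' ∈ Finset.range k, b j c')) := by
    intro j c
    rw [Finset.sum_mul]
    exact Finset.sum_congr rfl fun i _ => mul_assoc _ _ _
  calc _ = ∑ j ∈ Finset.range 8, ∑ c ∈ Finset.range k, ∑ i, n i * (a i j c * (31 * b j c - ((30 / k : ℕ) : ℤ) * ∑ c' ∈ Finset.range k, b j c')) :=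
        Finset.sum_congr rfl fun j _ => Finset.sum_congr rfl fun c _ => h j c
    _ = ∑ j ∈ Finset.range 8, ∑ i, ∑ c ∈ Finset.range k, n i * (a i j c * (31 * b j c - ((30 / k : ℕ) : ℤ) * ∑ c' ∈ Finset.range k, b j c')) :=
        Finset.sum_congr rfl fun j _ => Finset.sum_comm
    _ = ∑ i, ∑ j ∈ Finset.range 8, ∑ c ∈ Finset.range k, n i * (a i j c * (31 * b j c - ((30 / k : ℕ) : ℤ) * ∑ c' ∈ Finset.range k, b j c')) :=
        Finset.sum_comm
    _ = _ := Finset.sum_congr rfl fun i _ => by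
        rw [fF_cov, Finset.mul_sum]
        exact Finset.sum_congr rfl fun j _ => (Finset.mul_sum _ _ _).symm

theorem getD_lf (fl : List (List (List ℤ))) (i j c : ℕ) : (fl.map fun f => lf f j c).getD i 0 = lf (fl.getD i []) j c := by
  have h : lf ([] : List (List ℤ)) j c = 0 := by
    unfold lf
    simp
  rw [← h]
  exact List.getD_map fl [] fun f => lf f j c

/-- The coordinates of an explicit vector in the frame. -/
theorem word_dot {k N : ℕ} {fl : List (List (List ℤ))} (hl : fl.length ≤ N) {D : ℤ} (h : Frm k N (fun i => lf (fl.getD i [])) D)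
    {m : ℤ} {v : List ℤ} {a : List (List ℤ)} (hc : ∀ j < 8, ∀ c < k, m * lf a j c = dotL v (fl.map fun f => lf f j c)) (l : Fin N) :
    m * fF k (lf a) (lf (fl.getD l [])) = v.getD l 0 * D ^ 2 := by
  rw [← fF_mul_left, fF_congr_left (a' := fun j c => ∑ i : Fin N, v.getD i 0 * lf (fl.getD i []) j c), fF_sum_left, Finset.sum_eq_single l]
  · rw [h.gram l l.2 l l.2, if_pos rfl]
  · intro i _ hi
    rw [h.gram i i.2 l l.2, if_neg (fun e => hi (Fin.ext e)), mul_zero]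
  · intro hh
    exact absurd (Finset.mem_univ _) hh
  · intro j hj c hcc
    rw [hc j hj c hcc, dotL_fin (N := N) (Or.inr (by rw [List.length_map]; exact hl))]
    exact Finset.sum_congr rfl fun i _ => by rw [getD_lf]

/-- The frame of `L ^ (t ^ 5)`. -/
def fr5 (i : ℕ) : ℕ → ℕ → ℤ := lf (fw5.getD i [])

theorem frm5 : Frm 5 40 fr5 1860 where
  hk := by norm_num
  hN := by norm_num
  hD := by norm_num
  gram := gram5

theorem fw5_len : fw5.length ≤ 40 := by decide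

variable {L : Type} [LieRing L] [Module.Free ℤ L] [Module.Finite ℤ L] {B : LinearMap.BilinForm ℤ L}

/-- The lattice in the coordinates of the frame. -/
noncomputable def M5 {t : AutL L} (F : LF B t 5) : AddSubgroup (Fin 40 → ℚ) :=
  (Ufix (t ^ 5)).map (phi B (fun i : Fin 40 => vec F.E 5 (fr5 i)) ((30 / 5 : ℕ) : ℤ) 1860)

theorem mem5 (hL : IsLat L B) {t : AutL L} (F : LF B t 5) {v : List ℤ} {a : List (List ℤ)} {m : ℤ} {r : ℚ} (h1 : chkW5 m v a = true)
    (h2 : chkMem (ex30 5 a) = true) (hm : (m : ℚ) * r = 60) : r • vq 40 v ∈ M5 F := by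
  have hm0 : (m : ℚ) ≠ 0 := by
    intro h
    rw [h] at hm
    norm_num at hm
  refine mem_M hL (Or.inr rfl) F frm5 h2 fun i => ?_
  have h3 := word_dot (k := 5) (N := 40) fw5_len frm5 (m := m) (v := v) (a := a) (by
    intro j hj c hc
    have h4 := allN_iff.1 (allN_iff.1 h1 j hj) c hc
    rwa [beq_iff_eq] at h4) i
  have h4 : (m : ℚ) * ((fF 5 (lf a) (fr5 i) : ℤ) : ℚ) = (v.getD i 0 : ℤ) * 1860 ^ 2 := by
    exact_mod_cast h3
  apply mul_left_cancel₀ hm0
  rw [h4]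
  change _ = (m : ℚ) * (31 * ((1860 : ℤ) : ℚ) * (r * ((v.getD i 0 : ℤ) : ℚ)))
  push_cast
  linear_combination (-(31 * 1860 * ((v.getD i 0 : ℤ) : ℚ))) * hm

variable (C : Core L B)

theorem zpow_fix {g z : AutL L} (hz : z ∈ Subgroup.zpowers g) {u : L} (hu : g.1 u = u) : z.1 u = u := by
  let S : Subgroup (AutL L) :=
    { carrier := {z | z.1 u = u}
      mul_mem' := by
        intro a b ha hb
        change a.1 u = u at ha
        change b.1 u = u at hb
        change a.1 (b.1 u) = u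
        rw [hb, ha]
      one_mem' := rfl
      inv_mem' := by
        intro a ha
        change a.1 u = u at ha
        change (a⁻¹).1 u = u
        have h1 : (a⁻¹).1 (a.1 u) = u := a.1.symm_apply_apply u
        rwa [ha] at h1 }
  exact (Subgroup.zpowers_le.2 (show g ∈ S from hu)) hz

theorem norm_fix {t y : AutL L} [Finite (AutL L)] (hy : y * t ^ 5 * y⁻¹ ∈ Subgroup.zpowers (t ^ 5)) {u : L} (hu : u ∈ Ufix (t ^ 5)) :
    y.1 u ∈ Ufix (t ^ 5) := by
  have h1 := zpow_fix (conj_inv hy) (u := u) hu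
  change y⁻¹.1 ((t ^ 5).1 (y.1 u)) = u at h1
  have h2 : y.1 (y⁻¹.1 ((t ^ 5).1 (y.1 u))) = (t ^ 5).1 (y.1 u) := y.1.apply_symm_apply _
  rw [h1] at h2
  exact h2.symm

/-- An automorphism as a homomorphism of additive groups. -/
def aut (y : AutL L) : L →+ L := y.1.toLinearMap.toAddMonoidHom

theorem aut_apply (y : AutL L) (u : L) : aut y u = y.1 u := rfl

/-- The orthogonal frame of the fixed vectors of `t ^ 5`. -/
theorem onf5 (F : LF B C.t 5) : Onf B (Ufix (C.t ^ 5)) 40 (fun i : Fin 40 => vec F.E 5 (fr5 i)) ((30 / 5 : ℕ) : ℤ) 1860 :=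
  onf C.hL (Or.inr rfl) F frm5

theorem kap_fr (hη : C.η = et) (hper : ∀ c, per 5 (c % 5) = per 5 c) (F : LF B C.t 5)
    (hco : ∀ (a : ℕ → ℕ → ℤ) (j : Fin 8) (i : ℕ), X (C.co (vec F.E 5 a)) j i = ∑ c ∈ Finset.range 5, (a j c : K) * per 5 (c + i))
    (i j : Fin 40) : kap5 C (vec F.E 5 (fr5 i)) (vec F.E 5 (fr5 j)) = ((-2 * ((1860 : ℤ) : ℚ) ^ 2 * mq 40 g3T i j : ℚ) : K) := by
  rw [kap5_apply, kf5_vec C hη hper F hco]
  have h1 : fF 5 (fr5 i) (kpF 5 q (fr5 j)) = -2 * 1860 ^ 2 * en2 g3T i j := by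
    rw [fF_kp, ← kil5b i i.2 j j.2]
    refine Finset.sum_congr rfl fun p hp => Finset.sum_congr rfl fun c hc => ?_
    rw [← kil5a j j.2 p (Finset.mem_range.1 hp) c (Finset.mem_range.1 hc)]
    congr 1
  rw [h1]
  unfold mq
  push_cast
  ring

/-- The action on the frame. -/
theorem act5 (hη : C.η = et) (hper : ∀ c, per 5 (c % 5) = per 5 c) (F : LF B C.t 5)
    (hco : ∀ (a : ℕ → ℕ → ℤ) (j : Fin 8) (i : ℕ), X (C.co (vec F.E 5 a)) j i = ∑ c ∈ Finset.range 5, (a j c : K) * per 5 (c + i))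
    {y : AutL L} (hy : y * C.t ^ 5 * y⁻¹ ∈ Subgroup.zpowers (C.t ^ 5)) : ∃ (n : ℕ) (s : ℤ), (s = 1 ∨ s = -1) ∧
      ∀ i : Fin 40, y.1 (vec F.E 5 (fr5 i)) = s • vec F.E 5 (fr5 (delF^[n] i)) := by
  have : Finite (AutL L) := AutL_finite C.hL
  have h := onf5 C F
  have hyU : ∀ u ∈ Ufix (C.t ^ 5), aut y u ∈ Ufix (C.t ^ 5) := fun u hu => norm_fix hy hu
  obtain ⟨n, s, hs, hn⟩ := T5 (M5 F) h.int'
    (fun i hi => mem5 C.hL F (allN_iff.1 g3w_chk i hi) (allN_iff.1 g3w_mem i hi) (by norm_num))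
    (fun i hi => mem5 C.hL F (allN_iff.1 g2w_chk i hi) (allN_iff.1 g2w_mem i hi) (by norm_num))
    (fun i hi => mem5 C.hL F (allN_iff.1 g5w_chk i hi) (allN_iff.1 g5w_mem i hi) (by norm_num))
    (fun i hi => by
      have h1 := mem5 C.hL F (r := 1) (allN_iff.1 cb5w_chk i hi) (allN_iff.1 cb5w_mem i hi) (by norm_num)
      rwa [one_smul] at h1)
    (fun i hi => by
      have h1 := mem5 C.hL F (r := 1) (allN_iff.1 ca5w_chk i hi) (allN_iff.1 ca5w_mem i hi) (by norm_num)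
      rwa [one_smul] at h1)
    (Yl B (fun i : Fin 40 => vec F.E 5 (fr5 i)) ((30 / 5 : ℕ) : ℤ) 1860 (aut y)) (h.YM (aut y) hyU)
    (h.Yo (aut y) hyU fun u w => AutL_B C.hL y u w)
    (h.YS (aut y) hyU (kap5 C) (c := -2) (by norm_num) (kap_fr C hη hper F hco) fun u hu w hw => kf5_inv C hη hy hu hw)
  exact ⟨n, s, hs, fun i => h.y_v (aut y) hyU (hn i)⟩

end Pool.Agent.Helper73.E8.Xc
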