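import Pool.Agent.Helper73.E8.Xc.Kq
import Pool.Agent.Helper73.E8.CoreOf
import Pool.Agent.Helper73.E8.Ct

/-!
# The action of `AutL L` on `Chev K` and on `E5 K`
-/

set_option autoImplicit false

open scoped TensorProduct

namespace Pool.Agent.Helper73.E8.Xc

open Pool.Agent.Helper73.E8 Pool.Agent.Helper64.E8C Pool.Agent.Helper73.E8.Ez
open Pool.Agent.Helper2.E8A (K ζ σ)

variable {L : Type} [LieRing L] [Module.Free ℤ L] [Module.Finite ℤ L] {B : LinearMap.BilinForm ℤ L} (C : Core L B)

/-- The `K`-linear extension of `y`, in the coordinates of `Chev K`. -/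
noncomputable def hat (y : AutL L) (z : Chev K) : Chev K := C.f (cG K (toLie y : L →ₗ⁅ℤ⁆ L) (C.f.symm z))

theorem hat_co (y : AutL L) (x : L) : hat C y (C.co x) = C.co (y.1 x) := by
  unfold hat Core.co
  rw [LieEquiv.symm_apply_apply, cG_tmul]
  rfl

theorem hat_add (y : AutL L) (z w : Chev K) : hat C y (z + w) = hat C y z + hat C y w := by
  unfold hat
  rw [map_add, map_add, map_add]

theorem hat_smul (y : AutL L) (c : K) (z : Chev K) : hat C y (c • z) = c • hat C y z := by
  unfold hat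
  rw [map_smul, cG_smul, map_smul]

theorem hat_lie (y : AutL L) (z w : Chev K) : hat C y ⁅z, w⁆ = ⁅hat C y z, hat C y w⁆ := by
  unfold hat
  have h0 : C.f.symm ⁅z, w⁆ = ⁅C.f.symm z, C.f.symm w⁆ := LieEquiv.map_lie C.f.symm z w
  have h1 : cG K (toLie y : L →ₗ⁅ℤ⁆ L) ⁅C.f.symm z, C.f.symm w⁆ =
      ⁅cG K (toLie y : L →ₗ⁅ℤ⁆ L) (C.f.symm z), cG K (toLie y : L →ₗ⁅ℤ⁆ L) (C.f.symm w)⁆ := LieHom.map_lie _ _ _
  rw [h0, h1]
  exact LieEquiv.map_lie C.f _ _

/-- Induction over `K ⊗ L`. -/
theorem co_ind {P : Chev K → Prop} (hadd : ∀ z w, P z → P w → P (z + w)) (hco : ∀ (c : K) (x : L), P (c • C.co x)) (z : Chev K) :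
    P z := by
  obtain ⟨v, rfl⟩ := C.f.surjective z
  induction v using TensorProduct.induction_on with
  | zero =>
    have h := hco 0 0
    rw [zero_smul] at h
    rwa [map_zero]
  | tmul a x =>
    have h := hco a x
    rwa [Core.co, ← map_smul, TensorProduct.smul_tmul', smul_eq_mul, mul_one] at h
  | add v w hv hw =>
    rw [map_add]
    exact hadd _ _ hv hw

theorem hat_mul (y y' : AutL L) (z : Chev K) : hat C (y * y') z = hat C y (hat C y' z) := by
  induction z using co_ind C with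
  | hadd z w hz hw => rw [hat_add, hz, hw, hat_add, hat_add]
  | hco c x =>
    rw [hat_smul, hat_co, hat_smul, hat_smul, hat_co, hat_co]
    rfl

theorem hat_one (z : Chev K) : hat C 1 z = z := by
  induction z using co_ind C with
  | hadd z w hz hw => rw [hat_add, hz, hw]
  | hco c x =>
    rw [hat_smul, hat_co]
    rfl

theorem hat_bf (y : AutL L) (z w : Chev K) : Chev.bf (hat C y z) (hat C y w) = Chev.bf z w := by
  induction z using co_ind C with
  | hadd z z' hz hz' => rw [hat_add, Chev.bf_add_left, hz, hz', Chev.bf_add_left]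
  | hco c x =>
    rw [hat_smul, Chev.bf_smul_left, Chev.bf_smul_left]
    congr 1
    induction w using co_ind C with
    | hadd z z' hz hz' => rw [hat_add, Chev.bf_add_right, hz, hz', Chev.bf_add_right]
    | hco c x' =>
      rw [hat_smul, Chev.bf_smul_right, Chev.bf_smul_right, hat_co, hat_co]
      congr 1
      have h1 := C.bf (y.1 x) (y.1 x')
      have h2 := C.bf x x'
      rw [AutL_B C.hL] at h1
      have h3 := h1.symm.trans h2
      exact neg_injective h3

theorem hat_inv (y : AutL L) (z : Chev K) : hat C y (hat C y⁻¹ z) = z := by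
  rw [← hat_mul, mul_inv_cancel, hat_one]

theorem hat_inv' (y : AutL L) (z : Chev K) : hat C y⁻¹ (hat C y z) = z := by
  rw [← hat_mul, inv_mul_cancel, hat_one]

theorem co_Fx (hη : C.η = et) (x : L) : Fx σ (C.co x) := by
  have h := C.co_sV x
  rw [hη] at h
  exact (fx_iff _).2 h

theorem nn_hat_t (hη : C.η = et) (z : Chev K) : nn (hat C C.t z) = z := by
  induction z using co_ind C with
  | hadd z w hz hw => rw [hat_add, nn_add, hz, hw]
  | hco c x =>
    rw [hat_smul, nn_smul, hat_co, C.co_t]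
    congr 1
    exact (Fx_iff _ _).1 (co_Fx C hη x)

theorem hat_t_nn (hη : C.η = et) (z : Chev K) : hat C C.t (nn z) = z := by
  have h := nn_hat_t C hη (hat C C.t⁻¹ z)
  rw [hat_inv] at h
  rw [h, hat_inv]

theorem nn_hat_t_pow (hη : C.η = et) (k : ℕ) (z : Chev K) : nn^[k] (hat C (C.t ^ k) z) = z := by
  induction k generalizing z with
  | zero => rw [pow_zero, hat_one]; rfl
  | succ k ih => rw [Function.iterate_succ_apply, pow_succ', hat_mul, nn_hat_t C hη, ih]

theorem hat_t_pow_nn (hη : C.η = et) (k : ℕ) (z : Chev K) : hat C (C.t ^ k) (nn^[k] z) = z := by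
  induction k generalizing z with
  | zero => rw [pow_zero, hat_one]; rfl
  | succ k ih => rw [Function.iterate_succ_apply', pow_succ, hat_mul, hat_t_nn C hη, ih]

theorem mem_E5_iff (hη : C.η = et) (z : Chev K) : z ∈ E5 K ↔ hat C (C.t ^ 5) z = z := by
  rw [mem_E5]
  constructor
  · intro h
    have h1 := hat_t_pow_nn C hη 5 z
    rwa [h] at h1
  · intro h
    have h1 := nn_hat_t_pow C hη 5 z
    rwa [h] at h1

theorem hat_zpowers {g h : AutL L} {z : Chev K} (hz : hat C g z = z) (hh : h ∈ Subgroup.zpowers g) : hat C h z = z := by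
  have : Finite (AutL L) := AutL_finite C.hL
  rw [← mem_powers_iff_mem_zpowers] at hh
  obtain ⟨n, rfl⟩ := hh
  change hat C (g ^ n) z = z
  induction n with
  | zero => rw [pow_zero, hat_one]
  | succ n ih => rw [pow_succ', hat_mul, ih, hz]

/-- If conjugation by `y` maps `⟨g⟩` to itself, the same holds for `y⁻¹`. -/
theorem conj_inv {G : Type*} [Group G] [Finite G] {y g : G} (hy : y * g * y⁻¹ ∈ Subgroup.zpowers g) :
    y⁻¹ * g * y ∈ Subgroup.zpowers g := by
  have h1 : (Subgroup.zpowers g).map (MulAut.conj y).toMonoidHom ≤ Subgroup.zpowers g := by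
    rw [MonoidHom.map_zpowers, Subgroup.zpowers_le]
    exact hy
  have h2 : (Subgroup.zpowers g).map (MulAut.conj y).toMonoidHom = Subgroup.zpowers g := by
    refine Subgroup.eq_of_le_of_card_ge h1 ?_
    rw [Subgroup.card_map_of_injective (MulAut.conj y).injective]
  have h3 : g ∈ (Subgroup.zpowers g).map (MulAut.conj y).toMonoidHom := by
    rw [h2]
    exact Subgroup.mem_zpowers g
  obtain ⟨h, hh, hh2⟩ := h3
  have h4 : y * h * y⁻¹ = g := hh2
  have h5 : y⁻¹ * g * y = h := by
    rw [← h4]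
    group
  rw [h5]
  exact hh

theorem hat_mem (hη : C.η = et) {y : AutL L} (hy : y * C.t ^ 5 * y⁻¹ ∈ Subgroup.zpowers (C.t ^ 5)) {z : Chev K}
    (hz : z ∈ E5 K) : hat C y z ∈ E5 K := by
  have : Finite (AutL L) := AutL_finite C.hL
  rw [mem_E5_iff C hη] at hz ⊢
  have h1 := hat_zpowers C hz (conj_inv hy)
  have h2 : C.t ^ 5 * y = y * (y⁻¹ * C.t ^ 5 * y) := by group
  rw [← hat_mul, h2, hat_mul, h1]

/-- The action on `E5`. -/
noncomputable def hat5 (hη : C.η = et) (y : AutL L) (hy : y * C.t ^ 5 * y⁻¹ ∈ Subgroup.zpowers (C.t ^ 5)) : E5 K ≃ₗ⁅K⁆ E5 K where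
  toFun z := ⟨hat C y z.1, hat_mem C hη hy z.2⟩
  map_add' z w := Subtype.ext (hat_add C y _ _)
  map_smul' c z := Subtype.ext (hat_smul C y _ _)
  map_lie' {z w} := Subtype.ext (hat_lie C y _ _)
  invFun z := ⟨hat C y⁻¹ z.1, hat_mem C hη (y := y⁻¹) (by
    have : Finite (AutL L) := AutL_finite C.hL
    rw [inv_inv]
    exact conj_inv hy) z.2⟩
  left_inv z := Subtype.ext (hat_inv' C y _)
  right_inv z := Subtype.ext (hat_inv C y _)

theorem hat5_val (hη : C.η = et) {y : AutL L} (hy : y * C.t ^ 5 * y⁻¹ ∈ Subgroup.zpowers (C.t ^ 5)) (z : E5 K) :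
    (hat5 C hη y hy z).1 = hat C y z.1 := rfl

end Pool.Agent.Helper73.E8.Xc
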