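import Pool.Agent.Helper73.E8.Xc.Kq3
import Pool.Agent.Helper73.E8.Xc.Hat

/-!
# The action of `AutL L` on `E3 K`; invariance of the two Killing forms
-/

set_option autoImplicit false

open scoped TensorProduct

namespace Pool.Agent.Helper73.E8.Xc

open Pool.Agent.Helper73.E8 Pool.Agent.Helper64.E8C Pool.Agent.Helper73.E8.Ez
open Pool.Agent.Helper2.E8A (K ζ σ)

variable {L : Type} [LieRing L] [Module.Free ℤ L] [Module.Finite ℤ L] {B : LinearMap.BilinForm ℤ L} (C : Core L B)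

theorem mem_E3_iff (hη : C.η = et) (z : Chev K) : z ∈ E3 K ↔ hat C (C.t ^ 3) z = z := by
  rw [mem_E3]
  constructor
  · intro h
    have h1 := hat_t_pow_nn C hη 3 z
    rwa [h] at h1
  · intro h
    have h1 := nn_hat_t_pow C hη 3 z
    rwa [h] at h1

theorem hat_mem3 (hη : C.η = et) {y : AutL L} (hy : y * C.t ^ 3 * y⁻¹ ∈ Subgroup.zpowers (C.t ^ 3)) {z : Chev K}
    (hz : z ∈ E3 K) : hat C y z ∈ E3 K := by
  have : Finite (AutL L) := AutL_finite C.hL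
  rw [mem_E3_iff C hη] at hz ⊢
  have h1 := hat_zpowers C hz (conj_inv hy)
  have h2 : C.t ^ 3 * y = y * (y⁻¹ * C.t ^ 3 * y) := by group
  rw [← hat_mul, h2, hat_mul, h1]

/-- The action on `E3`. -/
noncomputable def hat3 (hη : C.η = et) (y : AutL L) (hy : y * C.t ^ 3 * y⁻¹ ∈ Subgroup.zpowers (C.t ^ 3)) : E3 K ≃ₗ⁅K⁆ E3 K where
  toFun z := ⟨hat C y z.1, hat_mem3 C hη hy z.2⟩
  map_add' z w := Subtype.ext (hat_add C y _ _)
  map_smul' c z := Subtype.ext (hat_smul C y _ _)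
  map_lie' {z w} := Subtype.ext (hat_lie C y _ _)
  invFun z := ⟨hat C y⁻¹ z.1, hat_mem3 C hη (y := y⁻¹) (by
    have : Finite (AutL L) := AutL_finite C.hL
    rw [inv_inv]
    exact conj_inv hy) z.2⟩
  left_inv z := Subtype.ext (hat_inv' C y _)
  right_inv z := Subtype.ext (hat_inv C y _)

theorem hat3_val (hη : C.η = et) {y : AutL L} (hy : y * C.t ^ 3 * y⁻¹ ∈ Subgroup.zpowers (C.t ^ 3)) (z : E3 K) :
    (hat3 C hη y hy z).1 = hat C y z.1 := rfl

/-- Fixed vectors of `t ^ 5` as elements of `E5`. -/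
theorem co_mem5 (hη : C.η = et) {x : L} (hx : (C.t ^ 5).1 x = x) : C.co x ∈ E5 K := by
  rw [mem_E5_iff C hη, hat_co, hx]

theorem co_mem3 (hη : C.η = et) {x : L} (hx : (C.t ^ 3).1 x = x) : C.co x ∈ E3 K := by
  rw [mem_E3_iff C hη, hat_co, hx]

/-- The Killing form of the fixed vectors of `t ^ 5` in orbit coordinates. -/
noncomputable def kf5 (z w : Chev K) : K := ∑ i : Fin 8, ∑ j : Fin 8, ∑ d : Fin 5, (q i j d : K) * ∑ k : Fin 5, X z i k * X w j (k + d : Fin 5)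

/-- The Killing form of the fixed vectors of `t ^ 3` in orbit coordinates. -/
noncomputable def kf3 (z w : Chev K) : K := ∑ i : Fin 8, ∑ j : Fin 8, ∑ d : Fin 3, (q3 i j d : K) * ∑ k : Fin 3, X z i k * X w j (k + d : Fin 3)

/-- Invariance of the Killing form on the fixed vectors of `t ^ 5`. -/
theorem kf5_inv (hη : C.η = et) {y : AutL L} (hy : y * C.t ^ 5 * y⁻¹ ∈ Subgroup.zpowers (C.t ^ 5)) {u v : L}
    (hu : (C.t ^ 5).1 u = u) (hv : (C.t ^ 5).1 v = v) : kf5 (C.co (y.1 u)) (C.co (y.1 v)) = kf5 (C.co u) (C.co v) := by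
  have h1 := killing_q (R := K) ⟨C.co u, co_mem5 C hη hu⟩ ⟨C.co v, co_mem5 C hη hv⟩
  have h2 := killing_q (R := K) (hat5 C hη y hy ⟨C.co u, co_mem5 C hη hu⟩) (hat5 C hη y hy ⟨C.co v, co_mem5 C hη hv⟩)
  rw [LieAlgebra.killingForm_of_equiv_apply (hat5 C hη y hy)] at h2
  rw [h1] at h2
  rw [← hat_co, ← hat_co]
  exact h2.symm

/-- Invariance of the Killing form on the fixed vectors of `t ^ 3`. -/
theorem kf3_inv (hη : C.η = et) {y : AutL L} (hy : y * C.t ^ 3 * y⁻¹ ∈ Subgroup.zpowers (C.t ^ 3)) {u v : L}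
    (hu : (C.t ^ 3).1 u = u) (hv : (C.t ^ 3).1 v = v) : kf3 (C.co (y.1 u)) (C.co (y.1 v)) = kf3 (C.co u) (C.co v) := by
  have h1 := killing_q3 (R := K) ⟨C.co u, co_mem3 C hη hu⟩ ⟨C.co v, co_mem3 C hη hv⟩
  have h2 := killing_q3 (R := K) (hat3 C hη y hy ⟨C.co u, co_mem3 C hη hu⟩) (hat3 C hη y hy ⟨C.co v, co_mem3 C hη hv⟩)
  rw [LieAlgebra.killingForm_of_equiv_apply (hat3 C hη y hy)] at h2
  rw [h1] at h2
  rw [← hat_co, ← hat_co]
  exact h2.symm

end Pool.Agent.Helper73.E8.Xc
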