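import Pool.Agent.Helper73.E8.Xc.E3
import Pool.Agent.Helper73.E8.Xc.Kil

/-!
# The Killing form of the Lie algebra `E3` in orbit coordinates
-/

set_option autoImplicit false

namespace Pool.Agent.Helper73.E8.Xc

open Pool.Agent.Helper73.E8 Pool.Agent.Helper64.E8C

variable {R : Type*} [CommRing R]

/-- Bracket in coordinates. -/
theorem crd_lie3 (z w : E3 R) (p : Fin 8) (r : Fin 3) : crd3 R ⁅z, w⁆ (p, r) =
    ((tab.getD p []).map fun e => (sgn e : R) * crd3 R z (Fin.ofNat 8 e.1, Fin.ofNat 3 e.2.1 + r) *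
      crd3 R w (Fin.ofNat 8 e.2.2.1, Fin.ofNat 3 e.2.2.2.1 + r)).sum := by
  rw [crd3_apply]
  change X ⁅z.1, w.1⁆ p r = _
  rw [X_lie (h_zero3 z.2) (h_zero3 w.2)]
  congr 1
  refine List.map_congr_left fun e _ => ?_
  rw [X_crd3, X_crd3]
  have h : ∀ a : ℕ, Fin.ofNat 3 (a + (r : ℕ)) = Fin.ofNat 3 a + r := by
    intro a
    apply Fin.ext
    rw [Fin.val_add]
    change (a + (r : ℕ)) % 3 = (a % 3 + r) % 3
    omega
  rw [h, h]

/-- The basis vectors. -/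
noncomputable def bv3 (P : Ix3) : E3 R := (crd3 R).symm (Pi.single P 1)

theorem crd_bv3 (P Q : Ix3) : crd3 R (bv3 P) Q = if Q = P then 1 else 0 := by
  rw [bv3, LinearEquiv.apply_symm_apply, Pi.single_apply]

theorem killing_eq3 (x y : E3 R) : killingForm R (E3 R) x y = ∑ P : Ix3, crd3 R ⁅x, ⁅y, bv3 P⁆⁆ P := by
  classical
  rw [killingForm_apply_apply, LinearMap.trace_eq_matrix_trace R (Module.Basis.ofEquivFun (crd3 R))]
  unfold Matrix.trace
  refine Finset.sum_congr rfl fun P _ => ?_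
  rw [Matrix.diag_apply, LinearMap.toMatrix_apply, Module.Basis.ofEquivFun_repr_apply, Module.Basis.coe_ofEquivFun]
  simp only [LinearMap.comp_apply, LieAlgebra.ad_apply]
  rfl

/-- The list of the pairs of entries which contribute to the trace: sign, indices `i`, `i'`, `d`. -/
def kl3 : List (ℤ × ℕ × ℕ × ℕ) := (List.range 8).flatMap fun p => (tab.getD p []).flatMap fun e =>
  ((tab.getD e.2.2.1 []).filter fun e' => e'.2.2.1 == p && (e'.2.2.2.1 + e.2.2.2.1) % 3 == 0).map fun e' =>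
    (sgn e * sgn e', e.1, e'.1, (e'.2.1 + e.2.2.2.1 + 2 * e.2.1) % 3)

/-- Products with shift. -/
def Pr3 (x y : Ix3 → R) (i i' : Fin 8) (d : Fin 3) : R := ∑ k : Fin 3, x (i, k) * y (i', k + d)

theorem Pr_shift3 (x y : Ix3 → R) (i i' : Fin 8) (a b : Fin 3) :
    ∑ r : Fin 3, x (i, a + r) * y (i', b + r) = Pr3 x y i i' (b - a) := by
  unfold Pr3
  rw [← Equiv.sum_comp (Equiv.addLeft a) fun k => x (i, k) * y (i', k + (b - a))]
  refine Finset.sum_congr rfl fun r _ => ?_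
  rw [Equiv.coe_addLeft, show a + r + (b - a) = b + r by abel]

theorem killing_kl3 (x y : E3 R) : killingForm R (E3 R) x y =
    (kl3.map fun c => (c.1 : R) * Pr3 (crd3 R x) (crd3 R y) (Fin.ofNat 8 c.2.1) (Fin.ofNat 8 c.2.2.1) (Fin.ofNat 3 c.2.2.2)).sum := by
  rw [killing_eq3, Fintype.sum_prod_type]
  unfold kl3
  rw [sum_flatMap', sum_range8]
  refine Finset.sum_congr rfl fun p _ => ?_
  simp only [crd_lie3]
  rw [sum_list_comm, sum_flatMap']
  congr 1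
  refine List.map_congr_left fun e he => ?_
  rw [List.map_map, sum_filter']
  simp only [Function.comp_apply]
  have hlt := tab_lt p he
  have h8 : ((Fin.ofNat 8 e.2.2.1 : Fin 8) : ℕ) = e.2.2.1 := Nat.mod_eq_of_lt hlt.2
  rw [h8]
  simp only [crd_bv3]
  have h1 : ∀ r : Fin 3, (sgn e : R) * crd3 R x (Fin.ofNat 8 e.1, Fin.ofNat 3 e.2.1 + r) *
      ((tab.getD e.2.2.1 []).map fun e' => (sgn e' : R) * crd3 R y (Fin.ofNat 8 e'.1, Fin.ofNat 3 e'.2.1 +
        (Fin.ofNat 3 e.2.2.2.1 + r)) * (if (Fin.ofNat 8 e'.2.2.1, Fin.ofNat 3 e'.2.2.2.1 + (Fin.ofNat 3 e.2.2.2.1 + r)) =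
          (p, r) then 1 else 0)).sum =
      ((tab.getD e.2.2.1 []).map fun e' => (sgn e : R) * crd3 R x (Fin.ofNat 8 e.1, Fin.ofNat 3 e.2.1 + r) *
        ((sgn e' : R) * crd3 R y (Fin.ofNat 8 e'.1, Fin.ofNat 3 e'.2.1 +
        (Fin.ofNat 3 e.2.2.2.1 + r)) * (if (Fin.ofNat 8 e'.2.2.1, Fin.ofNat 3 e'.2.2.2.1 + (Fin.ofNat 3 e.2.2.2.1 + r)) =
          (p, r) then 1 else 0))).sum := by
    intro r
    rw [List.sum_map_mul_left]
  simp only [h1]
  rw [sum_list_comm]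
  congr 1
  refine List.map_congr_left fun e' he' => ?_
  have he2 : e' ∈ tab.getD ((Fin.ofNat 8 e.2.2.1 : Fin 8) : ℕ) [] := by rwa [h8]
  have hlt' := tab_lt _ he2
  have hc : ∀ r : Fin 3, ((Fin.ofNat 8 e'.2.2.1, Fin.ofNat 3 e'.2.2.2.1 + (Fin.ofNat 3 e.2.2.2.1 + r)) = (p, r)) ↔
      (e'.2.2.1 == (p : ℕ) && (e'.2.2.2.1 + e.2.2.2.1) % 3 == 0) = true := by
    intro r
    rw [Bool.and_eq_true, beq_iff_eq, beq_iff_eq, Prod.mk.injEq]
    refine and_congr ?_ ?_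
    · rw [Fin.ext_iff, Fin.val_ofNat, Nat.mod_eq_of_lt hlt'.2]
    · rw [Fin.ext_iff, Fin.val_add, Fin.val_add, Fin.val_ofNat, Fin.val_ofNat]
      have := r.2
      omega
  simp only [hc]
  split_ifs with h
  · simp only [mul_one]
    have h2 : ∀ r : Fin 3, (sgn e : R) * crd3 R x (Fin.ofNat 8 e.1, Fin.ofNat 3 e.2.1 + r) *
        ((sgn e' : R) * crd3 R y (Fin.ofNat 8 e'.1, Fin.ofNat 3 e'.2.1 + (Fin.ofNat 3 e.2.2.2.1 + r))) =
        ((sgn e : R) * (sgn e' : R)) * (crd3 R x (Fin.ofNat 8 e.1, Fin.ofNat 3 e.2.1 + r) *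
          crd3 R y (Fin.ofNat 8 e'.1, (Fin.ofNat 3 e'.2.1 + Fin.ofNat 3 e.2.2.2.1) + r)) := by
      intro r
      rw [← add_assoc]
      ring
    simp only [h2]
    rw [← Finset.mul_sum, Pr_shift3]
    have h3 : Fin.ofNat 3 e'.2.1 + Fin.ofNat 3 e.2.2.2.1 - Fin.ofNat 3 e.2.1 =
        Fin.ofNat 3 ((e'.2.1 + e.2.2.2.1 + 2 * e.2.1) % 3) := by
      rw [sub_eq_iff_eq_add]
      apply Fin.ext
      rw [Fin.val_add, Fin.val_add, Fin.val_ofNat, Fin.val_ofNat, Fin.val_ofNat, Fin.val_ofNat]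
      omega
    rw [h3]
    push_cast
    rfl
  · simp

end Pool.Agent.Helper73.E8.Xc
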