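import Pool.Agent.Helper64.E8C.Mem
import Pool.Agent.Helper58.E8Z.Base

/-!
# Project E8Z, (E2): a quick check for periodic vectors

`chkP k l` implies `chkMem (ex30 k l)`.
-/

set_option autoImplicit false

namespace Pool.Agent.Helper73.E8.Xc

open Pool.Agent.Helper73.E8 Pool.Agent.Helper64.E8C Pool.Agent.Helper73.E8.Ez

/-- The periodic coefficient. -/
def svP (k : ℕ) (l : List (List ℤ)) (v j : ℕ) : ℕ :=
  ((List.range k).foldl (fun acc c => acc + ai l j c * 3 ^ ((c * v) % 30)) 0) % 31

/-- The quick check. -/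
def chkP (k : ℕ) (l : List (List ℤ)) : Bool :=
  (List.range 8).all (fun j => svP k l 0 j == 0) &&
  (List.range k).all (fun w => w == 0 || (fun s : List ℕ => (Ub.getD (30 - 30 / k * w) []).all fun u =>
    ((List.range 8).foldl (fun acc j => acc + s.getD j 0 * u.getD j 0) 0) % 31 == 0) ((List.range 8).map fun j => svP k l (30 / k * w) j))

theorem ai_cast (a : List (List ℤ)) (j i : ℕ) : ((ai a j i : ℕ) : F) = (((a.getD j []).getD i 0 : ℤ) : F) := by
  unfold ai
  have h1 : ((((a.getD j []).getD i 0 % 31).toNat : ℕ) : ℤ) = (a.getD j []).getD i 0 % 31 :=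
    Int.toNat_of_nonneg (Int.emod_nonneg _ (by norm_num))
  have h2 : (((((a.getD j []).getD i 0 % 31).toNat : ℕ) : ℤ) : F) = (((a.getD j []).getD i 0 % 31 : ℤ) : F) := by
    rw [h1]
  rw [Int.cast_natCast] at h2
  rw [h2]
  exact ZMod.intCast_mod _ 31

theorem pow3_mod (n : ℕ) : (3 : F) ^ (n % 30) = 3 ^ n := by
  have h3 : (3 : F) ^ 30 = 1 := by decide
  conv_rhs => rw [← Nat.div_add_mod n 30]
  rw [pow_add, pow_mul, h3, one_pow, one_mul]

theorem svP_cast (k : ℕ) (l : List (List ℤ)) (v j : ℕ) : ((svP k l v j : ℕ) : F) =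
    ∑ c ∈ Finset.range k, ((lf l j c : ℤ) : F) * 3 ^ (c * v) := by
  unfold svP
  rw [foldl_add_eq_sum, zero_add, ZMod.natCast_mod, Nat.cast_sum]
  refine Finset.sum_congr rfl fun i _ => ?_
  rw [Nat.cast_mul, Nat.cast_pow, ai_cast, ← pow3_mod (i * v)]
  rfl

theorem getD_ex30' {k : ℕ} (l : List (List ℤ)) (j : ℕ) {i : ℕ} (hi : i < 30) : ((ex30 k l).getD j []).getD i 0 = lf l j (i % k) := by
  unfold ex30 lf
  rcases lt_or_ge j l.length with hj | hj
  · have h1 : (l.map fun r => (List.range 30).map fun i => r.getD (i % k) 0).getD j [] =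
        (List.range 30).map fun i => (l.getD j []).getD (i % k) 0 := by
      rw [List.getD_eq_getElem _ _ (by rw [List.length_map]; exact hj), List.getElem_map]
      congr 1
      funext i
      rw [List.getD_eq_getElem l [] hj]
    rw [h1, List.getD_eq_getElem _ _ (by rw [List.length_map, List.length_range]; exact hi), List.getElem_map, List.getElem_range]
  · have h1 : (l.map fun r => (List.range 30).map fun i => r.getD (i % k) 0).getD j [] = [] :=
      List.getD_eq_default _ _ (by rw [List.length_map]; exact hj)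
    have h2 : l.getD j [] = [] := List.getD_eq_default _ _ hj
    rw [h1, h2]
    simp

theorem split_sum {M : Type*} [AddCommMonoid M] {k : ℕ} (hk : k = 3 ∨ k = 5) (f : ℕ → M) :
    ∑ i ∈ Finset.range 30, f i = ∑ c ∈ Finset.range k, ∑ m ∈ Finset.range (30 / k), f (c + k * m) := by
  rw [← Finset.sum_product']
  have hk0 : 0 < k := by omega
  have h30 : k * (30 / k) = 30 := by rcases hk with rfl | rfl <;> rfl
  refine Finset.sum_bij' (fun i _ => (i % k, i / k)) (fun p _ => p.1 + k * p.2) ?_ ?_ ?_ ?_ ?_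
  · intro i hi
    rw [Finset.mem_range] at hi
    rw [Finset.mem_product, Finset.mem_range, Finset.mem_range]
    exact ⟨Nat.mod_lt _ hk0, Nat.div_lt_div_of_lt_of_dvd ⟨_, h30.symm⟩ hi⟩
  · intro p hp
    rw [Finset.mem_product, Finset.mem_range, Finset.mem_range] at hp
    rw [Finset.mem_range, ← h30]
    have h1 : k * (p.2 + 1) ≤ k * (30 / k) := Nat.mul_le_mul_left k hp.2
    rw [Nat.mul_add, Nat.mul_one] at h1
    change p.1 + k * p.2 < _
    have h2 := hp.1
    omega
  · intro i _
    exact Nat.mod_add_div i k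
  · intro p hp
    rw [Finset.mem_product, Finset.mem_range, Finset.mem_range] at hp
    refine Prod.ext ?_ ?_
    · change (p.1 + k * p.2) % k = p.1
      rw [Nat.add_mul_mod_self_left, Nat.mod_eq_of_lt hp.1]
    · change (p.1 + k * p.2) / k = p.2
      rw [Nat.add_mul_div_left _ _ hk0, Nat.div_eq_of_lt hp.1, zero_add]
  · intro i _
    change f i = f (i % k + k * (i / k))
    rw [Nat.mod_add_div]

/-- The inner sum. -/
theorem inner {k : ℕ} (hk : k = 3 ∨ k = 5) {v : ℕ} (hv : v < 30) :
    ∑ m ∈ Finset.range (30 / k), (3 : F) ^ (k * m * v) = if v % (30 / k) = 0 then ((30 / k : ℕ) : F) else 0 := by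
  have h1 : ∀ k m : ℕ, (3 : F) ^ (k * m * v) = 3 ^ ((k * m * v) % 30) := fun k m => (pow3_mod _).symm
  simp only [h1]
  rcases hk with rfl | rfl
  · have h : ∀ v < 30, ∑ m ∈ Finset.range (30 / 3), (3 : F) ^ ((3 * m * v) % 30) = if v % (30 / 3) = 0 then ((30 / 3 : ℕ) : F) else 0 := by
      decide
    exact h v hv
  · have h : ∀ v < 30, ∑ m ∈ Finset.range (30 / 5), (3 : F) ^ ((5 * m * v) % 30) = if v % (30 / 5) = 0 then ((30 / 5 : ℕ) : F) else 0 := by
      decide
    exact h v hv

theorem sv_ex30 {k : ℕ} (hk : k = 3 ∨ k = 5) (l : List (List ℤ)) {v : ℕ} (hv : v < 30) (j : ℕ) :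
    ((sv (ex30 k l) v j : ℕ) : F) = if v % (30 / k) = 0 then ((30 / k : ℕ) : F) * ((svP k l v j : ℕ) : F) else 0 := by
  rw [sv_cast, split_sum hk]
  have hk0 : 0 < k := by omega
  have h30 : k * (30 / k) = 30 := by rcases hk with rfl | rfl <;> rfl
  have h1 : ∀ c ∈ Finset.range k, ∑ m ∈ Finset.range (30 / k), ((((ex30 k l).getD j []).getD (c + k * m) 0 : ℤ) : F) * 3 ^ ((c + k * m) * v) =
      ((lf l j c : ℤ) : F) * 3 ^ (c * v) * (if v % (30 / k) = 0 then ((30 / k : ℕ) : F) else 0) := by
    intro c hc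
    rw [Finset.mem_range] at hc
    rw [← inner hk hv, Finset.mul_sum]
    refine Finset.sum_congr rfl fun m hm => ?_
    rw [Finset.mem_range] at hm
    have h2 : c + k * m < 30 := by
      have h3 : k * (m + 1) ≤ k * (30 / k) := Nat.mul_le_mul_left k hm
      rw [Nat.mul_add, Nat.mul_one] at h3
      omega
    rw [getD_ex30' l j h2, Nat.add_mul_mod_self_left, Nat.mod_eq_of_lt hc, add_mul, pow_add, ← mul_assoc]
  rw [Finset.sum_congr rfl h1, ← Finset.sum_mul, svP_cast]
  split_ifs
  · rw [mul_comm]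
  · rw [mul_zero]

theorem cast_zero_of_mod {n : ℕ} (h : n % 31 = 0) : ((n : ℕ) : F) = 0 := by
  rw [← ZMod.natCast_mod, h, Nat.cast_zero]

theorem mod_of_cast {n : ℕ} (h : ((n : ℕ) : F) = 0) : n % 31 = 0 := Nat.mod_eq_zero_of_dvd ((ZMod.natCast_eq_zero_iff n 31).1 h)

theorem sv_lt (a : List (List ℤ)) (v j : ℕ) : sv a v j < 31 := Nat.mod_lt _ (by norm_num)

/-- The quick check is sufficient. -/
theorem chkMem_of_chkP {k : ℕ} (hk : k = 3 ∨ k = 5) {l : List (List ℤ)} (h : chkP k l = true) : chkMem (ex30 k l) = true := by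
  unfold chkP at h
  rw [Bool.and_eq_true, List.all_eq_true, List.all_eq_true] at h
  obtain ⟨h1, h2⟩ := h
  have h30 : k * (30 / k) = 30 := by rcases hk with rfl | rfl <;> rfl
  have hm0 : 0 < 30 / k := by rcases hk with rfl | rfl <;> norm_num
  unfold chkMem
  rw [Bool.and_eq_true, List.all_eq_true, List.all_eq_true]
  refine ⟨fun j hj => ?_, fun v hv => ?_⟩
  · have h3 := h1 j hj
    rw [beq_iff_eq] at h3 ⊢
    have h4 := sv_ex30 hk l (v := 0) (by norm_num) j
    rw [if_pos (Nat.zero_mod _), h3, Nat.cast_zero, mul_zero] at h4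
    have h5 := mod_of_cast h4
    rwa [Nat.mod_eq_of_lt (sv_lt _ _ _)] at h5
  · rw [List.mem_range] at hv
    rw [Bool.or_eq_true]
    rcases Nat.eq_zero_or_pos v with h0 | h0
    · left
      rw [h0]
      rfl
    right
    change (Ub.getD (30 - v) []).all _ = true
    rw [List.all_eq_true]
    intro u hu
    rw [beq_iff_eq]
    apply mod_of_cast
    rw [natCast_foldl]
    have h3 : ∀ j ∈ Finset.range 8, ((((List.range 8).map fun j => sv (ex30 k l) v j).getD j 0 * u.getD j 0 : ℕ) : F) =
        (if v % (30 / k) = 0 then ((30 / k : ℕ) : F) * ((svP k l v j : ℕ) : F) else 0) * (u.getD j 0 : F) := by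
      intro j hj
      rw [Finset.mem_range] at hj
      rw [List.getD_eq_getElem _ _ (by rw [List.length_map, List.length_range]; exact hj), List.getElem_map, List.getElem_range,
        Nat.cast_mul, sv_ex30 hk l hv]
    rw [Finset.sum_congr rfl h3]
    by_cases hd : v % (30 / k) = 0
    · obtain ⟨w, rfl⟩ := Nat.dvd_of_mod_eq_zero hd
      have hw : w < k := by
        by_contra hc
        push Not at hc
        have h4 : 30 / k * k ≤ 30 / k * w := Nat.mul_le_mul_left _ hc
        rw [mul_comm (30 / k) k, h30] at h4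
        omega
      have hw0 : w ≠ 0 := by
        rintro rfl
        rw [mul_zero] at h0
        exact lt_irrefl _ h0
      have h5 := h2 w (List.mem_range.2 hw)
      rw [Bool.or_eq_true] at h5
      rcases h5 with h5 | h5
      · exact absurd (beq_iff_eq.1 h5) hw0
      change (Ub.getD (30 - 30 / k * w) []).all _ = true at h5
      rw [List.all_eq_true] at h5
      have h6 := h5 u hu
      rw [beq_iff_eq] at h6
      have h7 := cast_zero_of_mod h6
      rw [natCast_foldl] at h7
      have h8 : ∀ j ∈ Finset.range 8, ((((List.range 8).map fun j => svP k l (30 / k * w) j).getD j 0 * u.getD j 0 : ℕ) : F) =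
          ((svP k l (30 / k * w) j : ℕ) : F) * (u.getD j 0 : F) := by
        intro j hj
        rw [Finset.mem_range] at hj
        rw [List.getD_eq_getElem _ _ (by rw [List.length_map, List.length_range]; exact hj), List.getElem_map, List.getElem_range,
          Nat.cast_mul]
      rw [Finset.sum_congr rfl h8] at h7
      simp only [if_pos hd, mul_assoc]
      rw [← Finset.mul_sum, h7, mul_zero]
    · simp only [if_neg hd, zero_mul, Finset.sum_const_zero]

end Pool.Agent.Helper73.E8.Xc
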