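import Pool.Agent.Helper73.E8.CoreOf
import Pool.Agent.Helper73.E8.Xc.Kv
import Pool.Agent.Helper58.E8Z.BasePA
import Pool.Agent.Helper58.E8Z.BasePB

/-!
# Project E8Z, (E2): the elements of `Chev K` with Gaussian periods as orbit coordinates
-/

set_option autoImplicit false

open scoped TensorProduct

namespace Pool.Agent.Helper73.E8.Xc

open Pool.Agent.Helper73.E8 Pool.Agent.Helper64.E8C Pool.Agent.Helper73.E8.Ez
open Pool.Agent.Helper2.E8A (K ζ σ hζ)

theorem per_mod30 {k : ℕ} (hk : k = 3 ∨ k = 5) (c i : ℕ) : per k (c + i % 30) = per k (c + i) := by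
  rw [← per_mod hk (c + i % 30), ← per_mod hk (c + i)]
  congr 1
  rcases hk with rfl | rfl <;> omega

/-- The element with the coordinates `a`. -/
noncomputable def zk (k : ℕ) (a : ℕ → ℕ → ℤ) : Chev K := ofX fun j i => ∑ c ∈ Finset.range k, (a j c : K) * per k (c + i)

theorem zk_h (k : ℕ) (a : ℕ → ℕ → ℤ) : (zk k a).h = 0 := rfl

theorem X_zk {k : ℕ} (hk : k = 3 ∨ k = 5) (a : ℕ → ℕ → ℤ) (j : Fin 8) (i : ℕ) :
    X (zk k a) j i = ∑ c ∈ Finset.range k, (a j c : K) * per k (c + i) := by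
  unfold zk
  rw [X_ofX_mod]
  simp only [per_mod30 hk]

theorem Fx_zk {k : ℕ} (hk : k = 3 ∨ k = 5) (a : ℕ → ℕ → ℤ) : Fx σ (zk k a) := by
  refine Fx_of_X (s := (σ : K →+* K)) rfl fun j i => ?_
  rw [X_zk hk, X_zk hk]
  change _ = σ _
  rw [map_sum]
  refine Finset.sum_congr rfl fun c _ => ?_
  rw [map_mul, map_intCast, per_sigma, add_assoc]

/-- The period as an integer of `K`. -/
noncomputable def perO (k c : ℕ) : O := ∑ i ∈ Finset.range (30 / k), hζ.toInteger ^ (3 ^ (c + k * i))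

theorem perO_coe (k c : ℕ) : algebraMap O K (perO k c) = per k c := by
  unfold perO per
  rw [map_sum]
  refine Finset.sum_congr rfl fun i _ => ?_
  rw [map_pow]
  rfl

theorem int_zk {k : ℕ} (hk : k = 3 ∨ k = 5) (a : ℕ → ℕ → ℤ) (r : Root) : ∃ w : O, algebraMap O K w = (zk k a).x r := by
  obtain ⟨i, -, j, rfl⟩ := rt_surj r
  refine ⟨(etk i j : O) * ∑ c ∈ Finset.range k, (a j c : O) * perO k (c + i), ?_⟩
  rw [x_eq, X_zk hk, map_mul, map_intCast, map_sum]
  congr 1
  refine Finset.sum_congr rfl fun c _ => ?_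
  rw [map_mul, map_intCast, perO_coe]

theorem thirtyone_B : (31 : Pool.Agent.Helper64.E8C.B) = 0 := by
  have h1 : ((31 : ℕ) : F) = 0 := ZMod.natCast_self 31
  have h2 := congrArg (algebraMap F Pool.Agent.Helper64.E8C.B) h1
  rw [map_natCast, map_zero] at h2
  exact_mod_cast h2

theorem bf_zero_left {R : Type*} [CommRing R] (z : Chev R) : Chev.bf (0 : Chev R) z = 0 := by
  have h := Chev.bf_smul_left (0 : R) (0 : Chev R) z
  rwa [zero_smul, zero_mul] at h

theorem InL_zk {k : ℕ} (hk : k = 3 ∨ k = 5) (a : ℕ → ℕ → ℤ) : InL (zk k a) := by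
  choose w hw using int_zk hk a
  have h0 : cm ev (⟨0, fun r => 31 * w r⟩ : Chev O) = 0 := by
    refine Chev.ext (funext fun i => ?_) (funext fun r => ?_)
    · change ev 0 = 0
      rw [map_zero]
    · change ev (31 * w r) = 0
      rw [map_mul, map_ofNat, thirtyone_B, zero_mul]
  have h1 : ∀ v, cmp v (0 : Chev Pool.Agent.Helper64.E8C.B) = 0 := by
    intro v
    refine Chev.ext (funext fun i => ?_) (funext fun r => ?_)
    · change cf v 0 = 0
      rw [map_zero]
    · change cf v 0 = 0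
      rw [map_zero]
  refine ⟨Fx_zk hk a, ⟨0, fun r => 31 * w r⟩, ?_, ?_, ?_⟩
  · refine Chev.ext (funext fun i => ?_) (funext fun r => ?_)
    · change algebraMap O K 0 = 31 * (zk k a).h i
      rw [zk_h, map_zero]
      simp
    · change algebraMap O K (31 * w r) = 31 * (zk k a).x r
      rw [map_mul, map_ofNat, hw]
  · rw [h0, h1]
  · intro v _ _ m _
    rw [h0, h1, bf_zero_left]

/-! ### Operations -/

theorem zk_ext {k : ℕ} (hk : k = 3 ∨ k = 5) {a : ℕ → ℕ → ℤ} {z : Chev K} (h : z.h = 0)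
    (hx : ∀ (j : Fin 8) (i : ℕ), X z j i = ∑ c ∈ Finset.range k, (a j c : K) * per k (c + i)) : z = zk k a := by
  refine X_ext ?_ fun j i _ => ?_
  · rw [h, zk_h]
  · rw [hx, X_zk hk]

theorem X_map (f : K →+* K) (z : Chev K) (j : Fin 8) (i : ℕ) : X (Chev.map f z) j i = f (X z j i) := by
  unfold X
  rw [map_mul, map_intCast]
  rfl

theorem map_zk {k : ℕ} (hk : k = 3 ∨ k = 5) (a : ℕ → ℕ → ℤ) : Chev.map (σ : K →+* K) (zk k a) = zk k (tF k a) := by
  refine zk_ext hk ?_ fun j i => ?_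
  · funext i
    exact map_zero (σ : K →+* K)
  · rw [X_map, X_zk hk]
    change σ _ = _
    rw [map_sum]
    have hk0 : 1 < k := by rcases hk with rfl | rfl <;> norm_num
    have h1 := sum_shift (k := k) 1 hk0 (fun c c' => (a j c : K) * per k (c' + i))
    have h2 : ∀ c, (a j c : K) * per k ((c + 1) % k + i) = σ ((a j c : K) * per k (c + i)) := by
      intro c
      rw [map_mul, map_intCast, per_sigma, ← per_mod hk ((c + 1) % k + i), Nat.mod_add_mod, per_mod hk, show c + 1 + i = c + i + 1 by ring]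
    simp only [h2] at h1
    rw [h1]
    rfl

theorem per_mul_shift {k : ℕ} (hk : k = 3 ∨ k = 5) (u v r : ℕ) :
    per k (u + r) * per k (v + r) = ∑ d ∈ Finset.range k, (pc k u v d : K) * per k (d + r) := by
  induction r with
  | zero => exact per_mul hk u v
  | succ r ih =>
    have h1 := congrArg σ ih
    rw [map_mul, per_sigma, per_sigma, map_sum] at h1
    rw [← add_assoc, ← add_assoc, h1]
    refine Finset.sum_congr rfl fun d _ => ?_
    rw [map_mul, map_intCast, per_sigma, add_assoc]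

/-- Trace form of the periods. -/
theorem per_trace {k : ℕ} (hk : k = 3 ∨ k = 5) {c c' : ℕ} (hc : c < k) (hc' : c' < k) :
    ∑ i ∈ Finset.range k, per k (c + i) * per k (c' + i) = (31 * (if c = c' then 1 else 0) - (30 / k : ℕ) : ℤ) := by
  simp only [per_mul_shift hk]
  rw [Finset.sum_comm]
  have h1 : ∀ d, ∑ i ∈ Finset.range k, per k (d + i) = -1 := by
    intro d
    have hk0 : 0 < k := by omega
    have h2 := sum_shift (k := k) (d % k) (Nat.mod_lt _ hk0) (fun _ c' => per k c')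
    have h3 : ∀ i, per k ((i + d % k) % k) = per k (d + i) := by
      intro i
      rw [Nat.add_mod_mod, per_mod hk, add_comm]
    simp only [h3] at h2
    rw [h2, per_sum hk]
  simp only [← Finset.mul_sum, h1, mul_neg, mul_one, Finset.sum_neg_distrib]
  rw [← Int.cast_sum, ← Int.cast_neg, Int.cast_inj]
  rcases hk with rfl | rfl
  · have h2 : ∀ c < 3, ∀ c' < 3, -∑ i ∈ Finset.range 3, pc 3 c c' i = 31 * (if c = c' then 1 else 0) - (30 / 3 : ℕ) := by decide
    exact h2 c hc c' hc'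
  · have h2 : ∀ c < 5, ∀ c' < 5, -∑ i ∈ Finset.range 5, pc 5 c c' i = 31 * (if c = c' then 1 else 0) - (30 / 5 : ℕ) := by decide
    exact h2 c hc c' hc'

theorem per_shift3 (c i : ℕ) : per 3 (c + (i + 3)) = per 3 (c + i) := by
  rw [← per_mod (Or.inl rfl) (c + (i + 3)), ← add_assoc, Nat.add_mod_right, per_mod (Or.inl rfl)]

theorem per_shift5 (c i : ℕ) : per 5 (c + (i + 5)) = per 5 (c + i) := by
  rw [← per_mod (Or.inr rfl) (c + (i + 5)), ← add_assoc, Nat.add_mod_right, per_mod (Or.inr rfl)]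

/-- The bracket has no Cartan part. -/
theorem lie_zk_h {k : ℕ} (hk : k = 3 ∨ k = 5) (a b : ℕ → ℕ → ℤ) : (⁅zk k a, zk k b⁆ : Chev K).h = 0 := by
  rcases hk with rfl | rfl
  · have h : ∀ a, zk 3 a ∈ E3 K := fun a => nn3_iff.2 ⟨zk_h 3 a, fun j i => by
      rw [X_zk (Or.inl rfl), X_zk (Or.inl rfl)]
      simp only [per_shift3]⟩
    exact h_zero3 ((E3 K).lie_mem (h a) (h b))
  · have h : ∀ a, zk 5 a ∈ E5 K := fun a => nn5_iff.2 ⟨zk_h 5 a, fun j i => by
      rw [X_zk (Or.inr rfl), X_zk (Or.inr rfl)]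
      simp only [per_shift5]⟩
    exact h_zero ((E5 K).lie_mem (h a) (h b))

theorem brk_list {k : ℕ} (hk : k = 3 ∨ k = 5) (a b : ℕ → ℕ → ℤ) (r : ℕ) (l : List (ℕ × ℕ × ℕ × ℕ × ℕ))
    (hl : ∀ e ∈ l, e.1 < 8 ∧ e.2.2.1 < 8) :
    (l.map fun e => (sgn e : K) * X (zk k a) (Fin.ofNat 8 e.1) (e.2.1 + r) * X (zk k b) (Fin.ofNat 8 e.2.2.1) (e.2.2.2.1 + r)).sum =
      ∑ d ∈ Finset.range k, (((l.map fun e => sgn e * ∑ u ∈ Finset.range k, ∑ v ∈ Finset.range k,
        a e.1 u * b e.2.2.1 v * pc k (u + e.2.1) (v + e.2.2.2.1) d).sum : ℤ) : K) * per k (d + r) := by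
  induction l with
  | nil => simp
  | cons e l ih =>
    rw [List.map_cons, List.sum_cons, ih fun e' he' => hl e' (List.mem_cons_of_mem _ he')]
    simp only [List.map_cons, List.sum_cons, Int.cast_add, add_mul, Finset.sum_add_distrib]
    congr 1
    obtain ⟨h1, h2⟩ := hl e List.mem_cons_self
    rw [X_zk hk, X_zk hk, Fin.val_ofNat, Fin.val_ofNat, Nat.mod_eq_of_lt h1, Nat.mod_eq_of_lt h2, mul_assoc, Finset.sum_mul_sum]
    have h3 : ∀ u v, ((a e.1 u : ℤ) : K) * per k (u + (e.2.1 + r)) * (((b e.2.2.1 v : ℤ) : K) * per k (v + (e.2.2.2.1 + r))) =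
        ∑ d ∈ Finset.range k, ((a e.1 u * b e.2.2.1 v * pc k (u + e.2.1) (v + e.2.2.2.1) d : ℤ) : K) * per k (d + r) := by
      intro u v
      have h4 := per_mul_shift hk (u + e.2.1) (v + e.2.2.2.1) r
      rw [add_assoc, add_assoc] at h4
      rw [mul_mul_mul_comm, h4, Finset.mul_sum]
      refine Finset.sum_congr rfl fun d _ => ?_
      push_cast
      ring
    simp only [h3]
    have h5 : ∀ u, ∑ v ∈ Finset.range k, ∑ d ∈ Finset.range k, ((a e.1 u * b e.2.2.1 v * pc k (u + e.2.1) (v + e.2.2.2.1) d : ℤ) : K) * per k (d + r) =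
        ∑ d ∈ Finset.range k, ∑ v ∈ Finset.range k, ((a e.1 u * b e.2.2.1 v * pc k (u + e.2.1) (v + e.2.2.2.1) d : ℤ) : K) * per k (d + r) :=
      fun u => Finset.sum_comm
    simp only [h5]
    rw [Finset.sum_comm, Finset.mul_sum]
    refine Finset.sum_congr rfl fun d _ => ?_
    push_cast
    simp only [Finset.mul_sum, Finset.sum_mul]
    refine Finset.sum_congr rfl fun u _ => Finset.sum_congr rfl fun v _ => ?_
    ring

theorem brk_zk {k : ℕ} (hk : k = 3 ∨ k = 5) (a b : ℕ → ℕ → ℤ) : (⁅zk k a, zk k b⁆ : Chev K) = zk k (bF k a b) := by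
  refine zk_ext hk (lie_zk_h hk a b) fun p r => ?_
  rw [X_lie rfl rfl, brk_list hk a b r _ fun e he => ⟨(lt67 p he).1, (lt67 p he).2.2.1⟩]
  rfl

theorem add_zk {k : ℕ} (hk : k = 3 ∨ k = 5) (a b : ℕ → ℕ → ℤ) : zk k a + zk k b = zk k (fun j c => a j c + b j c) := by
  refine zk_ext hk ?_ fun j i => ?_
  · change (zk k a).h + (zk k b).h = 0
    rw [zk_h, zk_h, add_zero]
  · rw [X_add, X_zk hk, X_zk hk, ← Finset.sum_add_distrib]
    refine Finset.sum_congr rfl fun c _ => ?_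
    push_cast
    ring

theorem smul_zk {k : ℕ} (hk : k = 3 ∨ k = 5) (n : ℤ) (a : ℕ → ℕ → ℤ) : (n : K) • zk k a = zk k (fun j c => n * a j c) := by
  refine zk_ext hk ?_ fun j i => ?_
  · change (n : K) • (zk k a).h = 0
    rw [zk_h, smul_zero]
  · rw [X_smul, X_zk hk, Finset.mul_sum]
    refine Finset.sum_congr rfl fun c _ => ?_
    push_cast
    ring

end Pool.Agent.Helper73.E8.Xc
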